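import Pool.Agent.Work.MP_8f87b2_h32.L1K3
import Pool.Agent.Work.MP_8f87b2_h11.L1Rows

/-!
# MP_8f87b2_co: rows I-L1-L, I-L1-K, I-L1-Km

The inner words of a gadget of type L1: beads and reduced word.
-/

set_option autoImplicit false

namespace Pool.OddHC

open Finset Equiv BinaryTree Pool.Agent.Work.MP_8f87b2_co

variable {k : ℕ}

namespace L1

open H1 J Ft

variable {n : ℕ} {Φ : ZMod (2 * n + 1) → ℕ}

/-- the data of an inner word (`a`, `b` the first maximum of the reduced word `rr n Φ`) -/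
structure IW (n : ℕ) (Φ : ZMod (2 * n + 1) → ℕ) (t : BinaryTree Unit) : Prop where
  ex : ∃ (a b : List Bool) (v q : ℕ), H1.FM (rr n Φ) a b ∧ v + (a.length + 1) = gH n Φ ∧
    a.length + 3 ≤ gH n Φ ∧
    ((OddHC.cont t = {n + 2} + (Multiset.replicate (∑ x, Φ x) 2 + ({1} + {1} + {1})) ∧
        wd (rd t) = b.map not ++ false :: a.map not ∧
        ln t = 2 * (n + 1 + ∑ x, Φ x) ∧ (∀ z, z ∈ ps t ↔ z = v ∨ z = q) ∧
        q + (a.length + 1) = 2 * (n + 1 + ∑ x, Φ x)) ∨
      (OddHC.cont t = {n + 3} + (Multiset.replicate (∑ x, Φ x) 2 + ({1} + {1})) ∧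
        wd (rd t) = b.map not ++ true :: false :: false :: a.map not ∧
        ln t = 2 * (n + 1 + ∑ x, Φ x) + 2 ∧ ps t = [v, q] ∧
        (q + (a.length + 1) = 2 * (n + 1 + ∑ x, Φ x) ∨ q + a.length = 2 * (n + 1 + ∑ x, Φ x) ∨
          q + a.length = 2 * (n + 1 + ∑ x, Φ x) + 1)))

theorem pslS (e : List ℕ) : ∀ i : ℕ, (Ft.psl i e).Pairwise (· ≤ ·) := by
  induction e with
  | nil => intro i; simp [Ft.psl]
  | cons n e ih =>
    intro i
    rw [Ft.psl, List.pairwise_append]
    refine ⟨?_, ih _, ?_⟩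
    · rw [List.pairwise_replicate]
      right
      exact le_rfl
    · intro a ha b hb
      rw [List.eq_of_mem_replicate ha]
      have := (Ft.mem_psl e (i + 1) b).1 hb
      omega

theorem ps_two {t : BinaryTree Unit} {x y : ℕ} (hxy : x < y) (h : (ps t).length = 2)
    (h1 : x ∈ ps t) (h2 : y ∈ ps t) : ps t = [x, y] := by
  obtain ⟨p, q, hpq⟩ := List.length_eq_two.1 h
  have hs := pslS (red t).2 0
  change (ps t).Pairwise (· ≤ ·) at hs
  rw [hpq] at hs h1 h2 ⊢
  simp only [List.mem_cons, List.not_mem_nil, or_false] at h1 h2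
  rw [List.pairwise_cons] at hs
  have := hs.1 q (by simp)
  rcases h1 with rfl | rfl <;> rcases h2 with rfl | rfl
  · omega
  · rfl
  · omega
  · omega

theorem c3' (hn : 1 ≤ n) : raise (OddHC.cont (RH n Φ) + {1}) =
    {n + 3} + (Multiset.replicate (∑ x, Φ x) 2 + ({1} + {1})) := by
  rw [cRH hn, add_assoc, raise_top']
  · simp only [add_assoc]
  · intro x hx
    rcases Multiset.mem_add.1 hx with h | h
    · exact (le_M h).trans (by omega)
    · rw [Multiset.mem_singleton] at h
      omega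

/-- the inner words -/
theorem IW_of (hn : 1 ≤ n) (Φ : ZMod (2 * n + 1) → ℕ) (hd : LD (RH n Φ)) {x : X k} {i : ℕ}
    (hi : i ∈ [1, 3, 6, 8])
    (hx : x.1 = H1.W (RH n Φ) .nil (Tsq.sq (RH n Φ)).2 (Tsq.sq (RH n Φ)).1 i) : IW n Φ (TT x).1 := by
  obtain ⟨d1, d2, d3⟩ := RH_dat hn Φ
  have hRpos : 0 < ln (RH n Φ) := by omega
  have hg := gH_le hn Φ
  rw [rr_num hn] at hg
  have hFM0 : ∀ a b, H1.FM (rr n Φ) a b → a.length + 3 ≤ gH n Φ := by
    intro a b h
    rw [← d1] at h
    rcases hd with h1 | ⟨_, h1⟩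
    · obtain ⟨v, hv, pR⟩ := h1.pR
      rw [d3] at pR
      have e : gH n Φ = v := by simpa using pR
      have := h1.hFM _ _ h
      omega
    · obtain ⟨v, hv, pR⟩ := h1.pR
      rw [d3] at pR
      have e : gH n Φ = v := by simpa using pR
      have := h1.hFM _ _ h
      omega
  have hs : 0 < ln (Tsq.sq (RH n Φ)).1 := by
    rcases hd with h1 | ⟨_, h1⟩
    · have := h1.s4; omega
    · have := h1.s6; have := h1.sum; omega
  have hB : (Tsq.sq (RH n Φ)).2 = .nil ∨ 0 < ln (Tsq.sq (RH n Φ)).2 := by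
    rcases hd with h1 | ⟨h1, _⟩
    · obtain ⟨y, hy, _⟩ := h1.pB
      right; omega
    · exact Or.inl h1
  obtain ⟨_, t1, t3, _, t6, t8, _⟩ := rd_W hRpos hs hB
  have hi20 : i < 20 := by
    have : ∀ j ∈ [1, 3, 6, 8], j < 20 := by decide
    exact this i hi
  obtain ⟨l1, l2⟩ := LN_PP hRpos hs hB hi20
  rw [← hx] at l1 l2
  rw [d3] at l2
  obtain ⟨a, b, hF⟩ := FM_ex (rr_ne hn Φ)
  have hle := hFM0 _ _ hF
  have hF' : H1.FM (rd (RH n Φ)) a b := by rw [d1]; exact hF
  have hlen := FM_len hF'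
  have hN : H1.FM (rd (RH n Φ) △ .nil) (true :: a) (b ++ false :: wd .nil) :=
    hF'.node (Z := .nil) (by simp [Tsq.ht])
  have hcT : OddHC.cont (TT x).1 = OddHC.cont x.1 := by rw [TT_apply, cont_TF]
  obtain ⟨v, hv⟩ : ∃ v, v + (a.length + 1) = gH n Φ := ⟨gH n Φ - (a.length + 1), by omega⟩
  have hc1 : OddHC.cont lf0 = {1} := c_lf0
  -- one more component
  have two : ∀ q s, rd x.1 = rd (RH n Φ) △ .nil → ln x.1 = ln (RH n Φ) + 2 → (ps x.1).length = 2 →
      gH n Φ + 1 ∈ ps x.1 → s ∈ ps x.1 →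
      OddHC.cont x.1 = {n + 3} + (Multiset.replicate (∑ x, Φ x) 2 + ({1} + {1})) →
      ((s = ln (RH n Φ) + 1 ∧ q + (a.length + 1) = ln (RH n Φ)) ∨
        (s = ln (RH n Φ) + 2 ∧ q + a.length = ln (RH n Φ)) ∨
        (s = 0 ∧ q + a.length = ln (RH n Φ) + 1)) → IW n Φ (TT x).1 := by
    intro q s e1 e2 e0 e3 e4 ec e5
    rw [← e1] at hN
    obtain ⟨h1, h2, h3, h4⟩ := T_all x hN
    rw [e2] at h2 h4
    rw [List.length_cons] at h4
    have hp : v ∈ ps (TT x).1 := by
      rw [h4]
      refine ⟨by omega, ?_⟩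
      have e6 : v + (a.length + 1 + 1) = gH n Φ + 1 := by omega
      rw [e6, Nat.mod_eq_of_lt (by omega)]
      exact e3
    have hq : q ∈ ps (TT x).1 := by
      rw [h4]
      rcases e5 with ⟨e5, e6⟩ | ⟨e5, e6⟩ | ⟨e5, e6⟩
      · refine ⟨by omega, ?_⟩
        have e7 : q + (a.length + 1 + 1) = s := by omega
        rw [e7, Nat.mod_eq_of_lt (by omega)]
        exact e4
      · refine ⟨by omega, ?_⟩
        have e7 : q + (a.length + 1 + 1) = s := by omega
        rw [e7, Nat.mod_eq_of_lt (by omega)]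
        exact e4
      · refine ⟨by omega, ?_⟩
        have e7 : q + (a.length + 1 + 1) = ln (RH n Φ) + 2 + 1 := by omega
        rw [e7, Nat.mod_self]
        rw [e5] at e4
        exact e4
    have hvq : v < q := by omega
    refine ⟨a, b, v, q, hF, hv, by omega, Or.inr ⟨by rw [hcT, ec], ?_, by rw [h2, d2],
      ps_two hvq (by rw [h3, e0]) hp hq, ?_⟩⟩
    · rw [h1]
      simp [wd]
    · rw [d2] at e5
      omega
  simp only [List.mem_cons, List.not_mem_nil, or_false] at hi
  rcases hi with rfl | rfl | rfl | rfl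
  · have e3 : rd x.1 = rd (RH n Φ) := by rw [hx, t1]
    have l1' : ln x.1 = ln (RH n Φ) := l1
    have l2' : ps x.1 = [gH n Φ, ln (RH n Φ), ln (RH n Φ)] := l2
    have hF2 := hF'
    rw [← e3] at hF2
    obtain ⟨h1, h2, h3, h4⟩ := T_all x hF2
    rw [l1', l2'] at h4
    obtain ⟨q, hq⟩ : ∃ q, q + (a.length + 1) = ln (RH n Φ) := ⟨ln (RH n Φ) - (a.length + 1), by omega⟩
    refine ⟨a, b, v, q, hF, hv, by omega, Or.inl ⟨?_, h1, by rw [h2, l1', d2], ?_, by rw [hq, d2]⟩⟩
    · rw [hcT, hx]
      change OddHC.cont (app (RH n Φ) (.nil △ lf0)) = _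
      rw [cont_app, cont_bead, hc1, cRH hn]
      simp only [add_assoc]
    · intro z
      rw [h4]
      simp only [List.mem_cons, List.not_mem_nil, or_false]
      constructor
      · rintro ⟨hz, h5⟩
        rcases lt_or_ge (z + (a.length + 1)) (ln (RH n Φ) + 1) with h6 | h6
        · rw [Nat.mod_eq_of_lt h6] at h5
          omega
        · rw [Nat.mod_eq_sub_mod h6, Nat.mod_eq_of_lt (by omega)] at h5
          omega
      · rintro (rfl | rfl)
        · refine ⟨by omega, ?_⟩
          rw [Nat.mod_eq_of_lt (by omega)]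
          left; omega
        · refine ⟨by omega, ?_⟩
          rw [Nat.mod_eq_of_lt (by omega)]
          right; left; omega
  · have l2' : ps x.1 = [gH n Φ + 1, ln (RH n Φ) + 1] := l2
    obtain ⟨q, hq⟩ : ∃ q, q + (a.length + 1) = ln (RH n Φ) := ⟨ln (RH n Φ) - (a.length + 1), by omega⟩
    refine two q (ln (RH n Φ) + 1) (by rw [hx, t3]) l1 (by rw [l2']; rfl) (by rw [l2']; simp)
      (by rw [l2']; simp) ?_ (Or.inl ⟨rfl, hq⟩)
    rw [hx]
    change OddHC.cont (app (RH n Φ) lf0 △ .nil) = _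
    rw [cont_node, cont_nil, add_zero, cont_app, hc1, c3' hn]
  · have l2' : ps x.1 = [gH n Φ + 1, ln (RH n Φ) + 2] := l2
    obtain ⟨q, hq⟩ : ∃ q, q + a.length = ln (RH n Φ) := ⟨ln (RH n Φ) - a.length, by omega⟩
    refine two q (ln (RH n Φ) + 2) (by rw [hx, t6]) l1 (by rw [l2']; rfl) (by rw [l2']; simp)
      (by rw [l2']; simp) ?_ (Or.inr (Or.inl ⟨rfl, hq⟩))
    rw [hx]
    change OddHC.cont (RH n Φ △ lf0) = _
    rw [cont_node, hc1, cRH hn, raise_top' (fun x hx => (le_M hx).trans (by omega))]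
    simp only [add_assoc]
  · have l2' : ps x.1 = [0, gH n Φ + 1] := l2
    obtain ⟨q, hq⟩ : ∃ q, q + a.length = ln (RH n Φ) + 1 := ⟨ln (RH n Φ) + 1 - a.length, by omega⟩
    refine two q 0 (by rw [hx, t8]) l1 (by rw [l2']; rfl) (by rw [l2']; simp)
      (by rw [l2']; simp) ?_ (Or.inr (Or.inr ⟨rfl, hq⟩))
    rw [hx]
    change OddHC.cont (.nil △ (RH n Φ △ .nil)) = _
    rw [cont_bead, cont_node, cont_nil, add_zero, cRH hn,
      raise_top' (fun x hx => (le_M hx).trans (by omega))]
    have e9 : ({n + 2 + 1} : Multiset ℕ) = {n + 3} := rfl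
    rw [e9]
    ext x
    simp only [Multiset.count_add]
    omega

/-- the first maximum has at least `n` letters before it -/
theorem FM_n (hn : 1 ≤ n) {a b : List Bool} (h : H1.FM (rr n Φ) a b) : n ≤ a.length ∧ n + 1 ≤ b.length := by
  have h1 := h.top
  have h2 := ht_rr hn Φ
  have h3 := List.count_le_length (a := true) (l := a)
  have h4 := (FM.facts h).2.2
  have h5 := List.count_le_length (a := false) (l := b)
  omega

/-- no bead at the ends -/
theorem IW.ends (hn : 1 ≤ n) {t : BinaryTree Unit} (h : IW n Φ t) :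
    2 ≤ (ps t).length ∧ 0 ∉ ps t ∧ 1 ∉ ps t ∧ ln t ∉ ps t ∧ ln t - 1 ∉ ps t ∧ 4 ≤ ln t := by
  obtain ⟨a, b, v, q, hF, hv, hg, h | h⟩ := h.ex
  · obtain ⟨hc, _, hl, hp, hq⟩ := h
    have hn' := FM_n hn hF
    have hgl := gH_le hn Φ
    rw [rr_num hn] at hgl
    refine ⟨?_, ?_, ?_, ?_, ?_, by omega⟩
    · rw [ps_length, hc]
      simp
    · rw [hp]; omega
    · rw [hp]; omega
    · rw [hp]; omega
    · rw [hp]; omega
  · obtain ⟨hc, _, hl, hp, hq⟩ := h
    have hn' := FM_n hn hF
    have hgl := gH_le hn Φ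
    rw [rr_num hn] at hgl
    refine ⟨by rw [hp]; rfl, ?_, ?_, ?_, ?_, by omega⟩
    · rw [hp]; simp only [List.mem_cons, List.not_mem_nil, or_false]; omega
    · rw [hp]; simp only [List.mem_cons, List.not_mem_nil, or_false]; omega
    · rw [hp]; simp only [List.mem_cons, List.not_mem_nil, or_false]; omega
    · rw [hp]; simp only [List.mem_cons, List.not_mem_nil, or_false]; omega

end L1

open L1 J H1

variable {F F' : Set (Cyc k)} {g g' : DG k}

/-- the inner words of a gadget of type L1 -/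
theorem TyL1.iw (hk : 9 ≤ k) (h : TyL1 F g) {p : X k × X k} (hp : p ∈ g.arcs) {w : X k} (hw : w ∈ innA p) :
    ∃ (n : ℕ) (Φ : ZMod (2 * n + 1) → ℕ), Ba k n Φ ∧
      (∀ c ∈ F, OddHC.contc c = {n + 2} + Multiset.replicate (∑ x, Φ x + 1) 2 + {1}) ∧
      ((RuR n Φ ∧ L1.IW n Φ w.1) ∨ (RuM n Φ ∧ L1.IW n (rf Φ) (Tsq.mir w.1))) := by
  have hw' : w = TT p.1 := hw
  subst hw'
  rcases h with ⟨n, Φ, w0, hb, hr, rfl, rfl⟩ | ⟨n, Φ, w0, hb, hr, rfl, rfl⟩
  · refine ⟨n, Φ, hb, ?_, Or.inl ⟨hr, ?_⟩⟩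
    · rintro c (rfl | rfl)
      · have := cont_Ov hb.hn (xw_ov0 hb.hn hb.hk w0)
        rwa [adj_sum] at this
      · have := cont_Ov hb.hn (xw_ov4 hb.hn hb.hk w0)
        rwa [adj_sum] at this
    have hkk := hb.hk
    have hd : Ft.LD (RH n Φ) := Ft.LD_right hb.hn Φ hb.one (fun h1 => by omega) hr
    have hlt : ∀ i ∈ [1, 3, 6, 8], i < 20 := by decide
    have key : ∀ i ∈ [1, 3, 6, 8], L1.IW n Φ (TT (xw n Φ w0 i)).1 := fun i hi =>
      L1.IW_of hb.hn Φ hd hi (xw_val hb.hn hb.hk w0 (hlt i hi))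
    rcases hp with e | e | e | e
    · subst e; exact key 1 (by simp)
    · subst e; exact key 3 (by simp)
    · subst e; exact key 6 (by simp)
    · subst e; exact key 8 (by simp)
  · refine ⟨n, Φ, hb, ?_, Or.inr ⟨hr, ?_⟩⟩
    · rintro c (rfl | rfl)
      · have := cont_Ov hb.hn (xm_ov0 hb.hn hb.hk w0)
        rwa [adj_sum] at this
      · have := cont_Ov hb.hn (xm_ov4 hb.hn hb.hk w0)
        rwa [adj_sum] at this
    have hkk := hb.hk
    have hd : Ft.LD (RH n (J.rf Φ)) := Ft.LD_mir hb.hn Φ hb.one (fun h1 => by omega) ⟨hr.2.1, hr.2.2.2⟩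
    have hkr : n + 5 + 2 * ∑ x, J.rf Φ x = k := by rw [J.rf_sum]; exact hb.hk
    have hlt : ∀ i ∈ [1, 3, 6, 8], i < 20 := by decide
    have key : ∀ i j, (i, j) ∈ [(1, 11), (3, 12), (6, 15), (8, 14)] →
        L1.IW n (rf Φ) (Tsq.mir (TT (xm n Φ w0 j)).1) := by
      intro i j hij
      have hi : i ∈ [1, 3, 6, 8] := by
        simp only [List.mem_cons, Prod.mk.injEq, List.not_mem_nil, or_false] at hij ⊢
        omega
      have hij' : (i, j) ∈ [(0, 10), (1, 11), (3, 12), (6, 15), (8, 14), (9, 17)] := by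
        simp only [List.mem_cons, Prod.mk.injEq, List.not_mem_nil, or_false] at hij ⊢
        omega
      have h1 : L1.IW n (rf Φ) (TT (xw n (rf Φ) w0 i)).1 :=
        L1.IW_of hb.hn (rf Φ) hd hi (xw_val (k := k) hb.hn hkr w0 (hlt i hi))
      have h2 : TT (TT (xw n (J.rf Φ) w0 i)) = xw n (J.rf Φ) w0 j :=
        (GR_RH hb.hn (J.rf Φ) hkr).link w0 hij'
      have e : Tsq.mir (TT (xm n Φ w0 j)).1 = (TT (xw n (rf Φ) w0 i)).1 := by
        change Tsq.mir (TT (Tsq.mirX (xw n (rf Φ) w0 j))).1 = _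
        rw [← h2, Tsq.TT_mir]
        exact Tsq.mir_mir _
      rw [e]
      exact h1
    rcases hp with e | e | e | e
    · subst e; exact key 1 11 (by simp)
    · subst e; exact key 3 12 (by simp)
    · subst e; exact key 6 15 (by simp)
    · subst e; exact key 8 14 (by simp)

namespace L1

open Ft

/-- beads of the mirrored word -/
theorem ps_mir_mem {t : BinaryTree Unit} {x : ℕ} (h : x ∈ ps t) : ln t - x ∈ ps (Tsq.mir t) := by
  rw [ps_mir, List.mem_map]
  exact ⟨x, List.mem_reverse.2 h, rfl⟩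

/-- facts about an inner word -/
structure IF (w : BinaryTree Unit) : Prop where
  two : 2 ≤ (ps w).length
  z : 0 ∉ ps w
  o : 1 ∉ ps w
  l : ln w ∉ ps w
  l1 : ln w - 1 ∉ ps w
  len : 4 ≤ ln w

theorem IF.mir {w : BinaryTree Unit} (h : IF (Tsq.mir w)) : IF w := by
  obtain ⟨h1, h2, h3, h4, h5, h6⟩ := h
  rw [ln_mir] at h4 h5 h6
  refine ⟨?_, ?_, ?_, ?_, ?_, h6⟩
  · rw [ps_mir, List.length_map, List.length_reverse] at h1
    exact h1
  · intro h
    exact h4 (by simpa using ps_mir_mem h)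
  · intro h
    exact h5 (ps_mir_mem h)
  · intro h
    exact h2 (by simpa using ps_mir_mem h)
  · intro h
    have := ps_mir_mem h
    have e : ln w - (ln w - 1) = 1 := by omega
    rw [e] at this
    exact h3 this

/-- contents of the inner words -/
def IC (k : ℕ) (w : BinaryTree Unit) : Prop :=
  ∃ n b : ℕ, 1 ≤ n ∧ 1 ≤ b ∧ n + 5 + 2 * b = k ∧
    (OddHC.cont w = {n + 2} + (Multiset.replicate b 2 + ({1} + {1} + {1})) ∨
      OddHC.cont w = {n + 3} + (Multiset.replicate b 2 + ({1} + {1})))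

theorem IC.one {w : BinaryTree Unit} (h : IC k w) : 2 ≤ (OddHC.cont w).count 1 := by
  obtain ⟨n, b, _, _, _, h | h⟩ := h
  · rw [h]
    simp only [Multiset.count_add, Multiset.count_singleton_self]
    omega
  · rw [h]
    simp only [Multiset.count_add, Multiset.count_singleton_self]
    omega

theorem IC.big {w : BinaryTree Unit} (h : IC k w) : (OddHC.cont w).countP (3 ≤ ·) ≤ 1 := by
  have hz : ∀ M : Multiset ℕ, (∀ x ∈ M, x ≤ 2) → M.countP (3 ≤ ·) = 0 := by
    intro M hM
    rw [Multiset.countP_eq_zero]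
    intro x hx
    have := hM x hx
    omega
  have h2 : ∀ m : ℕ, ({m} : Multiset ℕ).countP (3 ≤ ·) ≤ 1 := by
    intro m
    have := Multiset.countP_le_card (3 ≤ ·) ({m} : Multiset ℕ)
    rwa [Multiset.card_singleton] at this
  obtain ⟨n, b, _, _, _, h | h⟩ := h
  · rw [h, Multiset.countP_add, hz (_ + (_ + _ + _))]
    · rw [add_zero]; exact h2 _
    · intro x hx
      simp only [Multiset.mem_add, Multiset.mem_singleton] at hx
      rcases hx with h | ((h | h) | h)
      · rw [Multiset.eq_of_mem_replicate h]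
      · omega
      · omega
      · omega
  · rw [h, Multiset.countP_add, hz (_ + (_ + _))]
    · rw [add_zero]; exact h2 _
    · intro x hx
      simp only [Multiset.mem_add, Multiset.mem_singleton] at hx
      rcases hx with h | (h | h)
      · rw [Multiset.eq_of_mem_replicate h]
      · omega
      · omega

theorem IW.ic {n : ℕ} {Φ : ZMod (2 * n + 1) → ℕ} (hn : 1 ≤ n) (h1 : 1 ≤ ∑ x, Φ x)
    (hk : n + 5 + 2 * ∑ x, Φ x = k) {w : BinaryTree Unit} (h : IW n Φ w) : IC k w := by
  obtain ⟨a, b, v, q, _, _, _, h | h⟩ := h.ex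
  · exact ⟨n, _, hn, h1, hk, Or.inl h.1⟩
  · exact ⟨n, _, hn, h1, hk, Or.inr h.1⟩

end L1

theorem TyL1.ic (hk : 9 ≤ k) (h : TyL1 F g) {p : X k × X k} (hp : p ∈ g.arcs) {w : X k} (hw : w ∈ innA p) :
    L1.IF w.1 ∧ L1.IC k w.1 := by
  obtain ⟨n, Φ, hb, _, ⟨hr, h1⟩ | ⟨hr, h1⟩⟩ := h.iw hk hp hw
  · obtain ⟨a1, a2, a3, a4, a5, a6⟩ := h1.ends hb.hn
    exact ⟨⟨a1, a2, a3, a4, a5, a6⟩, h1.ic hb.hn hb.one hb.hk⟩
  · obtain ⟨a1, a2, a3, a4, a5, a6⟩ := h1.ends hb.hn
    refine ⟨L1.IF.mir ⟨a1, a2, a3, a4, a5, a6⟩, ?_⟩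
    have h2 := h1.ic (k := k) hb.hn (by rw [rf_sum]; exact hb.one) (by rw [rf_sum]; exact hb.hk)
    unfold L1.IC at h2 ⊢
    rw [HM.cont_mir] at h2
    exact h2

/-! ### The rows -/

open Ft

/-- **I-L1-L**: triples `()(X)()` of type L -/
theorem TyL1.inner_L (hk : 9 ≤ k) (hL : TyL1 F g) {Z : BinaryTree Unit} (hT : IsTri (lp 1) Z (lp 1) F' g') :
    ∀ a ∈ g.arcs, ∀ w ∈ innA a, w ∉ g'.B := by
  intro a ha w hw h2
  have hI := (hL.ic hk ha hw).1
  have h3 : w.1 = app lf0 (Z △ lf0) ∨ w.1 = app Z (lf0 △ lf0) ∨ w.1 = app lf0 (lf0 △ Z) := by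
    rcases hT.words w h2 with h | ⟨_, h | h⟩
    · exact Or.inl h
    · exact Or.inr (Or.inl h)
    · exact Or.inr (Or.inr h)
  rcases h3 with e | e | e
  · apply hI.z
    rw [e]
    change 0 ∈ ps (.nil △ (Z △ lf0))
    rw [ps_leaf]; simp
  · apply hI.l
    rw [e, ln_app, ps_app, List.mem_append]
    right
    have e1 : ps (lf0 △ lf0) = [2] := rfl
    have e2 : ln (lf0 △ lf0) = 2 := rfl
    rw [e1, e2]
    simp
    omega
  · apply hI.z
    rw [e]
    change 0 ∈ ps (.nil △ (lf0 △ Z))
    rw [ps_leaf]; simp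

/-- a last bead -/
theorem L1.IF.not_last {w P : BinaryTree Unit} (h : L1.IF w) : w ≠ app P lf0 := by
  rintro rfl
  apply h.l
  rw [ln_app, ps_app, List.mem_append]
  right
  have e1 : ps lf0 = [0] := rfl
  have e2 : ln lf0 = 0 := rfl
  rw [e1, e2]
  simp

/-- a first bead -/
theorem L1.IF.not_first {w P : BinaryTree Unit} (h : L1.IF w) : w ≠ .nil △ P := by
  rintro rfl
  apply h.z
  rw [ps_leaf]; simp

/-- **I-L1-Km**: `K'`, host `()(U)` -/
theorem TyL1.inner_Km (hk : 9 ≤ k) (hL : TyL1 F g) {U : BinaryTree Unit} (hU : L1.KmOK U)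
    (hT : IsTri (.nil △ .nil) U .nil F' g') : ∀ a ∈ g.arcs, ∀ w ∈ innA a, w ∉ g'.B := by
  intro a ha w hw h2
  obtain ⟨hI, hC⟩ := hL.ic hk ha hw
  have h3 : w.1 = w1 lf0 U .nil ∨ w.1 = w1 U .nil lf0 ∨ w.1 = w1 .nil lf0 U := by
    rcases hT.words w h2 with h | ⟨_, h | h⟩
    · exact Or.inl h
    · exact Or.inr (Or.inl h)
    · exact Or.inr (Or.inr h)
  rcases h3 with e | e | e
  · exact hI.not_first e
  · refine hI.not_last (P := app U (.nil △ .nil)) ?_
    rw [e, app_assoc]
    rfl
  · have e : w.1 = lf0 △ U := e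
    cases hU with
    | a V A m hA hUe =>
      cases m with
      | zero =>
        apply hI.l1
        have e1 : w.1 = app (lf0 △ V) (app A lf0 △ .nil) := by rw [e, hUe]; rfl
        have h4 := L1.ps_end (lf0 △ V) .nil hA
        rw [← e1] at h4
        have h5 : ln (app A lf0) = ln A := by rw [ln_app]; rfl
        have h6 := ln_node' (A := app A lf0) (by rw [h5]; exact L1.ln_of_ht hA) .nil
        have h7 : ln (.nil : BinaryTree Unit) = 0 := rfl
        have h8 : ln w.1 = ln (lf0 △ V) + ln (app A lf0 △ .nil) := by rw [e1, ln_app]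
        have h9 : ln w.1 - 1 = ln (lf0 △ V) + 1 + ln A := by omega
        rw [h9]
        exact h4
      | succ m =>
        have e2 : ∀ m : ℕ, lp (m + 1) = app (lp m) lf0 := by
          intro m
          induction m with
          | zero => rfl
          | succ m ih =>
            change .nil △ lp (m + 1) = .nil △ app (lp m) lf0
            rw [ih]
        refine hI.not_last (P := lf0 △ app V (app A lf0 △ lp m)) ?_
        rw [e, hUe, e2]
        change lf0 △ app V (app A lf0 △ app (lp m) lf0) = lf0 △ app (app V (app A lf0 △ lp m)) lf0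
        rw [app_assoc]
        rfl
    | b A a hA hA1 ha hUe =>
      have h1 := hC.one
      rw [e, L1.cont_two, Multiset.count_add, Multiset.count_singleton, if_neg (by norm_num)] at h1
      have e5 : (OddHC.cont U).count 1 ≤ 1 := by
        rw [hUe, cont_node, Multiset.count_add]
        have h5 : (OddHC.cont (lv2 a (.nil : BinaryTree Unit))).count 1 = 0 := by
          rw [cont_lv2, Multiset.count_add, Multiset.count_replicate, if_neg (by norm_num), cont_nil]
          rfl
        have h8 : 2 ≤ (OddHC.cont (app A lf0)).sup := by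
          have : (OddHC.cont (app A lf0)).sup = OddHC.ht (app A lf0) := (ht_eq _).symm
          rw [this, ht_app]
          have h7 : OddHC.ht A = Tsq.ht A := (H1.ht_eq A).symm
          omega
        have h6 : (raise (OddHC.cont (app A lf0))).count 1 = (OddHC.cont (app A lf0)).count 1 :=
          count_raise 1 (by omega) (by omega)
        rw [h5, h6, cont_app, L1.c_lf0, Multiset.count_add, hA1, Multiset.count_singleton_self]
      omega
    | c A hA hUe =>
      refine hI.not_last (P := lf0 △ (A △ .nil)) ?_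
      rw [e, hUe]
      rfl
    | d h =>
      have h1 := hC.big
      rw [e, L1.cont_two, Multiset.countP_add] at h1
      omega
    | e h =>
      have h1 := hC.one
      rw [e, L1.cont_two, Multiset.count_add, h, Multiset.count_singleton, if_neg (by norm_num)] at h1
      omega

/-- one soliton and one 2: the first maximum is after the first ascent -/
theorem L1.FM_oneK {n : ℕ} {Φ : ZMod (2 * n + 1) → ℕ} (hn : 1 ≤ n) (h1 : ∑ x, Φ x = 1) (hr : RuR n Φ)
    {a b : List Bool} (h : H1.FM (rr n Φ) a b) : a = List.replicate n true := by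
  have hm : n * ∑ z, Φ z ≤ mo Φ 0 := by
    rcases hr with h0 | ⟨h2, h3, h4⟩
    · unfold mo
      have h5 : ((-1 : ZMod (2 * n + 1)) - 0).val * Φ (-1) ≤ ∑ z : ZMod (2 * n + 1), (z - 0).val * Φ z :=
        Finset.single_le_sum (f := fun z : ZMod (2 * n + 1) => (z - 0).val * Φ z)
          (fun _ _ => Nat.zero_le _) (Finset.mem_univ _)
      have h6 : ((-1 : ZMod (2 * n + 1)) - 0).val = 2 * n := by
        rw [sub_zero]
        exact ZMod.val_neg_one (2 * n)
      rw [h6] at h5
      have h7 : 2 * n * 1 ≤ 2 * n * Φ (-1) := Nat.mul_le_mul_left _ h0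
      rw [h1]
      omega
    · have h5 := Sq_diff Φ
      by_contra h6
      push Not at h6
      have h7 : (0 : ℤ) < n * ∑ z, (Φ z : ℤ) - mo Φ 0 := by
        have := h6
        zify at this
        linarith
      have h8 : (0 : ℤ) < 2 * (2 * n + 1) * (n * ∑ z, (Φ z : ℤ) - mo Φ 0) := by positivity
      omega
  have hd := cm_drop hn Φ (by omega) hm
  obtain ⟨a', b', f1, f2, f3⟩ := FM_ch n (lf Φ) (by simp [lf])
  have f1' : H1.FM (rr n Φ) a' b' ∧ Tsq.ht (rr n Φ) = n + 1 := by
    obtain ⟨p, rfl⟩ : ∃ p, n = p + 1 := ⟨n - 1, by omega⟩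
    exact ⟨f1, f3⟩
  obtain ⟨rfl, rfl⟩ := h.uniq f1'.1
  have hl := congrArg List.length h.eq
  rw [wd_length, rr_num hn, List.length_append, List.length_cons] at hl
  have ht := h.top
  rw [f1'.2] at ht
  have hc : a.count true + a.count false = a.length := by
    have := List.length_eq_countP_add_countP (l := a) (· == true)
    have e1 : a.count true = a.countP (· == true) := rfl
    have e2 : a.count false = a.countP (fun x => ¬ (x == true) = true) := by
      unfold List.count
      apply List.countP_congr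
      intro x _
      cases x <;> simp
    omega
  rw [List.eq_replicate_iff]
  have h0 : a.count false = 0 := by omega
  refine ⟨by omega, ?_⟩
  intro x hx
  cases x with
  | true => rfl
  | false => exact absurd (List.count_pos_iff.2 hx) (by omega)

/-- **I-L1-K**: `K`, host `(S)()` -/
theorem TyL1.inner_K (hk : 9 ≤ k) (hL : TyL1 F g) {S : BinaryTree Unit}
    (hc : (OddHC.cont S).count 2 = 0 ∨ (OddHC.cont S).count 1 = 0)
    (hT : IsTri .nil S (.nil △ .nil) F' g') : ∀ a ∈ g.arcs, ∀ w ∈ innA a, w ∉ g'.B := by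
  intro p hp w hw h2
  obtain ⟨hI, hC⟩ := hL.ic hk hp hw
  have h3 : w.1 = w1 .nil S lf0 ∨ w.1 = w1 S lf0 .nil ∨ w.1 = w1 lf0 .nil S := by
    rcases hT.words w h2 with h | ⟨_, h | h⟩
    · exact Or.inl h
    · exact Or.inr (Or.inl h)
    · exact Or.inr (Or.inr h)
  rcases h3 with e | e | e
  · exact hI.not_last (P := S △ .nil) e
  · have e : w.1 = app S (lf0 △ .nil) := e
    have hcw : OddHC.cont w.1 = OddHC.cont S + {2} := by
      rw [e, cont_app, L1.cont_two, cont_nil, add_zero]
    rcases hc with hc | hc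
    · have h4 : (OddHC.cont w.1).count 2 = 1 := by
        rw [hcw, Multiset.count_add, hc, Multiset.count_singleton_self]
      have hcc : ∀ {n : ℕ} {Φ : ZMod (2 * n + 1) → ℕ} {v : BinaryTree Unit}, 1 ≤ n → L1.IW n Φ v →
          (OddHC.cont v).count 2 = ∑ x, Φ x := by
        intro n Φ v hn h
        obtain ⟨a, b, v, q, _, _, _, h | h⟩ := h.ex
        · rw [h.1]
          simp only [Multiset.count_add, Multiset.count_replicate_self, Multiset.count_singleton]
          rw [if_neg (by omega), if_neg (by omega)]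
          omega
        · rw [h.1]
          simp only [Multiset.count_add, Multiset.count_replicate_self, Multiset.count_singleton]
          rw [if_neg (by omega), if_neg (by omega)]
          omega
      have key : ∀ L M : List Bool, L ++ [false, false] ≠ M ++ [true, false] := by
        intro L M h
        have := (List.append_inj' h rfl).2
        simp at this
      obtain ⟨n, Φ, hb, _, ⟨hr, h1⟩ | ⟨hr, h1⟩⟩ := hL.iw hk hp hw
      · have h5 := hcc hb.hn h1
        obtain ⟨m, hm⟩ : ∃ m, n = m + 1 := ⟨n - 1, by have := hb.hn; omega⟩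
        have hwd : wd (rd w.1) = wd (rd S) ++ [true, false] := by
          rw [e, rd_app, wd_app]
          rfl
        have hrep : ∀ m : ℕ, false :: List.replicate (m + 1) false = List.replicate m false ++ [false, false] := by
          intro m
          have : List.replicate m false ++ [false, false] = List.replicate m false ++ List.replicate 2 false := rfl
          rw [this, ← List.replicate_add]
          rfl
        obtain ⟨a, b, v, q, hF, _, _, h | h⟩ := h1.ex
        · have ha := L1.FM_oneK hb.hn (by omega) hr hF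
          have h6 := h.2.1
          rw [hwd, ha, List.map_replicate] at h6
          change _ = b.map not ++ false :: List.replicate n false at h6
          rw [hm, hrep, ← List.append_assoc] at h6
          exact key _ _ h6.symm
        · have ha := L1.FM_oneK hb.hn (by omega) hr hF
          have h6 := h.2.1
          rw [hwd, ha, List.map_replicate] at h6
          change _ = b.map not ++ true :: false :: false :: List.replicate n false at h6
          rw [hm, hrep] at h6
          have e7 : b.map not ++ true :: false :: (List.replicate m false ++ [false, false]) =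
              (b.map not ++ true :: false :: List.replicate m false) ++ [false, false] := by simp
          rw [e7] at h6
          exact key _ _ h6.symm
      · have h5 := hcc hb.hn h1
        rw [HM.cont_mir, rf_sum] at h5
        have := hr.1
        omega
    · have h1 := hC.one
      rw [hcw, Multiset.count_add, hc, Multiset.count_singleton, if_neg (by norm_num)] at h1
      omega
  · exact hI.not_first (P := .nil △ S) e

end Pool.OddHC
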