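import Pool.Agent.Work.MP_8f87b2_h32.L1E

/-!
# MP_8f87b2_co: row W-L-L1

A triple of type L over a word with one bead meets a gadget of type L1 only if the bead is at distance 1 or 2 from an end.
-/

set_option autoImplicit false

namespace Pool.OddHC

open Finset Equiv BinaryTree Pool.Agent.Work.MP_8f87b2_co

variable {k : ℕ}

namespace L1

open H1 J Ft

variable {n : ℕ} {Φ : ZMod (2 * n + 1) → ℕ}

/-- the last component of `B` is not `(())`, the first component of `S` is not `(())` -/
structure EL (R B S : BinaryTree Unit) : Prop where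
  en : EN R B S
  b : ∀ L, comps B ≠ L ++ [lf0]
  s : ∀ L, comps S ≠ lf0 :: L

theorem EL.L {R B S X : BinaryTree Unit} (h : EL R B S) (hX : Nb X) {i : ℕ} (hi : i < 20) (h5 : i ≠ 5)
    (hw : comps (H1.W R .nil B S i) = [.nil, X, .nil] ∨ comps (H1.W R .nil B S i) = comps X ++ [lf0, .nil] ∨
      comps (H1.W R .nil B S i) = [.nil, lf0] ++ comps X) :
    R = X △ .nil ∨ (B = .nil ∧ S = X △ .nil) := by
  obtain ⟨⟨hR, hS, hB⟩, hB2, hS2⟩ := h
  obtain ⟨⟨Rf, Rt, eRf, nRf⟩, ⟨Rl, Ri, eRl, nRl⟩⟩ := hR.comps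
  obtain ⟨⟨Sf, St, eSf, nSf⟩, ⟨Sl, Si, eSl, nSl⟩⟩ := hS.comps
  obtain ⟨⟨Xf, Xt, eXf, nXf⟩, ⟨Xl, Xi, eXl, nXl⟩⟩ := hX.comps
  have hRn := hR.ne
  have hSn := hS.ne
  have hXn := hX.ne
  have lR := List.length_pos_iff.2 (comps_ne hRn)
  have lS := List.length_pos_iff.2 (comps_ne hSn)
  have lX := List.length_pos_iff.2 (comps_ne hXn)
  have cn : comps (BinaryTree.nil : BinaryTree Unit) = [] := rfl
  have hBB : (B = .nil) ∨ (∃ Bf Bt Bl Bi, comps B = Bf :: Bt ∧ Bf ≠ .nil ∧ comps B = Bi ++ [Bl] ∧ Bl ≠ .nil) := by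
    rcases hB with h | h
    · exact Or.inl h
    · obtain ⟨⟨Bf, Bt, eBf, nBf⟩, ⟨Bl, Bi, eBl, nBl⟩⟩ := h.comps
      exact Or.inr ⟨Bf, Bt, Bl, Bi, eBf, nBf, eBl, nBl⟩
  have hd : ∀ {a b : BinaryTree Unit} {L L' : List (BinaryTree Unit)}, a :: L = b :: L' → a = b ∧ L = L' := by
    intro a b L L' e
    exact ⟨(List.cons.inj e).1, (List.cons.inj e).2⟩
  have nlf : lf0 ≠ .nil := by simp
  -- the word does not end with `()`: then it is the third form
  have notnil : ∀ {L : List (BinaryTree Unit)} {a : BinaryTree Unit}, a ≠ .nil →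
      (L ++ [a] = [.nil, X, .nil] ∨ L ++ [a] = comps X ++ [lf0, .nil] ∨ L ++ [a] = [.nil, lf0] ++ comps X) →
      L ++ [a] = [.nil, lf0] ++ comps X := by
    intro L a ha h
    rcases h with e | e | e
    · exact absurd (lst (L' := [.nil, X]) (e.trans rfl)).2 ha
    · have e1 : comps X ++ [lf0, .nil] = (comps X ++ [lf0]) ++ [.nil] := by simp
      rw [e1] at e
      exact absurd (lst e).2 ha
    · exact e
  -- the word does not begin with `()`: then it is the second form
  have notfst : ∀ {L : List (BinaryTree Unit)} {a : BinaryTree Unit}, a ≠ .nil →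
      (a :: L = [.nil, X, .nil] ∨ a :: L = comps X ++ [lf0, .nil] ∨ a :: L = [.nil, lf0] ++ comps X) →
      a :: L = comps X ++ [lf0, .nil] := by
    intro L a ha h
    rcases h with e | e | e
    · exact absurd (hd e).1 ha
    · exact e
    · exact absurd (hd e).1 ha
  -- neither
  have both : ∀ {L L' : List (BinaryTree Unit)} {a b : BinaryTree Unit}, a ≠ .nil → b ≠ .nil →
      a :: L' = L ++ [b] →
      (L ++ [b] = [.nil, X, .nil] ∨ L ++ [b] = comps X ++ [lf0, .nil] ∨ L ++ [b] = [.nil, lf0] ++ comps X) →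
      False := by
    intro L L' a b ha hb e h
    have h1 := notnil hb h
    rw [← e] at h1
    exact ha (hd h1).1
  -- at most two components
  have short : ∀ {L : List (BinaryTree Unit)}, L.length ≤ 2 →
      (L = [.nil, X, .nil] ∨ L = comps X ++ [lf0, .nil] ∨ L = [.nil, lf0] ++ comps X) → False := by
    intro L hL h
    rcases h with e | e | e <;>
    · have := congrArg List.length e
      simp only [List.length_append, List.length_cons, List.length_nil] at this
      omega
  interval_cases i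
  · -- 0
    exfalso
    change comps (app R (lf0 △ .nil)) = _ ∨ comps (app R (lf0 △ .nil)) = _ ∨
      comps (app R (lf0 △ .nil)) = _ at hw
    rw [comps_app, comps_node, cn] at hw
    refine both (a := Rf) (L' := Rt ++ [lf0]) nRf nlf ?_ hw
    rw [eRf]; rfl
  · -- 1
    exfalso
    change comps (app R (.nil △ lf0)) = _ ∨ comps (app R (.nil △ lf0)) = _ ∨
      comps (app R (.nil △ lf0)) = _ at hw
    rw [comps_app, comps_node] at hw
    change comps R ++ [.nil, .nil] = _ ∨ comps R ++ [.nil, .nil] = _ ∨ comps R ++ [.nil, .nil] = _ at hw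
    rw [eRf] at hw
    have h1 := notfst nRf hw
    have e1 : (Rf :: Rt ++ [.nil]) ++ [.nil] = Rf :: (Rt ++ [.nil, .nil]) := by simp
    have e2 : comps X ++ [lf0, .nil] = (comps X ++ [lf0]) ++ [.nil] := by simp
    have h2 := (lst (e1.trans (h1.trans e2))).1
    exact absurd (lst h2).2.symm nlf
  · -- 2
    change comps (.nil △ app R lf0) = _ ∨ comps (.nil △ app R lf0) = _ ∨
      comps (.nil △ app R lf0) = _ at hw
    rw [comps_node, comps_app] at hw
    rcases hw with e | e | e
    · left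
      have e1 : comps R ++ comps lf0 = [X] ++ [.nil] := (hd e).2
      have e2 := (lst (L := comps R) (L' := [X]) (a := .nil) e1).1
      exact comps_inj (by rw [e2]; rfl)
    · exfalso
      rw [eXf] at e
      exact nXf (hd e).1.symm
    · exfalso
      have e1 : BinaryTree.nil :: (comps R ++ comps lf0) = (.nil :: comps R) ++ [.nil] := rfl
      rw [e1, eXl, ← List.append_assoc] at e
      exact nXl (lst e).2.symm
  · -- 3
    exact (short (L := [app R lf0]) (by simp) hw).elim
  · -- 4
    exfalso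
    change comps (lf0 △ R) = _ ∨ comps (lf0 △ R) = _ ∨ comps (lf0 △ R) = _ at hw
    rw [comps_node, eRl, ← List.cons_append] at hw
    exact both (a := lf0) (L' := Ri ++ [Rl]) nlf nRl rfl hw
  · exact absurd rfl h5
  · exact (short (L := [R, .nil]) (by simp) hw).elim
  · exact (short (L := [.nil △ R]) (by simp) hw).elim
  · exact (short (L := [.nil, R]) (by simp) hw).elim
  · exact (short (L := [R △ .nil]) (by simp) hw).elim
  · -- 10
    exfalso
    change comps (app B (lf0 △ S)) = _ ∨ comps (app B (lf0 △ S)) = _ ∨ comps (app B (lf0 △ S)) = _ at hw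
    rw [comps_app, comps_node, eSl, ← List.cons_append, ← List.append_assoc] at hw
    rcases hBB with rfl | ⟨Bf, Bt, Bl, Bi, b1, b2, b3, b4⟩
    · exact both (a := lf0) (L' := Si ++ [Sl]) nlf nSl rfl hw
    · refine both (a := Bf) (L' := Bt ++ lf0 :: Si ++ [Sl]) b2 nSl ?_ hw
      rw [b1]; simp
  · -- 11
    exfalso
    change comps (app B (.nil △ (.nil △ S))) = _ ∨ comps (app B (.nil △ (.nil △ S))) = _ ∨
      comps (app B (.nil △ (.nil △ S))) = _ at hw
    rw [comps_app, comps_node, comps_node, eSl, ← List.cons_append, ← List.cons_append,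
      ← List.append_assoc] at hw
    rcases hBB with rfl | ⟨Bf, Bt, Bl, Bi, b1, b2, b3, b4⟩
    · have h1 := notnil nSl hw
      have h2 := (hd (hd h1).2).1
      exact nlf h2.symm
    · refine both (a := Bf) (L' := Bt ++ .nil :: .nil :: Si ++ [Sl]) b2 nSl ?_ hw
      rw [b1]; simp
  · -- 12
    exfalso
    change comps (S △ app B lf0) = _ ∨ comps (S △ app B lf0) = _ ∨ comps (S △ app B lf0) = _ at hw
    rw [comps_node, comps_app] at hw
    have h1 := notfst hSn hw
    have e1 : S :: (comps B ++ comps lf0) = (S :: comps B) ++ [.nil] := rfl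
    have e2 : comps X ++ [lf0, .nil] = (comps X ++ [lf0]) ++ [.nil] := by simp
    rw [e1, e2] at h1
    have h2 := (lst h1).1
    rcases hBB with rfl | ⟨Bf, Bt, Bl, Bi, b1, b2, b3, b4⟩
    · have := congrArg List.length h2
      simp only [List.length_append, List.length_cons, cn, List.length_nil] at this
      omega
    · rw [b3, ← List.cons_append] at h2
      have h3 := (lst h2).2
      rw [h3] at b3
      exact hB2 _ b3
  · -- 13
    exfalso
    change comps (app S (app B lf0 △ .nil)) = _ ∨ comps (app S (app B lf0 △ .nil)) = _ ∨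
      comps (app S (app B lf0 △ .nil)) = _ at hw
    rw [comps_app, comps_node, cn] at hw
    refine both (a := Sf) (L' := St ++ [app B lf0]) nSf app_ne_r ?_ hw
    rw [eSf]; rfl
  · -- 14
    exfalso
    change comps ((.nil △ S) △ B) = _ ∨ comps ((.nil △ S) △ B) = _ ∨ comps ((.nil △ S) △ B) = _ at hw
    rw [comps_node] at hw
    rcases hBB with rfl | ⟨Bf, Bt, Bl, Bi, b1, b2, b3, b4⟩
    · exact short (by simp [cn]) hw
    · rw [b3, ← List.cons_append] at hw
      exact both (a := .nil △ S) (L' := Bi ++ [Bl]) (by simp) b4 rfl hw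
  · -- 15
    exfalso
    change comps (.nil △ (S △ B)) = _ ∨ comps (.nil △ (S △ B)) = _ ∨ comps (.nil △ (S △ B)) = _ at hw
    rw [comps_node, comps_node] at hw
    have hSl : S ≠ lf0 := fun e => hS.f .nil e
    rcases hBB with rfl | ⟨Bf, Bt, Bl, Bi, b1, b2, b3, b4⟩
    · exact short (by simp [cn]) hw
    · rw [b3, ← List.cons_append, ← List.cons_append] at hw
      have h1 := notnil b4 hw
      exact hSl (hd (hd h1).2).1
  · -- 16
    exfalso
    change comps (app S (B △ lf0)) = _ ∨ comps (app S (B △ lf0)) = _ ∨ comps (app S (B △ lf0)) = _ at hw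
    rw [comps_app, comps_node, eSf] at hw
    have h1 := notfst nSf hw
    have e1 : ((Sf :: St) ++ [B]) ++ [.nil] = Sf :: (St ++ B :: comps lf0) := by
      rw [List.append_assoc]; rfl
    have e2 : comps X ++ [lf0, .nil] = (comps X ++ [lf0]) ++ [.nil] := by simp
    have h2 := (lst (lst (e1.trans (h1.trans e2))).1).2
    rcases hB with rfl | hB
    · exact nlf h2.symm
    · exact hB.f .nil h2
  · exact (short (L := [S △ B]) (by simp) hw).elim
  · -- 18
    change comps (.nil △ app S (B △ .nil)) = _ ∨ comps (.nil △ app S (B △ .nil)) = _ ∨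
      comps (.nil △ app S (B △ .nil)) = _ at hw
    rw [comps_node, comps_app, comps_node, cn] at hw
    rcases hw with e | e | e
    · right
      have e1 : comps S ++ [B] = [X] ++ [.nil] := (hd e).2
      have e2 := lst e1
      exact ⟨e2.2, comps_inj (by rw [e2.1]; rfl)⟩
    · exfalso
      rw [eXf] at e
      exact nXf (hd e).1.symm
    · exfalso
      rw [eSf] at e
      have h1 := (hd (hd e).2).1
      rw [h1] at eSf
      exact hS2 _ eSf
  · exact (short (L := [app S (B △ .nil)]) (by simp) hw).elim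

theorem not_Fl_comps {S : BinaryTree Unit} (h : ¬ Fl (rd S)) : ∀ L, comps S ≠ lf0 :: L := by
  intro L e
  apply h
  cases S with
  | nil => exact absurd e (by simp [comps])
  | node _ A B =>
    change A :: comps B = _ at e
    have h1 : A = lf0 := (List.cons.inj e).1
    refine ⟨rd B, ?_⟩
    change rd (A △ B) = _
    rw [h1, rd_node (by simp)]
    rfl

theorem B_shape (hn : 1 ≤ n) (Φ : ZMod (2 * n + 1) → ℕ) (h0 : 1 ≤ Φ (-1)) :
    ∃ P : BinaryTree Unit, (Tsq.sq (RH n Φ)).2 = app P ((.nil △ (.nil △ .nil)) △ .nil) := by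
  obtain ⟨t, ht⟩ : ∃ t, Φ (-1) = t + 1 := ⟨Φ (-1) - 1, by omega⟩
  have hB := (caseA hn Φ h0).2
  have a2 := (Wd.inf (lv t .nil)).app Wd.three
  rw [app_lv, ← ht] at a2
  exact ⟨_, hB.det (a2.cast rfl (by
    rw [zero_add, Multiset.map_singleton, lv_num', ht]
    congr 1
    omega) rfl)⟩

theorem EL_A (hn : 1 ≤ n) (Φ : ZMod (2 * n + 1) → ℕ) (h0 : 1 ≤ Φ (-1)) :
    EL (RH n Φ) (Tsq.sq (RH n Φ)).2 (Tsq.sq (RH n Φ)).1 := by
  refine ⟨EN_A hn Φ h0, ?_, ?_⟩
  · obtain ⟨P, hP⟩ := B_shape hn Φ h0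
    intro L e
    rw [hP, comps_app] at e
    exact absurd (lst (L := comps P) (a := .nil △ (.nil △ .nil)) e).2 (by simp)
  · obtain ⟨D1, Y, hD1, e1, _⟩ := S_A hn Φ h0
    apply not_Fl_comps
    rw [e1]
    exact fun h => hD1 (Fl_node h)

theorem EL_Z (hn : 1 ≤ n) (Φ : ZMod (2 * n + 1) → ℕ) (h0 : Φ (-1) = 0) :
    EL (RH n Φ) .nil (Tsq.sq (RH n Φ)).1 := by
  refine ⟨(EN_Z hn Φ h0).2, ?_, ?_⟩
  · intro L e
    have := congrArg List.length e
    simp [comps] at this
  · apply not_Fl_comps
    rw [(S_Z hn Φ h0).1]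
    intro h
    have := Fl_rr hn _ h
    simp only [zero_sub] at this
    omega

/-- a word without `()` at the ends -/
theorem Nb.of_fb {Z : BinaryTree Unit} (h0 : Z ≠ .nil) (h1 : H1.fb Z = false) (h2 : H1.lastB Z = false) :
    Nb Z := by
  refine ⟨h0, ?_, ?_⟩
  · rintro Y rfl
    exact absurd h1 (by simp [H1.fb, H1.isNil])
  · rintro Y rfl
    have : H1.lastB (app Y lf0) = true := by
      clear h0 h1 h2
      induction Y with
      | nil => rfl
      | node _ A B _ ih =>
        change H1.lastB (A △ app B lf0) = true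
        cases B with
        | nil => rfl
        | node _ C D => exact ih
    rw [this] at h2
    exact absurd h2 (by simp)

/-- the words `X` whose L triple can meet a gadget of type L1 -/
def BadL (X : BinaryTree Unit) : Prop :=
  ∃ n b : ℕ, 1 ≤ n ∧ 1 ≤ b ∧ OddHC.cont X = {n + 1} + Multiset.replicate b 2 + {1} ∧
    (ps X = [ln X - 1] ∨ ps X = [ln X - 2] ∨ ps X = [1] ∨ ps X = [2])

theorem raise_inv2 {M N : Multiset ℕ} {s : ℕ} (hs : 1 ≤ s) (hN : ∀ x ∈ N, x ≤ s + 1)
    (h : raise M = {s + 1} + N) : M = {s} + N := by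
  have h1 := congrArg Multiset.sup h
  have h2 : ({s + 1} + N : Multiset ℕ).sup = s + 1 := by
    rw [Multiset.sup_add, Multiset.sup_singleton]
    exact sup_eq_left.2 (Multiset.sup_le.2 hN)
  rw [sup_raise, h2] at h1
  have h3 : M.sup = s := by omega
  have hM : M ≠ 0 := by
    rintro rfl
    simp at h3
    omega
  have h4 := Multiset.cons_erase (sup_mem hM)
  unfold raise at h
  rw [h3, Multiset.singleton_add] at h
  have h5 := (Multiset.cons_inj_right _).1 h
  rw [← h4, h3, h5, Multiset.singleton_add]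

theorem L_any (hn : 1 ≤ n) {X : BinaryTree Unit} (hX : Nb X)
    {i : ℕ} (hi : i < 20) (h5 : i ≠ 5)
    (hw : comps (H1.W (RH n Φ) .nil (Tsq.sq (RH n Φ)).2 (Tsq.sq (RH n Φ)).1 i) = [.nil, X, .nil] ∨
      comps (H1.W (RH n Φ) .nil (Tsq.sq (RH n Φ)).2 (Tsq.sq (RH n Φ)).1 i) = comps X ++ [lf0, .nil] ∨
      comps (H1.W (RH n Φ) .nil (Tsq.sq (RH n Φ)).2 (Tsq.sq (RH n Φ)).1 i) = [.nil, lf0] ++ comps X) :
    OddHC.cont X = {n + 1} + (Multiset.replicate (∑ x, Φ x) 2 + {1}) ∧
      (ps X = [ln X - 2] ∨ ps X = [ln X - 1]) := by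
  have hRn := RH_ne hn Φ
  obtain ⟨d1, d2, d3⟩ := RH_dat hn Φ
  rcases Nat.eq_zero_or_pos (Φ (-1)) with h0 | h0
  · have hB := caseB2 hn Φ h0
    obtain ⟨s1, s2, s3⟩ := S_Z hn Φ h0
    rw [hB] at hw
    have hXp : 0 < ln X := by
      cases X with
      | nil => exact absurd rfl hX.ne
      | node _ A B =>
        have hA : A ≠ .nil := by
          rintro rfl
          exact hX.f B rfl
        have := ln_node hA B
        change 0 < ln (A △ B)
        omega
    have hpX : ps (X △ .nil) = (ps X).map (· + 1) ∧ ln (X △ .nil) = ln X + 2 := by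
      have h1 := ps_node hXp .nil
      have h2 := ln_node' hXp .nil
      have e1 : ln (.nil : BinaryTree Unit) = 0 := rfl
      constructor
      · rw [h1]; simp [ps_nil]
      · omega
    have hcX : ∀ Z : BinaryTree Unit, Z = X △ .nil → OddHC.cont Z = OddHC.cont (RH n Φ) →
        OddHC.cont X = {n + 1} + (Multiset.replicate (∑ x, Φ x) 2 + {1}) := by
      rintro Z rfl h
      rw [cont_node, cont_nil, add_zero, cRH hn] at h
      exact raise_inv2 (by omega) (fun x hx => (le_M hx).trans (by omega)) h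
    have hpm : ∀ m, (ps X).map (· + 1) = [m + 1] → ps X = [m] := by
      intro m h
      cases hp : ps X with
      | nil => rw [hp] at h; simp at h
      | cons a l =>
        rw [hp] at h
        simp at h
        rw [h.1, h.2]
    rcases (EL_Z hn Φ h0).L hX hi h5 hw with h | ⟨_, h⟩
    · refine ⟨hcX _ h rfl, Or.inl ?_⟩
      have e1 : ps (RH n Φ) = (ps X).map (· + 1) := by rw [← hpX.1, h]
      have e2 : ln (RH n Φ) = ln X + 2 := by rw [← hpX.2, h]
      have e3 : gH n Φ = (ln X - 2) + 1 := by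
        unfold gH
        rw [if_neg (by omega)]
        omega
      rw [d3, e3] at e1
      exact hpm _ e1.symm
    · have hc := sqc hRn
      rw [hB, cont_nil, add_zero] at hc
      refine ⟨hcX _ h hc, Or.inr ?_⟩
      have e1 : ps (Tsq.sq (RH n Φ)).1 = (ps X).map (· + 1) := by rw [← hpX.1, h]
      have e2 : ln (Tsq.sq (RH n Φ)).1 = ln X + 2 := by rw [← hpX.2, h]
      have e3 : 2 * (n + 1 + ∑ x, Φ x) - 2 = (ln X - 1) + 1 := by omega
      rw [s3, e3] at e1
      exact hpm _ e1.symm
  · exfalso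
    rcases (EL_A hn Φ h0).L hX hi h5 hw with h | ⟨h, _⟩
    · obtain ⟨F', h1, _⟩ := RH_A hn Φ h0
      have hRF : Ring1.RF n F' ≠ .nil := by
        intro h
        have := Ring1.RF_num hn F'
        rw [h] at this
        change 0 = _ at this
        omega
      rw [h] at h1
      have e := congrArg comps h1
      rw [comps_app] at e
      have e1 := congrArg List.length e
      have e2 := List.length_pos_iff.2 (comps_ne hRF)
      change 1 = (comps (Ring1.RF n F') ++ [.nil △ (.nil △ .nil)]).length at e1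
      rw [List.length_append, List.length_singleton] at e1
      omega
    · obtain ⟨b1, b2, b3⟩ := B_A hn Φ h0
      rw [h] at b2
      have : ln (.nil : BinaryTree Unit) = 0 := rfl
      omega

/-- the three L forms under the mirror -/
theorem mirL {X w : BinaryTree Unit}
    (h : w = app lf0 (X △ lf0) ∨ w = app X (lf0 △ lf0) ∨ w = app lf0 (lf0 △ X)) :
    comps (Tsq.mir w) = [.nil, Tsq.mir X, .nil] ∨ comps (Tsq.mir w) = comps (Tsq.mir X) ++ [lf0, .nil] ∨
      comps (Tsq.mir w) = [.nil, lf0] ++ comps (Tsq.mir X) := by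
  rcases h with e | e | e
  · left
    rw [e, Tsq.mir_app, mir_node]
    rfl
  · right; right
    rw [e, Tsq.mir_app]
    rfl
  · right; left
    have e1 : Tsq.mir w = app (app (Tsq.mir X) (lf0 △ .nil)) lf0 := by rw [e, Tsq.mir_app]; rfl
    rw [e1, comps_app, comps_app, List.append_assoc]
    rfl

theorem cmpL {X w : BinaryTree Unit}
    (h : w = app lf0 (X △ lf0) ∨ w = app X (lf0 △ lf0) ∨ w = app lf0 (lf0 △ X)) :
    comps w = [.nil, X, .nil] ∨ comps w = comps X ++ [lf0, .nil] ∨ comps w = [.nil, lf0] ++ comps X := by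
  rcases h with e | e | e
  · left; rw [e]; rfl
  · right; left; rw [e, comps_app]; rfl
  · right; right; rw [e]; rfl

end L1

open L1 J H1

/-- **W-L-L1**: a triple of type L meets a gadget of type L1 only if `BadL Z` -/
theorem TyL1.badL {F F' : Set (Cyc k)} {g g' : DG k} (hL : TyL1 F g) {Z : BinaryTree Unit}
    (hZ : Z ≠ .nil) (hf : H1.fb Z = false) (hl : H1.lastB Z = false)
    (hT : IsTri (lp 1) Z (lp 1) F' g') {w : X k} (h1 : w ∈ g.B) (h2 : w ∈ g'.B) : BadL Z := by
  have h3 : w.1 = app lf0 (Z △ lf0) ∨ w.1 = app Z (lf0 △ lf0) ∨ w.1 = app lf0 (lf0 △ Z) := by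
    rcases hT.words w h2 with h | ⟨_, h | h⟩
    · exact Or.inl h
    · exact Or.inr (Or.inl h)
    · exact Or.inr (Or.inr h)
  have hN := Nb.of_fb hZ hf hl
  rcases hL with ⟨n, Φ, w0, hb, hr, rfl, rfl⟩ | ⟨n, Φ, w0, hb, hr, rfl, rfl⟩
  · obtain ⟨i, hi, h5, rfl⟩ := mem_gadJx.1 h1
    have h4 := cmpL h3
    rw [xw_val hb.hn hb.hk w0 hi] at h4
    obtain ⟨a, b⟩ := L_any hb.hn hN hi h5 h4
    refine ⟨n, _, hb.hn, hb.one, by rw [a, add_assoc], ?_⟩
    rcases b with b | b
    · exact Or.inr (Or.inl b)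
    · exact Or.inl b
  · obtain ⟨i, hi, h5, rfl⟩ := mem_gadJM.1 h1
    have h4 := mirL h3
    have e : Tsq.mir (xm n Φ w0 i).1 = (xw n (rf Φ) w0 i).1 := Tsq.mir_mir _
    rw [e, xw_val hb.hn (by rw [rf_sum]; exact hb.hk) w0 hi] at h4
    obtain ⟨a, b⟩ := L_any hb.hn hN.mir hi h5 h4
    rw [HM.cont_mir, rf_sum] at a
    have hp : 0 < Ft.ln Z := by
      cases Z with
      | nil => exact absurd rfl hZ
      | node _ A B =>
        have hA : A ≠ .nil := by
          rintro rfl
          exact hN.f B rfl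
        have := Ft.ln_node hA B
        change 0 < Ft.ln (A △ B)
        omega
    have hm : ∀ x, Ft.ps (Tsq.mir Z) = [x] → Ft.ps Z = [Ft.ln Z - x] := by
      intro x h
      have h1 := Ft.ps_mir (Tsq.mir Z)
      rw [Tsq.mir_mir, h, Ft.ln_mir] at h1
      exact h1
    rw [Ft.ln_mir] at b
    refine ⟨n, _, hb.hn, hb.one, by rw [a, add_assoc], ?_⟩
    have h2 : 2 ≤ Ft.ln Z := by
      have := Ft.ln_eq Z
      omega
    rcases b with b | b
    · refine Or.inr (Or.inr (Or.inr ?_))
      rw [hm _ b]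
      congr 1
      omega
    · refine Or.inr (Or.inr (Or.inl ?_))
      rw [hm _ b]
      congr 1
      omega

end Pool.OddHC
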