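import Pool.Agent.Work.MP_8f87b2_h32.L1K

/-!
# MP_8f87b2_co: row W-K-L1, part 2: the data of the gadgets, the rows
-/

set_option autoImplicit false

namespace Pool.OddHC

open Finset Equiv BinaryTree Pool.Agent.Work.MP_8f87b2_co

variable {k : ℕ}

namespace L1

open H1 J Ft

variable {n : ℕ} {Φ : ZMod (2 * n + 1) → ℕ}

theorem Fl_of_comps {R : BinaryTree Unit} {L : List (BinaryTree Unit)} (h : comps R = lf0 :: L) :
    Fl (rd R) := by
  by_contra h1
  exact not_Fl_comps h1 L h

theorem Ll_of_comps {R : BinaryTree Unit} {L : List (BinaryTree Unit)} (h : comps R = L ++ [lf0]) :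
    Ll (rd R) := by
  obtain ⟨P, hP⟩ := comps_surj L
  have e : R = app P (lf0 △ .nil) := comps_inj (by rw [h, comps_app, hP]; rfl)
  refine ⟨rd P, ?_⟩
  rw [e, rd_app, rd_node (by simp)]
  rfl

theorem comps_snoc_ne {R : BinaryTree Unit} (h : R ≠ .nil) : ∃ P A, R = app P (A △ .nil) := by
  have h1 := List.dropLast_append_getLast (comps_ne h)
  obtain ⟨P, hP⟩ := comps_surj (comps R).dropLast
  exact ⟨P, (comps R).getLast (comps_ne h), comps_inj (by rw [comps_app, hP]; exact h1.symm)⟩

theorem EK_A (hn : 1 ≤ n) (Φ : ZMod (2 * n + 1) → ℕ) (h0 : 1 ≤ Φ (-1)) :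
    EK (RH n Φ) (Tsq.sq (RH n Φ)).2 (Tsq.sq (RH n Φ)).1 := by
  obtain ⟨e1, e2, e3⟩ := EL_A hn Φ h0
  refine ⟨e1, e2, e3, ?_⟩
  obtain ⟨F', h1, _⟩ := RH_A hn Φ h0
  intro L e
  rw [h1, comps_app] at e
  exact absurd (lst (a := .nil △ (.nil △ .nil)) e).2 (by simp)

theorem EK_Z (hn : 1 ≤ n) (Φ : ZMod (2 * n + 1) → ℕ) (h0 : Φ (-1) = 0) :
    EK (RH n Φ) .nil (Tsq.sq (RH n Φ)).1 := by
  obtain ⟨e1, e2, e3⟩ := EL_Z hn Φ h0
  refine ⟨e1, e2, e3, ?_⟩
  intro L e
  have h1 := Ll_of_comps e
  rw [(RH_dat hn Φ).1] at h1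
  have := Ll_rr hn Φ h1
  omega

/-- `EK` in all cases -/
theorem EK_all (hn : 1 ≤ n) (Φ : ZMod (2 * n + 1) → ℕ) :
    EK (RH n Φ) (Tsq.sq (RH n Φ)).2 (Tsq.sq (RH n Φ)).1 := by
  rcases Nat.eq_zero_or_pos (Φ (-1)) with h | h
  · rw [caseB2 hn Φ h]
    exact EK_Z hn Φ h
  · exact EK_A hn Φ h

/-! ### Contents of the hits -/

theorem c_lf0 : OddHC.cont lf0 = {1} := by
  change raise 0 + 0 = {1}
  rw [raise_zero, add_zero]

theorem r_lf0 : raise (OddHC.cont lf0) = {2} := by
  rw [c_lf0]
  rfl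

theorem cont_bead (Y : BinaryTree Unit) : OddHC.cont (.nil △ Y) = {1} + OddHC.cont Y := by
  rw [cont_node, cont_nil, raise_zero]

theorem cont_two (Y : BinaryTree Unit) : OddHC.cont (lf0 △ Y) = {2} + OddHC.cont Y := by
  rw [cont_node, r_lf0]

/-- the content of a hit -/
def CX (R X : BinaryTree Unit) : Prop :=
  OddHC.cont X = OddHC.cont R ∨ OddHC.cont X + {2} = OddHC.cont R + {1} + {1}

theorem K1.cx {R B S X : BinaryTree Unit} (h : K1 R B S X)
    (hc : OddHC.cont S + OddHC.cont B = OddHC.cont R) : CX R X := by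
  cases h with
  | r => exact Or.inl rfl
  | s h => left; rw [← hc, h, cont_nil, add_zero]
  | a S' h =>
    left
    have e : S = app S' (lf0 △ .nil) := comps_inj (by rw [h, comps_app]; rfl)
    rw [cont_app, cont_two, ← hc, e, cont_app, cont_two, cont_nil, add_zero]
    rw [add_comm (OddHC.cont B), add_comm {2}]
  | b S' h =>
    right
    have e : S = app S' (lf0 △ .nil) := comps_inj (by rw [h, comps_app]; rfl)
    rw [cont_app, cont_bead, cont_bead, ← hc, e, cont_app, cont_two, cont_nil, add_zero]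
    ext x
    simp only [Multiset.count_add]
    omega

theorem K2.cx {R B S X : BinaryTree Unit} (h : K2 R B S X)
    (hc : OddHC.cont S + OddHC.cont B = OddHC.cont R) : CX R X := by
  cases h with
  | r => exact Or.inl rfl
  | s h => left; rw [← hc, h, cont_nil, add_zero]
  | a R' h =>
    left
    have e : R = lf0 △ R' := comps_inj h
    rw [cont_app, cont_two, e, cont_two, cont_nil, add_zero, add_comm]
  | b R' h =>
    right
    have e : R = lf0 △ R' := comps_inj h
    rw [cont_app, cont_bead, cont_bead, e, cont_two, cont_nil, add_zero]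
    ext x
    simp only [Multiset.count_add]
    omega
  | c B' h =>
    left
    have e : B = lf0 △ B' := comps_inj h
    rw [cont_app, cont_two, ← hc, e, cont_two]
    ext x
    simp only [Multiset.count_add]
    omega
  | d B' h =>
    right
    have e : B = lf0 △ B' := comps_inj h
    rw [cont_app, cont_bead, cont_bead, ← hc, e, cont_two]
    ext x
    simp only [Multiset.count_add]
    omega

theorem CX.one {X : BinaryTree Unit} (hn : 1 ≤ n) (h : CX (RH n Φ) X) :
    1 ≤ (OddHC.cont X).count 1 := by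
  rcases h with h | h
  · rw [h, cont_RH hn, Multiset.count_add]
    simp
  · have h1 := congrArg (Multiset.count 1) h
    rw [cont_RH hn] at h1
    simp only [Multiset.count_add, Multiset.count_singleton_self] at h1
    have : Multiset.count 1 ({2} : Multiset ℕ) = 0 := by
      rw [Multiset.count_singleton, if_neg (by norm_num)]
    omega

theorem CX.two {X : BinaryTree Unit} (hn : 1 ≤ n) (h : CX (RH n Φ) X) :
    ∑ x, Φ x ≤ (OddHC.cont X).count 2 + 1 := by
  rcases h with h | h
  · rw [h, cont_RH hn, Multiset.count_add, Multiset.count_add, Multiset.count_replicate_self]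
    omega
  · have h1 := congrArg (Multiset.count 2) h
    rw [cont_RH hn] at h1
    simp only [Multiset.count_add, Multiset.count_replicate_self, Multiset.count_singleton_self] at h1
    omega

/-- at most one part larger than 2 -/
theorem CX.big {X : BinaryTree Unit} (hn : 1 ≤ n) (h : CX (RH n Φ) X) :
    (OddHC.cont X).countP (3 ≤ ·) ≤ 1 := by
  have h0 : (OddHC.cont (RH n Φ)).countP (3 ≤ ·) ≤ 1 := by
    rw [cRH hn, Multiset.countP_add]
    have h1 : Multiset.countP (3 ≤ ·) (Multiset.replicate (∑ x, Φ x) 2 + {1} : Multiset ℕ) = 0 := by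
      rw [Multiset.countP_eq_zero]
      intro x hx
      have := le_M hx
      omega
    have h2 := Multiset.countP_le_card (3 ≤ ·) ({n + 2} : Multiset ℕ)
    rw [Multiset.card_singleton] at h2
    omega
  rcases h with h | h
  · rw [h]; exact h0
  · have h1 := congrArg (Multiset.countP (3 ≤ ·)) h
    rw [Multiset.countP_add, Multiset.countP_add, Multiset.countP_add] at h1
    have h2 : Multiset.countP (3 ≤ ·) ({1} : Multiset ℕ) = 0 := by
      rw [Multiset.countP_eq_zero]
      intro x hx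
      rw [Multiset.mem_singleton] at hx
      omega
    omega

/-! ### The row K -/

/-- the three forms of `K` -/
theorem cmpK {X w : BinaryTree Unit}
    (h : w = w1 .nil X lf0 ∨ w = w1 X lf0 .nil ∨ w = w1 lf0 .nil X) :
    comps w = [X, .nil] ∨ comps w = comps X ++ [lf0] ∨ comps w = [.nil, .nil] ++ comps X := by
  rcases h with e | e | e
  · left; rw [e]; rfl
  · right; left
    rw [e]
    change comps (app X (lf0 △ .nil)) = _
    rw [comps_app]; rfl
  · right; right; rw [e]; rfl

/-- the three forms of `K'` -/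
theorem cmpKm {X w : BinaryTree Unit}
    (h : w = w1 lf0 X .nil ∨ w = w1 X .nil lf0 ∨ w = w1 .nil lf0 X) :
    comps w = [.nil, X] ∨ comps w = comps X ++ [.nil, .nil] ∨ comps w = lf0 :: comps X := by
  rcases h with e | e | e
  · left; rw [e]; rfl
  · right; left
    rw [e]
    change comps (app X (.nil △ lf0)) = _
    rw [comps_app]; rfl
  · right; right; rw [e]; rfl

theorem mirK {X w : BinaryTree Unit}
    (h : w = w1 .nil X lf0 ∨ w = w1 X lf0 .nil ∨ w = w1 lf0 .nil X) :
    Tsq.mir w = w1 lf0 (Tsq.mir X) .nil ∨ Tsq.mir w = w1 (Tsq.mir X) .nil lf0 ∨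
      Tsq.mir w = w1 .nil lf0 (Tsq.mir X) := by
  rcases h with e | e | e
  · left
    rw [e]
    change Tsq.mir (X △ lf0) = app lf0 (Tsq.mir X △ .nil)
    rw [mir_node]; rfl
  · right; right
    rw [e]
    change Tsq.mir (app X (lf0 △ .nil)) = lf0 △ Tsq.mir X
    rw [Tsq.mir_app]; rfl
  · right; left
    rw [e]
    change Tsq.mir (.nil △ (.nil △ X)) = app (Tsq.mir X) (.nil △ lf0)
    rw [mir_node, mir_node, app_assoc]
    rfl

theorem mirKm {X w : BinaryTree Unit}
    (h : w = w1 lf0 X .nil ∨ w = w1 X .nil lf0 ∨ w = w1 .nil lf0 X) :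
    Tsq.mir w = w1 .nil (Tsq.mir X) lf0 ∨ Tsq.mir w = w1 (Tsq.mir X) lf0 .nil ∨
      Tsq.mir w = w1 lf0 .nil (Tsq.mir X) := by
  rcases h with e | e | e
  · left
    rw [e]
    change Tsq.mir (.nil △ (X △ .nil)) = Tsq.mir X △ lf0
    rw [mir_node]; rfl
  · right; right
    rw [e]
    change Tsq.mir (app X (.nil △ lf0)) = _
    rw [Tsq.mir_app]; rfl
  · right; left
    rw [e]
    change Tsq.mir (lf0 △ X) = _
    rw [mir_node]; rfl

theorem sqcA (hn : 1 ≤ n) (Φ : ZMod (2 * n + 1) → ℕ) :
    OddHC.cont (Tsq.sq (RH n Φ)).1 + OddHC.cont (Tsq.sq (RH n Φ)).2 = OddHC.cont (RH n Φ) := sqc (RH_ne hn Φ)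

end L1

open L1 J H1

/-- **W-K-L1**: `K`, host `(S)()` -/
theorem TyL1.disj_K {F F' : Set (Cyc k)} {g g' : DG k} (hL : TyL1 F g) {S : BinaryTree Unit}
    (hS : S ≠ .nil) (hf : H1.fb S = false)
    (hc : (OddHC.cont S).count 2 = 0 ∨ (OddHC.cont S).count 1 = 0)
    (hT : IsTri .nil S (.nil △ .nil) F' g') {w : X k} (h1 : w ∈ g.B) (h2 : w ∈ g'.B) : False := by
  have h3 : w.1 = w1 .nil S lf0 ∨ w.1 = w1 S lf0 .nil ∨ w.1 = w1 lf0 .nil S := by
    rcases hT.words w h2 with h | ⟨_, h | h⟩
    · exact Or.inl h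
    · exact Or.inr (Or.inl h)
    · exact Or.inr (Or.inr h)
  rcases hL with ⟨n, Φ, w0, hb, hr, rfl, rfl⟩ | ⟨n, Φ, w0, hb, hr, rfl, rfl⟩
  · obtain ⟨i, hi, h5, rfl⟩ := mem_gadJx.1 h1
    have h4 := cmpK h3
    rw [xw_val hb.hn hb.hk w0 hi] at h4
    have hk := (EK_all hb.hn Φ).k1 hS hi h5 h4
    have hcx := hk.cx (sqcA hb.hn Φ)
    rcases hc with hc | hc
    · have hbr : OddHC.cont S ≠ OddHC.cont (RH n Φ) := by
        intro h
        have h6 := hb.one
        rw [h, cont_RH hb.hn, Multiset.count_add, Multiset.count_add, Multiset.count_replicate_self] at hc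
        omega
      have hsum := hcx.two hb.hn
      cases hk with
      | r => exact hbr rfl
      | s h =>
        apply hbr
        have := sqcA hb.hn Φ
        rw [h, cont_nil, add_zero] at this
        exact this
      | a S' h =>
        have hcx' := (K1.a (R := RH n Φ) (B := (Tsq.sq (RH n Φ)).2) S' h).cx (sqcA hb.hn Φ)
        rw [cont_app, L1.cont_two, Multiset.count_add, Multiset.count_add, Multiset.count_singleton_self] at hc
        omega
      | b S' h =>
        rcases Nat.eq_zero_or_pos (Φ (-1)) with h0 | h0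
        · rw [caseB2 hb.hn Φ h0] at hf
          exact absurd hf (by simp [app, H1.fb, H1.isNil])
        · obtain ⟨P, hP⟩ := B_shape hb.hn Φ h0
          rw [cont_app, hP, cont_app, cont_node, Multiset.count_add, Multiset.count_add, Multiset.count_add] at hc
          have h7 : 1 ≤ (raise (OddHC.cont ((.nil : BinaryTree Unit) △ (.nil △ .nil)))).count 2 := by
            rw [cont_bead, c_lf0]
            decide
          omega
    · have := hcx.one hb.hn
      omega
  · obtain ⟨i, hi, h5, rfl⟩ := mem_gadJM.1 h1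
    have h4 := cmpKm (mirK h3)
    have e : Tsq.mir (xm n Φ w0 i).1 = (xw n (rf Φ) w0 i).1 := Tsq.mir_mir _
    rw [e, xw_val hb.hn (by rw [rf_sum]; exact hb.hk) w0 hi] at h4
    have hk := (EK_all hb.hn (rf Φ)).k2 (Ft.mir_ne hS) hi h5 h4
    have hcx := hk.cx (sqcA hb.hn (rf Φ))
    have h6 := hcx.one hb.hn
    have h7 := hcx.two hb.hn
    rw [rf_sum] at h7
    rw [HM.cont_mir] at h6 h7
    have h8 := hr.1
    omega

end Pool.OddHC
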