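import Pool.Agent.Work.MP_8f87b2_h32.L1K2

/-!
# MP_8f87b2_co: row W-K-L1, part 3: `K'` (host `()(U)`, new `U()()`, `(())U`), shapes `KmOK U`
-/

set_option autoImplicit false

namespace Pool.OddHC

open Finset Equiv BinaryTree Pool.Agent.Work.MP_8f87b2_co

variable {k : ℕ}

namespace L1

open H1 J Ft

variable {n : ℕ} {Φ : ZMod (2 * n + 1) → ℕ}

/-! ### Bead gaps inside of a component -/

theorem ln_of_ht {A : BinaryTree Unit} (h : 2 ≤ Tsq.ht A) : 0 < ln A := by
  have h1 := ht_rd_ge A
  have h2 := ln_ge_ht A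
  omega

theorem ht_lf0 : Tsq.ht lf0 = 1 := rfl

/-- the gap of a bead inside of a component -/
theorem ps_in (P C Q : BinaryTree Unit) (hC : 0 < ln C) {x : ℕ} (hx : x ∈ ps C) :
    ln P + 1 + x ∈ ps (app P (C △ Q)) := by
  rw [ps_app, ps_node hC, List.mem_append]
  right
  rw [List.mem_map]
  refine ⟨x + 1, ?_, by omega⟩
  rw [List.mem_append]
  left
  rw [List.mem_map]
  exact ⟨x, hx, rfl⟩

/-- a component `(A())` -/
theorem ps_end {A : BinaryTree Unit} (P Q : BinaryTree Unit) (h : 2 ≤ Tsq.ht A) :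
    ln P + 1 + ln A ∈ ps (app P (app A lf0 △ Q)) := by
  have h1 : ln (app A lf0) = ln A := by
    rw [ln_app]; rfl
  have h2 : ln A ∈ ps (app A lf0) := by
    rw [ps_app, List.mem_append]
    right
    have e1 : ps lf0 = [0] := rfl
    rw [e1]
    simp
  exact ps_in P (app A lf0) Q (by rw [h1]; exact ln_of_ht h) h2

/-- a component `(()A)` -/
theorem ps_beg {A : BinaryTree Unit} (P Q : BinaryTree Unit) (h : 2 ≤ Tsq.ht A) :
    ln P + 1 ∈ ps (app P ((.nil △ A) △ Q)) := by
  have h2 : 0 ∈ ps (.nil △ A) := by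
    rw [ps_leaf]; simp
  exact ps_in P (.nil △ A) Q (by rw [ln_leaf]; exact ln_of_ht h) h2

theorem tree_of {R : BinaryTree Unit} {L L' : List (BinaryTree Unit)} {A : BinaryTree Unit}
    (h : comps R = L ++ A :: L') : ∃ P Q, comps P = L ∧ comps Q = L' ∧ R = app P (A △ Q) := by
  obtain ⟨P, hP⟩ := comps_surj L
  obtain ⟨Q, hQ⟩ := comps_surj L'
  exact ⟨P, Q, hP, hQ, comps_inj (by rw [h, comps_app, comps_node, hP, hQ])⟩

/-- the gaps of `S` are even -/
theorem psS_even (hn : 1 ≤ n) (Φ : ZMod (2 * n + 1) → ℕ) {x : ℕ} (hx : x ∈ ps (Tsq.sq (RH n Φ)).1) :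
    x % 2 = 0 ∧ x + 2 = ln (Tsq.sq (RH n Φ)).1 := by
  rcases Nat.eq_zero_or_pos (Φ (-1)) with h | h
  · obtain ⟨_, s2, s3⟩ := S_Z hn Φ h
    rw [s3, List.mem_singleton] at hx
    omega
  · obtain ⟨D1, Y, _, _, e2⟩ := S_A hn Φ h
    rw [e2, ps_inf] at hx
    exact absurd hx (by simp)

/-- no component of `S` is `(A())` or `(()A)`, at the end resp. at the beginning -/
theorem S_end (hn : 1 ≤ n) (Φ : ZMod (2 * n + 1) → ℕ) {A : BinaryTree Unit} (h : 2 ≤ Tsq.ht A)
    {L : List (BinaryTree Unit)} : comps (Tsq.sq (RH n Φ)).1 ≠ L ++ [app A lf0] := by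
  intro e
  obtain ⟨P, Q, _, hQ, e1⟩ := tree_of e
  have hQ' : Q = .nil := comps_inj (by rw [hQ]; rfl)
  have h1 := ps_end P Q h
  rw [← e1] at h1
  have h2 := psS_even hn Φ h1
  rw [e1, hQ', ln_app] at h2
  have h3 : ln (app A lf0 △ .nil) = ln A + 2 := by
    have h4 : ln (app A lf0) = ln A := by rw [ln_app]; rfl
    have h5 := ln_node' (A := app A lf0) (by rw [h4]; exact ln_of_ht h) .nil
    have h6 : ln (.nil : BinaryTree Unit) = 0 := rfl
    omega
  omega

theorem S_beg (hn : 1 ≤ n) (Φ : ZMod (2 * n + 1) → ℕ) {A : BinaryTree Unit} (h : 2 ≤ Tsq.ht A)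
    {L L' : List (BinaryTree Unit)} : comps (Tsq.sq (RH n Φ)).1 ≠ L ++ (.nil △ A) :: L' := by
  intro e
  obtain ⟨P, Q, _, hQ, e1⟩ := tree_of e
  have h1 := ps_beg P Q h
  rw [← e1] at h1
  have h2 := psS_even hn Φ h1
  have h3 := ln_eq P
  omega

/-- the last component of `R` is not `(A())` -/
theorem R_end (hn : 1 ≤ n) (Φ : ZMod (2 * n + 1) → ℕ) {A : BinaryTree Unit} (h : 2 ≤ Tsq.ht A)
    {L : List (BinaryTree Unit)} : comps (RH n Φ) ≠ L ++ [app A lf0] := by
  intro e
  rcases Nat.eq_zero_or_pos (Φ (-1)) with h0 | h0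
  · obtain ⟨P, Q, _, hQ, e1⟩ := tree_of e
    have hQ' : Q = .nil := comps_inj (by rw [hQ]; rfl)
    have h1 := ps_end P Q h
    rw [← e1] at h1
    obtain ⟨_, d2, d3⟩ := RH_dat hn Φ
    rw [d3, List.mem_singleton] at h1
    have h2 : ln (RH n Φ) = ln P + (ln A + 2) := by
      rw [e1, hQ', ln_app]
      have h4 : ln (app A lf0) = ln A := by rw [ln_app]; rfl
      have h5 := ln_node' (A := app A lf0) (by rw [h4]; exact ln_of_ht h) .nil
      have h6 : ln (.nil : BinaryTree Unit) = 0 := rfl
      omega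
    have h3 : gH n Φ = 2 * (n + ∑ x, Φ x) - 1 := by
      unfold gH
      rw [if_neg (by omega)]
    omega
  · obtain ⟨F', h1, _⟩ := RH_A hn Φ h0
    rw [h1, comps_app] at e
    have h2 := (lst (L := comps (Ring1.RF n F')) (a := .nil △ (.nil △ .nil)) e).2
    have h3 := congrArg comps h2
    rw [comps_app] at h3
    have h4 : comps A ++ [.nil] = [.nil] ++ [.nil] := h3.symm
    have h5 : A = lf0 := comps_inj (lst h4).1
    rw [h5] at h
    exact absurd h (by decide)

/-- the first component of `R` is not `(()A)` -/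
theorem R_beg (hn : 1 ≤ n) (two : 2 ≤ ∑ x, Φ x) {A : BinaryTree Unit} (h : 2 ≤ Tsq.ht A)
    {L : List (BinaryTree Unit)} : comps (RH n Φ) ≠ (.nil △ A) :: L := by
  intro e
  obtain ⟨P, Q, hP, hQ, e1⟩ := tree_of (L := []) e
  have hP' : P = .nil := comps_inj (by rw [hP]; rfl)
  have h1 := ps_beg P Q h
  rw [← e1] at h1
  obtain ⟨_, d2, d3⟩ := RH_dat hn Φ
  rw [d3, List.mem_singleton, hP'] at h1
  have h0 : ln (.nil : BinaryTree Unit) = 0 := rfl
  unfold gH at h1
  split_ifs at h1 <;> omega

theorem comps_lv2 (m : ℕ) : comps (lv2 m .nil) = List.replicate m lf0 := by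
  induction m with
  | zero => rfl
  | succ m ih =>
    change lf0 :: comps (lv2 m .nil) = _
    rw [ih]
    rfl

/-- the first component of `B` is `(())` or `(()())` -/
theorem B_beg (hn : 1 ≤ n) (Φ : ZMod (2 * n + 1) → ℕ) (h0 : 1 ≤ Φ (-1)) :
    ∃ t : ℕ, comps (Tsq.sq (RH n Φ)).2 = List.replicate t lf0 ++ [.nil △ lf0] := by
  obtain ⟨t, ht⟩ : ∃ t, Φ (-1) = t + 1 := ⟨Φ (-1) - 1, by omega⟩
  have hB := (caseA hn Φ h0).2
  have a2 := (Wd.inf (lv t .nil)).app Wd.three
  rw [app_lv, ← ht] at a2
  have e := hB.det (a2.cast rfl (by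
    rw [zero_add, Multiset.map_singleton, lv_num', ht]
    congr 1
    omega) rfl)
  refine ⟨t, ?_⟩
  rw [e, comps_app, Ring1.inf_lp, comps_lv2]
  rfl

/-! ### The shapes -/

/-- the words `U` of the links `K'` -/
inductive KmOK (U : BinaryTree Unit) : Prop
  | a (V A : BinaryTree Unit) (m : ℕ) : 2 ≤ Tsq.ht A → U = app V (app A lf0 △ lp m) → KmOK U
  | b (A : BinaryTree Unit) (a : ℕ) : 2 ≤ Tsq.ht A → (OddHC.cont A).count 1 = 0 → 2 ≤ a →
      U = app A lf0 △ lv2 a .nil → KmOK U
  | c (A : BinaryTree Unit) : A ≠ .nil → U = A △ lf0 → KmOK U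
  | d : 2 ≤ (OddHC.cont U).countP (3 ≤ ·) → KmOK U
  | e : (OddHC.cont U).count 1 = 0 → KmOK U

theorem comps_lp (m : ℕ) : comps (lp m) = List.replicate m .nil := by
  induction m with
  | zero => rfl
  | succ m ih =>
    change .nil :: comps (lp m) = _
    rw [ih]
    rfl

/-- strip the beads at the end -/
theorem strip {L L' : List (BinaryTree Unit)} {a A : BinaryTree Unit} {m : ℕ} (ha : a ≠ .nil)
    (h : L ++ [a] = L' ++ A :: List.replicate m .nil) : m = 0 ∧ L = L' ∧ a = A := by
  cases m with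
  | zero =>
    have h1 := lst (L' := L') (b := A) h
    exact ⟨rfl, h1.1, h1.2⟩
  | succ m =>
    exfalso
    have e : L' ++ A :: List.replicate (m + 1) .nil = (L' ++ A :: List.replicate m .nil) ++ [.nil] := by
      rw [List.replicate_succ', List.append_assoc]
      rfl
    rw [e] at h
    exact ha (lst h).2

/-- strip two beads at the end -/
theorem strip2 {L L' : List (BinaryTree Unit)} {a A : BinaryTree Unit} {m : ℕ} (ha : a ≠ .nil) (hA : A ≠ .nil)
    (h : (L ++ [a]) ++ [.nil, .nil] = L' ++ A :: List.replicate m .nil) : m = 2 ∧ L = L' ∧ a = A := by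
  have e0 : (L ++ [a]) ++ [BinaryTree.nil, .nil] = ((L ++ [a]) ++ [.nil]) ++ [.nil] := by simp
  rw [e0] at h
  have e : ∀ m : ℕ, L' ++ A :: List.replicate (m + 1) .nil = (L' ++ A :: List.replicate m .nil) ++ [.nil] := by
    intro m
    rw [List.replicate_succ', List.append_assoc]
    rfl
  cases m with
  | zero => exact absurd (lst (L' := L') (b := A) h).2.symm hA
  | succ m =>
    rw [e] at h
    have h1 := (lst h).1
    cases m with
    | zero => exact absurd (lst (L' := L') (b := A) h1).2.symm hA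
    | succ m =>
      rw [e] at h1
      have h2 := strip ha (lst h1).1
      exact ⟨by omega, h2.2⟩

/-- right -/
theorem km_right (hn : 1 ≤ n) (Φ : ZMod (2 * n + 1) → ℕ) {U : BinaryTree Unit} (hU : KmOK U)
    (hk : K2 (RH n Φ) (Tsq.sq (RH n Φ)).2 (Tsq.sq (RH n Φ)).1 U) : False := by
  have hcx := hk.cx (sqcA hn Φ)
  have hE := EK_all hn Φ
  obtain ⟨⟨hR, hS, hB⟩, hB2, hS2, hR2⟩ := hE
  obtain ⟨⟨Rf, Rt, eRf, nRf⟩, ⟨Rl, Ri, eRl, nRl⟩⟩ := hR.comps
  obtain ⟨⟨Sf, St, eSf, nSf⟩, ⟨Sl, Si, eSl, nSl⟩⟩ := hS.comps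
  have nlf : lf0 ≠ .nil := by simp
  have hd : ∀ {a b : BinaryTree Unit} {L L' : List (BinaryTree Unit)}, a :: L = b :: L' → a = b ∧ L = L' := by
    intro a b L L' e
    exact ⟨(List.cons.inj e).1, (List.cons.inj e).2⟩
  cases hU with
  | a V A m hA hUe =>
    have hAn : app A lf0 ≠ lf0 := by
      intro h
      have h1 := congrArg comps h
      rw [comps_app] at h1
      have h2 : A = .nil := comps_inj (lst (L := comps A) (L' := []) (a := .nil) (b := .nil) h1).1
      rw [h2] at hA
      exact absurd hA (by decide)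
    have hAn' : app A lf0 ≠ .nil := app_ne_r
    have hc : comps U = comps V ++ app A lf0 :: List.replicate m .nil := by
      rw [hUe, comps_app, comps_node, comps_lp]
    cases hk with
    | r =>
      rw [eRl] at hc
      obtain ⟨_, _, h3⟩ := strip nRl hc
      rw [h3] at eRl
      exact R_end hn Φ hA eRl
    | s h =>
      rw [eSl] at hc
      obtain ⟨_, _, h3⟩ := strip nSl hc
      rw [h3] at eSl
      exact S_end hn Φ hA eSl
    | a R' h =>
      rw [comps_app] at hc
      obtain ⟨_, _, h3⟩ := strip (L := comps R') (a := lf0) nlf hc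
      exact hAn h3.symm
    | b R' h =>
      rw [comps_app] at hc
      have hR' : comps R' ≠ [] := by
        intro h0
        rw [h0] at h
        exact hR2 [] h
      obtain ⟨L, a, hLa⟩ : ∃ L a, comps R' = L ++ [a] :=
        ⟨_, _, (List.dropLast_append_getLast hR').symm⟩
      have ha : a = Rl := by
        rw [hLa, eRl, ← List.cons_append] at h
        exact (lst h).2.symm
      rw [hLa] at hc
      obtain ⟨_, _, h3⟩ := strip2 (by rw [ha]; exact nRl) hAn' hc
      rw [← ha, h3] at eRl
      exact R_end hn Φ hA eRl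
    | c B' h =>
      rw [comps_app, comps_node, eSl, ← List.cons_append, ← List.append_assoc] at hc
      obtain ⟨_, _, h3⟩ := strip nSl hc
      rw [h3] at eSl
      exact S_end hn Φ hA eSl
    | d B' h =>
      rw [comps_app, comps_node, comps_node, eSl, ← List.cons_append, ← List.cons_append,
        ← List.append_assoc] at hc
      obtain ⟨_, _, h3⟩ := strip nSl hc
      rw [h3] at eSl
      exact S_end hn Φ hA eSl
  | b A a hA hA1 ha hUe =>
    obtain ⟨a, rfl⟩ : ∃ a', a = a' + 2 := ⟨a - 2, by omega⟩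
    have hAn : app A lf0 ≠ lf0 := by
      intro h
      have h1 := congrArg comps h
      rw [comps_app] at h1
      have h2 : A = .nil := comps_inj (lst (L := comps A) (L' := []) (a := .nil) (b := .nil) h1).1
      rw [h2] at hA
      exact absurd hA (by decide)
    have hAn2 : app A lf0 ≠ .nil △ lf0 := by
      intro h
      have h1 := congrArg comps h
      rw [comps_app] at h1
      have h2 : A = lf0 := comps_inj (lst (L := comps A) (L' := [.nil]) (a := .nil) (b := .nil) h1).1
      rw [h2] at hA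
      exact absurd hA (by decide)
    have hc : comps U = app A lf0 :: List.replicate (a + 2) lf0 := by
      rw [hUe, comps_node, comps_lv2]
    have hc2 : comps U = (app A lf0 :: List.replicate (a + 1) lf0) ++ [lf0] := by
      rw [hc, List.replicate_succ']
      rfl
    have hB' : ∀ B' : BinaryTree Unit, comps (Tsq.sq (RH n Φ)).2 = lf0 :: comps B' →
        ∀ L : List (BinaryTree Unit), comps U ≠ comps B' ++ L := by
      intro B' h L e
      rcases Nat.eq_zero_or_pos (Φ (-1)) with h0 | h0
      · rw [caseB2 hn Φ h0] at h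
        exact absurd h (by simp [comps])
      · obtain ⟨t, ht⟩ := B_beg hn Φ h0
        rw [ht] at h
        cases t with
        | zero => exact absurd (hd h).1 (by simp)
        | succ t =>
          have h1 : comps B' = List.replicate t lf0 ++ [.nil △ lf0] := (hd h).2.symm
          rw [h1, hc] at e
          cases t with
          | zero => exact hAn2 (hd e).1
          | succ t => exact hAn (hd e).1
    cases hk with
    | r => exact hR2 _ hc2
    | s h =>
      have e1 : (Tsq.sq (RH n Φ)).1 = app .nil (app A lf0 △ lv2 (a + 2) .nil) := hUe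
      have h1 := ps_end .nil (lv2 (a + 2) .nil) hA
      rw [← e1] at h1
      have h2 := psS_even hn Φ h1
      have h3 := ln_eq A
      have h4 : ln (.nil : BinaryTree Unit) = 0 := rfl
      omega
    | a R' h =>
      rw [comps_app] at hc2
      have h1 := (lst (L := comps R') (a := lf0) hc2).1
      rw [List.replicate_succ', ← List.cons_append] at h1
      rw [h1, ← List.cons_append] at h
      exact hR2 _ h
    | b R' h =>
      rw [comps_app] at hc2
      have e1 : comps R' ++ comps (.nil △ (.nil △ .nil)) = (comps R' ++ [.nil]) ++ [.nil] := by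
        change comps R' ++ [.nil, .nil] = _
        simp
      rw [e1] at hc2
      exact nlf (lst hc2).2.symm
    | c B' h => exact hB' B' h _ (comps_app _ _)
    | d B' h => exact hB' B' h _ (comps_app _ _)
  | c A hA hUe =>
    have hc : comps U = [A] ++ [.nil] := by rw [hUe]; rfl
    cases hk with
    | r =>
      rw [eRl] at hc
      exact nRl (lst hc).2
    | s h =>
      rw [eSl] at hc
      exact nSl (lst hc).2
    | a R' h =>
      rw [comps_app] at hc
      exact nlf (lst (L := comps R') (a := lf0) hc).2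
    | b R' h =>
      rw [comps_app] at hc
      have e1 : comps R' ++ comps (.nil △ (.nil △ .nil)) = (comps R' ++ [.nil]) ++ [.nil] := by
        change comps R' ++ [.nil, .nil] = _
        simp
      rw [e1] at hc
      exact hA (lst (L := comps R') (L' := []) (lst hc).1).2.symm
    | c B' h =>
      rw [comps_app, comps_node, eSl, ← List.cons_append, ← List.append_assoc] at hc
      exact nSl (lst hc).2
    | d B' h =>
      rw [comps_app, comps_node, comps_node, eSl, ← List.cons_append, ← List.cons_append,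
        ← List.append_assoc] at hc
      exact nSl (lst hc).2
  | d h =>
    have := hcx.big hn
    omega
  | e h =>
    have := hcx.one hn
    omega

/-- strip the beads at the beginning -/
theorem stripF {L L' : List (BinaryTree Unit)} {a A : BinaryTree Unit} {m : ℕ} (ha : a ≠ .nil)
    (h : a :: L = List.replicate m .nil ++ A :: L') : m = 0 ∧ L = L' ∧ a = A := by
  cases m with
  | zero =>
    have h1 := List.cons.inj h
    exact ⟨rfl, h1.2, h1.1⟩
  | succ m => exact absurd (List.cons.inj h).1 ha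

theorem stripF2 {L L' : List (BinaryTree Unit)} {a A : BinaryTree Unit} {m : ℕ} (ha : a ≠ .nil) (hA : A ≠ .nil)
    (h : .nil :: .nil :: a :: L = List.replicate m .nil ++ A :: L') : m = 2 ∧ L = L' ∧ a = A := by
  cases m with
  | zero => exact absurd (List.cons.inj h).1.symm hA
  | succ m =>
    have h1 := (List.cons.inj h).2
    cases m with
    | zero => exact absurd (List.cons.inj h1).1.symm hA
    | succ m =>
      have h2 := stripF ha (List.cons.inj h1).2
      exact ⟨by omega, h2.2⟩

/-- mirrored; `Um` is the mirror of `U` -/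
theorem km_mir (hn : 1 ≤ n) (Φ : ZMod (2 * n + 1) → ℕ) (two : 2 ≤ ∑ x, Φ x) (h00 : Φ 0 = 0)
    {U Um : BinaryTree Unit} (hU : KmOK U) (hUm : Um = Tsq.mir U)
    (hk : K1 (RH n Φ) (Tsq.sq (RH n Φ)).2 (Tsq.sq (RH n Φ)).1 Um) : False := by
  have hcx := hk.cx (sqcA hn Φ)
  have hE := EK_all hn Φ
  obtain ⟨⟨hR, hS, hB⟩, hB2, hS2, hR2⟩ := hE
  obtain ⟨⟨Rf, Rt, eRf, nRf⟩, ⟨Rl, Ri, eRl, nRl⟩⟩ := hR.comps
  obtain ⟨⟨Sf, St, eSf, nSf⟩, ⟨Sl, Si, eSl, nSl⟩⟩ := hS.comps
  have nlf : lf0 ≠ .nil := by simp
  have hRf : ∀ L, comps (RH n Φ) ≠ lf0 :: L := by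
    intro L e
    have h1 := Fl_of_comps e
    rw [(RH_dat hn Φ).1] at h1
    have := Fl_rr hn Φ h1
    omega
  have hcm : OddHC.cont Um = OddHC.cont U := by rw [hUm]; exact HM.cont_mir U
  have hd : ∀ {a b : BinaryTree Unit} {L L' : List (BinaryTree Unit)}, a :: L = b :: L' → a = b ∧ L = L' := by
    intro a b L L' e
    exact ⟨(List.cons.inj e).1, (List.cons.inj e).2⟩
  -- the first component of `B`
  have hBf : (Tsq.sq (RH n Φ)).2 = .nil ∨ ∃ b L, comps (Tsq.sq (RH n Φ)).2 = b :: L ∧ (b = lf0 ∨ b = .nil △ lf0) := by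
    rcases Nat.eq_zero_or_pos (Φ (-1)) with h0 | h0
    · exact Or.inl (caseB2 hn Φ h0)
    · obtain ⟨t, ht⟩ := B_beg hn Φ h0
      right
      cases t with
      | zero => exact ⟨_, _, ht, Or.inr rfl⟩
      | succ t => exact ⟨_, _, ht, Or.inl rfl⟩
  cases hU with
  | a V A m hA hUe =>
    have hA' : 2 ≤ Tsq.ht (Tsq.mir A) := by
      rw [H1.ht_eq, ht_eq, HM.cont_mir, ← ht_eq, ← H1.ht_eq]; exact hA
    have hA0 : (.nil : BinaryTree Unit) △ Tsq.mir A ≠ lf0 := by
      intro h
      have h1 : Tsq.mir A = .nil := by injection h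
      rw [h1] at hA'
      exact absurd hA' (by decide)
    have hA1 : (.nil : BinaryTree Unit) △ Tsq.mir A ≠ .nil △ lf0 := by
      intro h
      have h1 : Tsq.mir A = lf0 := by injection h
      rw [h1] at hA'
      exact absurd hA' (by decide)
    have hAn : (.nil : BinaryTree Unit) △ Tsq.mir A ≠ .nil := by simp
    have hc : ∃ L, comps Um = List.replicate m .nil ++ (.nil △ Tsq.mir A) :: L := by
      refine ⟨comps (Tsq.mir V), ?_⟩
      have e1 : Tsq.mir (app A lf0) = .nil △ Tsq.mir A := by rw [Tsq.mir_app]; rfl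
      have e2 : ∀ m : ℕ, comps (Tsq.mir (lp m)) = List.replicate m .nil := by
        intro m
        induction m with
        | zero => rfl
        | succ m ih =>
          change comps (Tsq.mir (.nil △ lp m)) = _
          rw [mir_node, comps_app, ih, List.replicate_succ']
          rfl
      rw [hUm, hUe, Tsq.mir_app, mir_node, e1, comps_app, comps_app, e2, List.append_assoc]
      rfl
    obtain ⟨L, hc⟩ := hc
    cases hk with
    | r =>
      rw [eRf] at hc
      obtain ⟨_, _, h3⟩ := stripF nRf hc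
      rw [h3] at eRf
      exact R_beg hn two hA' eRf
    | s h =>
      rw [eSf] at hc
      obtain ⟨_, _, h3⟩ := stripF nSf hc
      rw [h3] at eSf
      exact S_beg hn Φ hA' (L := []) eSf
    | a S' h =>
      rw [comps_app] at hc
      rcases hBf with hB0 | ⟨b, L1, hb, hb'⟩
      · rw [hB0] at hc
        exact hA0 (stripF (L := comps S') nlf hc).2.2.symm
      · rw [hb] at hc
        have hbn : b ≠ .nil := by rcases hb' with rfl | rfl <;> simp
        have h3 := (stripF (a := b) (L := L1 ++ comps (lf0 △ S')) hbn hc).2.2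
        rcases hb' with rfl | rfl
        · exact hA0 h3.symm
        · exact hA1 h3.symm
    | b S' h =>
      rw [comps_app] at hc
      rcases hBf with hB0 | ⟨b, L1, hb, hb'⟩
      · rw [hB0] at hc
        change .nil :: .nil :: comps S' = _ at hc
        have hS' : comps S' ≠ [] := by
          intro h0
          rw [h0] at h
          exact hS2 [] h
        obtain ⟨a, L2, hL2⟩ : ∃ a L2, comps S' = a :: L2 := by
          cases h9 : comps S' with
          | nil => exact absurd h9 hS'
          | cons a L2 => exact ⟨a, L2, rfl⟩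
        rw [hL2] at hc h
        have ha : a ≠ .nil := by
          rintro rfl
          rw [eSf] at h
          exact nSf (hd h).1
        have h3 := (stripF2 ha hAn hc).2.2
        rw [h3] at h
        exact S_beg hn Φ hA' (L := []) h
      · rw [hb] at hc
        have hbn : b ≠ .nil := by rcases hb' with rfl | rfl <;> simp
        have h3 := (stripF (a := b) (L := L1 ++ comps (.nil △ (.nil △ S'))) hbn hc).2.2
        rcases hb' with rfl | rfl
        · exact hA0 h3.symm
        · exact hA1 h3.symm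
  | b A a hA hA1 ha hUe =>
    obtain ⟨a, rfl⟩ : ∃ a', a = a' + 2 := ⟨a - 2, by omega⟩
    have hA' : 2 ≤ Tsq.ht (Tsq.mir A) := by
      rw [H1.ht_eq, ht_eq, HM.cont_mir, ← ht_eq, ← H1.ht_eq]; exact hA
    have e1 : Tsq.mir (app A lf0) = .nil △ Tsq.mir A := by rw [Tsq.mir_app]; rfl
    have e2 : ∀ m : ℕ, comps (Tsq.mir (lv2 m .nil)) = List.replicate m lf0 := by
      intro m
      induction m with
      | zero => rfl
      | succ m ih =>
        change comps (Tsq.mir (lf0 △ lv2 m .nil)) = _
        rw [mir_node, comps_app, ih, List.replicate_succ']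
        rfl
    have hc : comps Um = List.replicate (a + 2) lf0 ++ [.nil △ Tsq.mir A] := by
      rw [hUm, hUe, mir_node, comps_app, e2, e1]
      rfl
    have hc1 : comps Um = lf0 :: (List.replicate (a + 1) lf0 ++ [.nil △ Tsq.mir A]) := hc
    cases hk with
    | r => exact hRf _ hc1
    | s h => exact hS2 _ hc1
    | a S' h =>
      have hS' : comps S' ≠ [] := by
        intro h0
        rw [h0] at h
        exact hS2 [] h
      obtain ⟨L, s, hLs⟩ : ∃ L s, comps S' = L ++ [s] :=
        ⟨_, _, (List.dropLast_append_getLast hS').symm⟩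
      rw [comps_app, comps_node, hLs, ← List.cons_append, ← List.append_assoc] at hc
      have h1 := (lst hc).2
      rw [hLs, h1, List.append_assoc] at h
      exact S_beg hn Φ hA' h
    | b S' h =>
      have h1 := (K1.b (R := RH n Φ) (B := (Tsq.sq (RH n Φ)).2) S' h)
      have e3 : (OddHC.cont (app (Tsq.sq (RH n Φ)).2 (.nil △ (.nil △ S')))).count 1 =
          (OddHC.cont (Tsq.sq (RH n Φ)).2).count 1 + (2 + (OddHC.cont S').count 1) := by
        rw [cont_app, cont_bead, cont_bead, Multiset.count_add, Multiset.count_add, Multiset.count_add,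
          Multiset.count_singleton_self]
        ring
      have e4 : (OddHC.cont (app (Tsq.sq (RH n Φ)).2 (.nil △ (.nil △ S')))).count 1 =
          (OddHC.cont U).count 1 := by rw [hcm]
      have e5 : (OddHC.cont U).count 1 ≤ 1 := by
        rw [hUe, cont_node, Multiset.count_add]
        have h5 : (OddHC.cont (lv2 (a + 2) (.nil : BinaryTree Unit))).count 1 = 0 := by
          rw [cont_lv2, Multiset.count_add, Multiset.count_replicate, if_neg (by norm_num), cont_nil]
          rfl
        have h8 : 2 ≤ (OddHC.cont (app A lf0)).sup := by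
          have : (OddHC.cont (app A lf0)).sup = OddHC.ht (app A lf0) := (ht_eq _).symm
          rw [this, ht_app]
          have h7 : OddHC.ht A = Tsq.ht A := (H1.ht_eq A).symm
          omega
        have h6 : (raise (OddHC.cont (app A lf0))).count 1 = (OddHC.cont (app A lf0)).count 1 :=
          count_raise 1 (by omega) (by omega)
        rw [h5, h6, cont_app, c_lf0, Multiset.count_add, hA1, Multiset.count_singleton_self]
      omega
  | c A hA hUe =>
    have hc : comps Um = .nil :: [Tsq.mir A] := by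
      rw [hUm, hUe, mir_node, comps_app]
      rfl
    cases hk with
    | r =>
      rw [eRf] at hc
      exact nRf (hd hc).1
    | s h =>
      rw [eSf] at hc
      exact nSf (hd hc).1
    | a S' h =>
      rw [comps_app] at hc
      rcases hBf with hB0 | ⟨b, L1, hb, hb'⟩
      · rw [hB0] at hc
        exact nlf (hd (L := comps S') hc).1
      · rw [hb] at hc
        have hbn : b ≠ .nil := by rcases hb' with rfl | rfl <;> simp
        exact hbn (hd hc).1
    | b S' h =>
      rw [comps_app] at hc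
      rcases hBf with hB0 | ⟨b, L1, hb, hb'⟩
      · rw [hB0] at hc
        change .nil :: .nil :: comps S' = _ at hc
        exact Ft.mir_ne hA (hd (hd hc).2).1.symm
      · rw [hb] at hc
        have hbn : b ≠ .nil := by rcases hb' with rfl | rfl <;> simp
        exact hbn (hd hc).1
  | d h =>
    have := hcx.big hn
    rw [hcm] at this
    omega
  | e h =>
    have := hcx.one hn
    rw [hcm] at this
    omega

end L1

open L1 J H1

/-- **W-Km-L1**: `K'`, host `()(U)` -/
theorem TyL1.disj_Km {F F' : Set (Cyc k)} {g g' : DG k} (hL : TyL1 F g) {U : BinaryTree Unit}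
    (hU0 : U ≠ .nil) (hU : KmOK U)
    (hT : IsTri (.nil △ .nil) U .nil F' g') {w : X k} (h1 : w ∈ g.B) (h2 : w ∈ g'.B) : False := by
  have h3 : w.1 = w1 lf0 U .nil ∨ w.1 = w1 U .nil lf0 ∨ w.1 = w1 .nil lf0 U := by
    rcases hT.words w h2 with h | ⟨_, h | h⟩
    · exact Or.inl h
    · exact Or.inr (Or.inl h)
    · exact Or.inr (Or.inr h)
  rcases hL with ⟨n, Φ, w0, hb, hr, rfl, rfl⟩ | ⟨n, Φ, w0, hb, hr, rfl, rfl⟩
  · obtain ⟨i, hi, h5, rfl⟩ := mem_gadJx.1 h1
    have h4 := cmpKm h3
    rw [xw_val hb.hn hb.hk w0 hi] at h4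
    exact km_right hb.hn Φ hU ((EK_all hb.hn Φ).k2 hU0 hi h5 h4)
  · obtain ⟨i, hi, h5, rfl⟩ := mem_gadJM.1 h1
    have h4 := cmpK (mirKm h3)
    have e : Tsq.mir (xm n Φ w0 i).1 = (xw n (rf Φ) w0 i).1 := Tsq.mir_mir _
    rw [e, xw_val hb.hn (by rw [rf_sum]; exact hb.hk) w0 hi] at h4
    have e0 : rf Φ 0 = 0 := by
      have e : rf Φ 0 = Φ (-1) := by unfold rf; congr 1; ring
      rw [e]; exact hr.2.1
    exact km_mir hb.hn (rf Φ) (by rw [rf_sum]; exact hr.1) e0 hU rfl
      ((EK_all hb.hn (rf Φ)).k1 (Ft.mir_ne hU0) hi h5 h4)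

end Pool.OddHC
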