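import Pool.Agent.Work.MP_8f87b2_h32.L1Eq
import Pool.Agent.Work.MP_8f87b2_h26.TyL1
import Pool.Agent.Work.MP_8f87b2_h11.RHz

/-!
# MP_8f87b2_co: row W-E-L1

A hop triple over a low word shares a word with a gadget of type L1 only in the cases `BadE`.
-/

set_option autoImplicit false

namespace Pool.OddHC

open Finset Equiv BinaryTree Pool.Agent.Work.MP_8f87b2_co

variable {k : ℕ}

namespace L1

open H1 J Ft

variable {n : ℕ} {Φ : ZMod (2 * n + 1) → ℕ}

/-! ### The data of the words -/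

theorem ps_inf (s : BinaryTree Unit) : ps (inf s) = [] := by
  have h := (Wd_rd (Wd.inf s)).2.2
  have h2 : (ps (inf s)).length = 0 := by
    rw [h, psl_length]
    unfold cl
    simp
  exact List.length_eq_zero_iff.1 h2

theorem RH_dat (hn : 1 ≤ n) (Φ : ZMod (2 * n + 1) → ℕ) :
    rd (RH n Φ) = rr n Φ ∧ ln (RH n Φ) = 2 * (n + 1 + ∑ x, Φ x) ∧ ps (RH n Φ) = [gH n Φ] := by
  obtain ⟨r1, r2, _⟩ := Wd_rd (Wd_RH hn Φ)
  rw [rr_num hn] at r2
  exact ⟨r1, r2, Wd_one (Wd_RH hn Φ)⟩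

theorem Nb_RH (hn : 1 ≤ n) (Φ : ZMod (2 * n + 1) → ℕ) : Nb (RH n Φ) := by
  obtain ⟨_, h2, h3⟩ := RH_dat hn Φ
  have h4 := gH_le hn Φ
  rw [rr_num hn] at h4
  refine Nb.of_ps (by omega) ?_ ?_
  · rw [h3, List.mem_singleton]; omega
  · rw [h3, List.mem_singleton]; omega

theorem S_A (hn : 1 ≤ n) (Φ : ZMod (2 * n + 1) → ℕ) (h0 : 1 ≤ Φ (-1)) :
    ∃ D1 Y : BinaryTree Unit, D1 ≠ .nil ∧ rd (Tsq.sq (RH n Φ)).1 = D1 △ Y ∧
      (Tsq.sq (RH n Φ)).1 = inf (D1 △ Y) := by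
  obtain ⟨_, _, D1, hD1, s2⟩ := Ring1.sq_RF hn Φ
  have e : (Tsq.sq (RH n Φ)).1 = inf (D1 △ lv (Φ (-2)) .nil) := by
    rw [(caseA hn Φ h0).1, s2, inf_node, inf1_eq hD1, Ring1.inf_lp]
  exact ⟨D1, _, hD1, by rw [e, rd_inf], e⟩

theorem B_A (hn : 1 ≤ n) (Φ : ZMod (2 * n + 1) → ℕ) (h0 : 1 ≤ Φ (-1)) :
    rd (Tsq.sq (RH n Φ)).2 = lv (Φ (-1)) .nil ∧ ln (Tsq.sq (RH n Φ)).2 = 2 * Φ (-1) ∧
      ps (Tsq.sq (RH n Φ)).2 = [2 * Φ (-1) - 1] := by
  obtain ⟨b1, b2, _⟩ := Wd_rd (caseA hn Φ h0).2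
  rw [lv_num'] at b2
  exact ⟨b1, b2, Wd_one (caseA hn Φ h0).2⟩

theorem S_Z (hn : 1 ≤ n) (Φ : ZMod (2 * n + 1) → ℕ) (h0 : Φ (-1) = 0) :
    rd (Tsq.sq (RH n Φ)).1 = rr n (fun x => Φ (x - 1)) ∧
      ln (Tsq.sq (RH n Φ)).1 = 2 * (n + 1 + ∑ x, Φ x) ∧
      ps (Tsq.sq (RH n Φ)).1 = [2 * (n + 1 + ∑ x, Φ x) - 2] := by
  have h := caseB1 hn Φ h0
  obtain ⟨r1, r2, _⟩ := Wd_rd h
  rw [rr_num hn, sum_sub1] at r2
  exact ⟨r1, r2, Wd_one h⟩

theorem EN_A (hn : 1 ≤ n) (Φ : ZMod (2 * n + 1) → ℕ) (h0 : 1 ≤ Φ (-1)) :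
    EN (RH n Φ) (Tsq.sq (RH n Φ)).2 (Tsq.sq (RH n Φ)).1 := by
  refine ⟨Nb_RH hn Φ, ?_, Or.inr ?_⟩
  · obtain ⟨D1, Y, hD1, e1, e2⟩ := S_A hn Φ h0
    refine Nb.of_ps ?_ ?_ ?_
    · rw [ln_eq, e1]
      change 0 < 2 * (D1.numNodes + Y.numNodes + 1)
      omega
    · rw [e2, ps_inf]; simp
    · rw [e2, ps_inf]; simp
  · obtain ⟨_, b2, b3⟩ := B_A hn Φ h0
    refine Nb.of_ps (by omega) ?_ ?_
    · rw [b3, List.mem_singleton]; omega
    · rw [b3, List.mem_singleton]; omega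

theorem EN_Z (hn : 1 ≤ n) (Φ : ZMod (2 * n + 1) → ℕ) (h0 : Φ (-1) = 0) :
    (Tsq.sq (RH n Φ)).2 = .nil ∧ EN (RH n Φ) .nil (Tsq.sq (RH n Φ)).1 := by
  refine ⟨caseB2 hn Φ h0, Nb_RH hn Φ, ?_, Or.inl rfl⟩
  obtain ⟨_, s2, s3⟩ := S_Z hn Φ h0
  refine Nb.of_ps (by omega) ?_ ?_
  · rw [s3, List.mem_singleton]; omega
  · rw [s3, List.mem_singleton]; omega

/-! ### The first and the last component of the reduced word -/

/-- the first component is `()` -/
def Fl (t : BinaryTree Unit) : Prop := ∃ Y, t = .nil △ Y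

/-- the last component is `()` -/
def Ll (t : BinaryTree Unit) : Prop := ∃ Y, t = app Y lf0

theorem Fl.mir {t : BinaryTree Unit} (h : Fl t) : Ll (Tsq.mir t) := by
  obtain ⟨Y, rfl⟩ := h
  exact ⟨Tsq.mir Y, rfl⟩

theorem Fl_node {A B : BinaryTree Unit} (h : Fl (A △ B)) : A = .nil := by
  obtain ⟨Y, e⟩ := h
  injection e

theorem Ll_app {P A : BinaryTree Unit} (h : Ll (app P (A △ .nil))) : A = .nil := by
  obtain ⟨Y, e⟩ := h
  have e1 := congrArg comps e
  rw [comps_app, comps_app] at e1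
  exact (lst (L := comps P) (L' := comps Y) (a := A) (b := .nil) e1).2

theorem app_nil' (P : BinaryTree Unit) : app .nil P = P := rfl

theorem Fl_rr (hn : 1 ≤ n) (Φ : ZMod (2 * n + 1) → ℕ) (h : Fl (rr n Φ)) : 1 ≤ Φ 0 := by
  obtain ⟨D0, hD0, hs⟩ := shape_rr hn Φ
  by_contra h0
  have h0' : Φ 0 = 0 := by omega
  rw [hs, h0'] at h
  exact hD0 (Fl_node h)

theorem Ll_rr (hn : 1 ≤ n) (Φ : ZMod (2 * n + 1) → ℕ) (h : Ll (rr n Φ)) : 1 ≤ Φ (-1) := by
  obtain ⟨D0, hD0, hs⟩ := shape_rr hn Φ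
  by_contra h0
  have h0' : Φ (-1) = 0 := by omega
  rw [hs, h0'] at h
  have e : lv (Φ 0) (D0 △ lv 0 .nil) = app (lv (Φ 0) .nil) (D0 △ .nil) := by rw [lv_app1]; rfl
  rw [e] at h
  exact hD0 (Ll_app h)

/-! ### Contents -/

theorem sqc {R : BinaryTree Unit} (hR : R ≠ .nil) :
    OddHC.cont (Tsq.sq R).1 + OddHC.cont (Tsq.sq R).2 = OddHC.cont R := by
  let x : X R.numNodes := ⟨R, mem_treesOfNumNodesEq.2 rfl⟩
  have e1 : (TT (TT x)).1 = app (Tsq.sq R).2 (Tsq.sq R).1 := Tsq.TT_sq x hR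
  have e2 : OddHC.cont (TT (TT x)).1 = OddHC.cont R := by
    rw [TT_apply, cont_TF, TT_apply, cont_TF]
  rw [e1, cont_app] at e2
  rw [add_comm]
  exact e2

theorem RH_ne (hn : 1 ≤ n) (Φ : ZMod (2 * n + 1) → ℕ) : RH n Φ ≠ .nil := (Nb_RH hn Φ).ne

theorem cRH (hn : 1 ≤ n) (Φ : ZMod (2 * n + 1) → ℕ) :
    OddHC.cont (RH n Φ) = {n + 2} + (Multiset.replicate (∑ x, Φ x) 2 + {1}) := by
  rw [cont_RH hn, add_assoc]

theorem le_M {b x : ℕ} (h : x ∈ (Multiset.replicate b 2 + {1} : Multiset ℕ)) : x ≤ 2 := by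
  rcases Multiset.mem_add.1 h with h | h
  · exact (Multiset.eq_of_mem_replicate h).le
  · rw [Multiset.mem_singleton] at h
    omega

theorem raise_top' {s : ℕ} {M : Multiset ℕ} (h : ∀ x ∈ M, x ≤ s) : raise ({s} + M) = {s + 1} + M := by
  have h1 : ({s} + M).sup = s := by
    rw [sup_add', Multiset.sup_singleton]
    exact max_eq_left (Multiset.sup_le.2 h)
  unfold raise
  rw [h1, Multiset.singleton_add, Multiset.erase_cons_head, Multiset.singleton_add]

theorem cS (hn : 1 ≤ n) (Φ : ZMod (2 * n + 1) → ℕ) : ∃ M : Multiset ℕ,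
    OddHC.cont (Tsq.sq (RH n Φ)).1 = {n + 2} + M ∧
    M + OddHC.cont (Tsq.sq (RH n Φ)).2 = Multiset.replicate (∑ x, Φ x) 2 + {1} ∧
    raise (OddHC.cont (Tsq.sq (RH n Φ)).1) = {n + 3} + M := by
  have hR := RH_ne hn Φ
  have hh : Tsq.ht (Tsq.sq (RH n Φ)).1 = Tsq.ht (RH n Φ) := (Tsq.ht_sq hR).1
  rw [H1.ht_eq, H1.ht_eq, ht_RH hn, ht_eq] at hh
  have hc := sqc hR
  rw [cRH hn] at hc
  have hne : OddHC.cont (Tsq.sq (RH n Φ)).1 ≠ 0 := by
    intro h
    rw [h] at hh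
    simp at hh
  have hm := sup_mem hne
  rw [hh] at hm
  obtain ⟨M, hM⟩ := Multiset.exists_cons_of_mem hm
  rw [← Multiset.singleton_add] at hM
  rw [hM, add_assoc] at hc
  have hc' := add_left_cancel hc
  refine ⟨M, hM, hc', ?_⟩
  rw [hM]
  apply raise_top'
  intro x hx
  have : x ∈ (Multiset.replicate (∑ x, Φ x) 2 + {1} : Multiset ℕ) := by
    rw [← hc']
    exact Multiset.mem_add.2 (Or.inl hx)
  have := le_M this
  omega

theorem Low.fl {X r : BinaryTree Unit} {f : List ℕ} (hX : X = ins r f)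
    (hf : f.length = 2 * r.numNodes + 1) (hl : Low r) (h2 : 1 ≤ (OddHC.cont X).count 2) :
    Fl (rd X) := by
  have e : rd X = r := by rw [hX, rd_ins hf]
  rw [hX, cont_ins r f hf, Multiset.count_add, Multiset.count_replicate, if_neg (by omega)] at h2
  have e2 : (2 : ℕ) = (· + 1) 1 := rfl
  rw [e2, Multiset.count_map_eq_count' _ _ (add_left_injective 1)] at h2
  rw [e]
  exact hl.1 (by omega)

theorem Low.fl2 {X r : BinaryTree Unit} {f : List ℕ} (hX : X = ins r f)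
    (hf : f.length = 2 * r.numNodes + 1) (hl : Low r) (h2 : (OddHC.cont X).count 2 = 0)
    (h3 : 1 ≤ (OddHC.cont X).count 3) : ∃ Y, rd X = (.nil △ .nil) △ Y := by
  have e : rd X = r := by rw [hX, rd_ins hf]
  rw [hX, cont_ins r f hf, Multiset.count_add, Multiset.count_replicate, if_neg (by omega)] at h2
  rw [hX, cont_ins r f hf, Multiset.count_add, Multiset.count_replicate, if_neg (by omega)] at h3
  have e2 : (2 : ℕ) = (· + 1) 1 := rfl
  have e3 : (3 : ℕ) = (· + 1) 2 := rfl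
  rw [e2, Multiset.count_map_eq_count' _ _ (add_left_injective 1)] at h2
  rw [e3, Multiset.count_map_eq_count' _ _ (add_left_injective 1)] at h3
  rw [e]
  exact hl.2 (by omega) (by omega)

/-- the candidates, with their contents -/
structure XD (n : ℕ) (Φ : ZMod (2 * n + 1) → ℕ) (X : BinaryTree Unit) : Prop where
  r1 : X = app (RH n Φ) lf0 ∨ X = .nil △ RH n Φ →
    OddHC.cont X = {n + 2} + Multiset.replicate (∑ x, Φ x) 2 + Multiset.replicate 2 1
  r3 : X = RH n Φ △ .nil → OddHC.cont X = {n + 3} + Multiset.replicate (∑ x, Φ x) 2 + {1}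
  s1 : X = (Tsq.sq (RH n Φ)).1 △ (Tsq.sq (RH n Φ)).2 →
    OddHC.cont X = {n + 3} + Multiset.replicate (∑ x, Φ x) 2 + {1}

theorem xd (hn : 1 ≤ n) (Φ : ZMod (2 * n + 1) → ℕ) (X : BinaryTree Unit) : XD n Φ X := by
  have e0 : OddHC.cont lf0 = {1} := by
    change raise 0 + 0 = {1}
    rw [raise_zero, add_zero]
  have e2 : Multiset.replicate 2 1 = ({1} + {1} : Multiset ℕ) := rfl
  refine ⟨?_, ?_, ?_⟩
  · rintro (rfl | rfl)
    · rw [cont_app, e0, cont_RH hn, e2]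
      simp only [add_assoc]
    · have e1 : OddHC.cont (.nil △ RH n Φ) = {1} + OddHC.cont (RH n Φ) := by
        rw [cont_node, cont_nil, raise_zero]
      rw [e1, cont_RH hn, e2, add_comm]
      simp only [add_assoc]
  · rintro rfl
    rw [cont_node, cont_nil, add_zero, cRH hn, raise_top' (fun x hx => (le_M hx).trans (by omega)),
      ← add_assoc]
  · rintro rfl
    obtain ⟨M, _, h2, h3⟩ := cS hn Φ
    rw [cont_node, h3, add_assoc, h2, add_assoc]

/-- in case Z -/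
theorem xdZ (hn : 1 ≤ n) (Φ : ZMod (2 * n + 1) → ℕ) (h0 : Φ (-1) = 0) {X : BinaryTree Unit}
    (hX : X = app (Tsq.sq (RH n Φ)).1 lf0 ∨ X = .nil △ (Tsq.sq (RH n Φ)).1) :
    OddHC.cont X = {n + 2} + Multiset.replicate (∑ x, Φ x) 2 + Multiset.replicate 2 1 := by
  have e0 : OddHC.cont lf0 = {1} := by
    change raise 0 + 0 = {1}
    rw [raise_zero, add_zero]
  have e2 : Multiset.replicate 2 1 = ({1} + {1} : Multiset ℕ) := rfl
  have hc := sqc (RH_ne hn Φ)
  rw [caseB2 hn Φ h0, cont_nil, add_zero, cont_RH hn] at hc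
  rcases hX with rfl | rfl
  · rw [cont_app, e0, hc, e2]
    simp only [add_assoc]
  · have e1 : OddHC.cont (.nil △ (Tsq.sq (RH n Φ)).1) = {1} + OddHC.cont (Tsq.sq (RH n Φ)).1 := by
      rw [cont_node, cont_nil, raise_zero]
    rw [e1, hc, e2, add_comm]
    simp only [add_assoc]

theorem cnt2 {m b : ℕ} {M : Multiset ℕ} (hb : 1 ≤ b) :
    1 ≤ ({m} + Multiset.replicate b 2 + M : Multiset ℕ).count 2 := by
  rw [Multiset.count_add, Multiset.count_add, Multiset.count_replicate_self]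
  omega

/-- content of `S(B)`, case A -/
theorem cnt_s2 (hn : 1 ≤ n) (Φ : ZMod (2 * n + 1) → ℕ) (h0 : 1 ≤ Φ (-1)) :
    ∑ x, Φ x ≤ (OddHC.cont (app (Tsq.sq (RH n Φ)).1 ((Tsq.sq (RH n Φ)).2 △ .nil))).count 2 + 1 ∧
      1 ≤ (OddHC.cont (app (Tsq.sq (RH n Φ)).1 ((Tsq.sq (RH n Φ)).2 △ .nil))).count 3 := by
  have hB := caseA_ht hn Φ h0
  rw [ht_eq] at hB
  have hne : OddHC.cont (Tsq.sq (RH n Φ)).2 ≠ 0 := by
    intro h
    rw [h] at hB
    simp at hB
  have hc := sqc (RH_ne hn Φ)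
  have h1 := count_raise_sup hne
  have h2 := count_raise_top (OddHC.cont (Tsq.sq (RH n Φ)).2)
  rw [hB] at h1 h2
  have h3 := congrArg (Multiset.count 2) hc
  rw [Multiset.count_add, cRH hn, Multiset.count_add, Multiset.count_add,
    Multiset.count_replicate_self] at h3
  rw [cont_app, cont_node, cont_nil, add_zero, Multiset.count_add, Multiset.count_add]
  constructor
  · omega
  · have : (2 : ℕ) + 1 = 3 := rfl
    rw [this] at h2
    omega

theorem S3 (hn : 2 ≤ n) (Φ : ZMod (2 * n + 1) → ℕ) (h0 : 1 ≤ Φ (-1)) (Y : BinaryTree Unit) :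
    rd (Tsq.sq (RH n Φ)).1 ≠ (.nil △ .nil) △ Y := by
  intro e
  obtain ⟨D1, Y', hD1, e1, e2⟩ := S_A (by omega) Φ h0
  have e3 : (Tsq.sq (RH n Φ)).1 = inf ((.nil △ .nil) △ Y) := by rw [e2, ← e1, e]
  have hc := sqc (RH_ne (by omega) Φ)
  have h3 : 3 ∈ OddHC.cont (Tsq.sq (RH n Φ)).1 := by
    rw [e3, cont_inf, Multiset.mem_map]
    refine ⟨2, ?_, rfl⟩
    have : OddHC.cont ((.nil △ .nil) △ Y) = {2} + OddHC.cont Y := by
      rw [cont_node]
      have : raise (OddHC.cont (.nil △ .nil)) = {2} := by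
        change raise (raise 0 + 0) = {2}
        rw [raise_zero, add_zero]
        rfl
      rw [this]
    rw [this]
    simp
  have h4 : 3 ∈ OddHC.cont (RH n Φ) := by
    rw [← hc]
    exact Multiset.mem_add.2 (Or.inl h3)
  rw [cRH (by omega)] at h4
  rcases Multiset.mem_add.1 h4 with h | h
  · rw [Multiset.mem_singleton] at h
    omega
  · have := le_M h
    omega

/-! ### The words `X` -/

/-- the words `X` whose hop triple can meet a gadget of type L1 -/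
inductive BadE (X : BinaryTree Unit) : Prop
  | m3 (n b : ℕ) (hn : 1 ≤ n) (hb : 1 ≤ b)
      (hc : OddHC.cont X = {n + 2} + Multiset.replicate b 2 + Multiset.replicate 2 1)
      (hp : ps X = [ln X - 1, ln X] ∨ ps X = [0, ln X - 1] ∨ ps X = [0, 1] ∨ ps X = [1, ln X] ∨
        ps X = [0, 2] ∨ ps X = [2, ln X]) : BadE X
  | m2 (n b : ℕ) (hn : 1 ≤ n) (hb : 1 ≤ b)
      (hc : OddHC.cont X = {n + 3} + Multiset.replicate b 2 + {1})
      (hp : ∃ Y, X = (.nil △ (.nil △ .nil)) △ Y) : BadE X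

theorem ps_R {R : BinaryTree Unit} {x : ℕ} (hp : ps R = [x]) : ps (app R lf0) = [x, ln R] ∧
    ln (app R lf0) = ln R ∧ ps (.nil △ R) = [0, x] ∧ ln (.nil △ R) = ln R := by
  have e1 : ps lf0 = [0] := rfl
  have e2 : ln lf0 = 0 := rfl
  refine ⟨?_, ?_, ?_, rfl⟩
  · rw [ps_app, hp, e1]
    simp
  · rw [ln_app, e2, add_zero]
  · rw [ps_leaf, hp]

/-- right -/
theorem E_right (hn : 1 ≤ n) (hk : n + 5 + 2 * ∑ x, Φ x = k) (h10 : 10 ≤ k) (one : 1 ≤ ∑ x, Φ x)
    (hr : 1 ≤ Φ (-1) ∨ (Φ (-1) = 0 ∧ Φ 0 = 0)) {X r : BinaryTree Unit} {f : List ℕ}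
    (hX : X = ins r f) (hf : f.length = 2 * r.numNodes + 1) (hl : Low r)
    (hx : Xc (RH n Φ) (Tsq.sq (RH n Φ)).2 (Tsq.sq (RH n Φ)).1 X) : BadE X := by
  obtain ⟨d1, d2, d3⟩ := RH_dat hn Φ
  have hRpos : 0 < ln (RH n Φ) := by omega
  have hRn := RH_ne hn Φ
  obtain ⟨x1, x3, x5⟩ := xd hn Φ X
  have fr : Fl (rr n Φ) → 1 ≤ Φ 0 := Fl_rr hn Φ
  rcases hr with h0 | ⟨h0, h00⟩
  · -- case A
    obtain ⟨D1, Y1, hD1, s1, s2⟩ := S_A hn Φ h0
    have hg : gH n Φ = ln (RH n Φ) - 1 := by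
      unfold gH
      rw [if_pos h0, d2]
      omega
    have hSn : (Tsq.sq (RH n Φ)).1 ≠ .nil := by
      intro h
      rw [h] at s1
      exact absurd s1 (by simp [rd_nil])
    obtain ⟨b1, b2, b3⟩ := B_A hn Φ h0
    have hBn : (Tsq.sq (RH n Φ)).2 ≠ .nil := by
      intro h
      rw [h] at b2
      have : ln (.nil : BinaryTree Unit) = 0 := rfl
      omega
    cases hx with
    | r1 =>
      have hc := x1 (Or.inl rfl)
      obtain ⟨p1, p2, _, _⟩ := ps_R d3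
      refine .m3 n _ hn one hc (Or.inl ?_)
      rw [p1, p2, hg]
    | r2 =>
      have hc := x1 (Or.inr rfl)
      obtain ⟨_, _, p1, p2⟩ := ps_R d3
      refine .m3 n _ hn one hc (Or.inr (Or.inl ?_))
      rw [p1, p2, hg]
    | r3 =>
      exfalso
      have hc := x3 rfl
      have h1 := Low.fl hX hf hl (by rw [hc]; exact cnt2 one)
      rw [rd_node hRn] at h1
      exact rd_ne hRpos (Fl_node h1)
    | s1 =>
      exfalso
      have hc := x5 rfl
      have h1 := Low.fl hX hf hl (by rw [hc]; exact cnt2 one)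
      rw [rd_node hSn, s1] at h1
      exact absurd (Fl_node h1) (by simp)
    | s2 =>
      exfalso
      obtain ⟨c1, c2⟩ := cnt_s2 hn Φ h0
      have e : rd (app (Tsq.sq (RH n Φ)).1 ((Tsq.sq (RH n Φ)).2 △ .nil)) =
          D1 △ app Y1 (rd ((Tsq.sq (RH n Φ)).2 △ .nil)) := by
        rw [rd_app, s1]
        rfl
      by_cases h2 : 1 ≤ (OddHC.cont (app (Tsq.sq (RH n Φ)).1 ((Tsq.sq (RH n Φ)).2 △ .nil))).count 2
      · have h1 := Low.fl hX hf hl h2
        rw [e] at h1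
        exact hD1 (Fl_node h1)
      · obtain ⟨Y, h1⟩ := Low.fl2 hX hf hl (by omega) c2
        rw [e] at h1
        have h3 : D1 = .nil △ .nil := by injection h1
        exact S3 (by omega) Φ h0 Y1 (by rw [s1, h3])
    | s3 h => exact absurd h hBn
  · -- case Z
    obtain ⟨hB, _⟩ := EN_Z hn Φ h0
    obtain ⟨s1, s2, s3⟩ := S_Z hn Φ h0
    have hSn : (Tsq.sq (RH n Φ)).1 ≠ .nil := by
      intro h
      rw [h] at s2
      have : ln (.nil : BinaryTree Unit) = 0 := rfl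
      omega
    have fS : ¬ Fl (rr n fun x => Φ (x - 1)) := by
      intro h
      have := Fl_rr hn _ h
      simp only [zero_sub] at this
      omega
    have fR : ¬ Fl (rr n Φ) := by
      intro h
      have := Fl_rr hn _ h
      omega
    exfalso
    cases hx with
    | r1 =>
      have hc := x1 (Or.inl rfl)
      have h1 := Low.fl hX hf hl (by rw [hc]; exact cnt2 one)
      rw [rd_app, d1] at h1
      exact fR (by rwa [show rd lf0 = .nil from rfl, app_nil] at h1)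
    | r2 =>
      have hc := x1 (Or.inr rfl)
      have h1 := Low.fl hX hf hl (by rw [hc]; exact cnt2 one)
      rw [rd_leaf, d1] at h1
      exact fR h1
    | r3 =>
      have hc := x3 rfl
      have h1 := Low.fl hX hf hl (by rw [hc]; exact cnt2 one)
      rw [rd_node hRn] at h1
      exact rd_ne hRpos (Fl_node h1)
    | s1 =>
      have hc := x5 rfl
      have h1 := Low.fl hX hf hl (by rw [hc]; exact cnt2 one)
      rw [rd_node hSn] at h1
      exact rd_ne (by omega) (Fl_node h1)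
    | s2 =>
      rw [hB] at hX
      have hc := xdZ hn Φ h0 (X := app (Tsq.sq (RH n Φ)).1 lf0) (Or.inl rfl)
      have h1 := Low.fl hX hf hl (by rw [hc]; exact cnt2 one)
      rw [rd_app, s1] at h1
      exact fS (by rwa [show rd (.nil △ .nil) = .nil from rfl, app_nil] at h1)
    | s3 h =>
      have hc := xdZ hn Φ h0 (X := .nil △ (Tsq.sq (RH n Φ)).1) (Or.inr rfl)
      have h1 := Low.fl hX hf hl (by rw [hc]; exact cnt2 one)
      rw [rd_leaf, s1] at h1
      exact fS h1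

/-- the gaps of a mirror -/
theorem ps_of_mir {X : BinaryTree Unit} {a b : ℕ} (h : ps (Tsq.mir X) = [a, b]) :
    ps X = [ln (Tsq.mir X) - b, ln (Tsq.mir X) - a] := by
  have h1 := ps_mir (Tsq.mir X)
  rw [Tsq.mir_mir, h] at h1
  exact h1

/-- mirrored: `Xm` is the mirror of `X` -/
theorem E_mir (hn : 1 ≤ n) (two : 2 ≤ ∑ x, Φ x) {X r : BinaryTree Unit} {f : List ℕ}
    (hX : X = ins r f) (hf : f.length = 2 * r.numNodes + 1) (hl : Low r) {Xm : BinaryTree Unit}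
    (hXm : Tsq.mir X = Xm)
    (hx : Xc (RH n Φ) (Tsq.sq (RH n Φ)).2 (Tsq.sq (RH n Φ)).1 Xm) : BadE X := by
  obtain ⟨d1, d2, d3⟩ := RH_dat hn Φ
  have one : 1 ≤ ∑ x, Φ x := by omega
  have hRpos : 0 < ln (RH n Φ) := by omega
  have hRn := RH_ne hn Φ
  obtain ⟨x1, x3, x5⟩ := xd hn Φ Xm
  have hcm : OddHC.cont X = OddHC.cont Xm := by rw [← hXm]; exact (HM.cont_mir X).symm
  have hln : ln X = ln Xm := by rw [← hXm, ln_mir]
  have hll : 1 ≤ (OddHC.cont Xm).count 2 → Ll (rd Xm) := by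
    intro h
    rw [← hXm, rd_mir]
    exact (Low.fl hX hf hl (by rw [hcm]; exact h)).mir
  have hps : ∀ a b, ps Xm = [a, b] → ps X = [ln Xm - b, ln Xm - a] := by
    intro a b h
    have := ps_of_mir (X := X) (a := a) (b := b) (by rw [hXm]; exact h)
    rwa [hXm] at this
  rcases Nat.eq_zero_or_pos (Φ (-1)) with h0 | h0
  · -- case Z
    obtain ⟨hB, _⟩ := EN_Z hn Φ h0
    obtain ⟨s1, s2, s3⟩ := S_Z hn Φ h0
    have hSn : (Tsq.sq (RH n Φ)).1 ≠ .nil := by
      intro h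
      rw [h] at s2
      have : ln (.nil : BinaryTree Unit) = 0 := rfl
      omega
    have fR : ¬ Ll (rr n Φ) := by
      intro h
      have := Ll_rr hn _ h
      omega
    cases hx with
    | r1 =>
      exfalso
      have hc := x1 (Or.inl rfl)
      have h1 := hll (by rw [hc]; exact cnt2 one)
      rw [rd_app, d1] at h1
      exact fR (by rwa [show rd lf0 = .nil from rfl, app_nil] at h1)
    | r2 =>
      exfalso
      have hc := x1 (Or.inr rfl)
      have h1 := hll (by rw [hc]; exact cnt2 one)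
      rw [rd_leaf, d1] at h1
      exact fR h1
    | r3 =>
      exfalso
      have hc := x3 rfl
      have h1 := hll (by rw [hc]; exact cnt2 one)
      rw [rd_node hRn] at h1
      exact rd_ne hRpos (Ll_app (P := .nil) h1)
    | s1 =>
      exfalso
      have hc := x5 rfl
      have h1 := hll (by rw [hc]; exact cnt2 one)
      rw [hB, rd_node hSn] at h1
      exact rd_ne (by omega) (Ll_app (P := .nil) h1)
    | s2 =>
      have hc := xdZ hn Φ h0 (X := app (Tsq.sq (RH n Φ)).1 lf0) (Or.inl rfl)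
      obtain ⟨p1, p2, _, _⟩ := ps_R s3
      rw [hB] at hcm hln hps
      have h1 := hps _ _ p1
      refine .m3 n _ hn one (hcm.trans hc) (Or.inr (Or.inr (Or.inr (Or.inr (Or.inl ?_)))))
      rw [h1, show ln (app (Tsq.sq (RH n Φ)).1 (.nil △ .nil)) = _ from p2, s2]
      congr 1
      · omega
      · congr 1
        omega
    | s3 h =>
      have hc := xdZ hn Φ h0 (X := .nil △ (Tsq.sq (RH n Φ)).1) (Or.inr rfl)
      obtain ⟨_, _, p1, p2⟩ := ps_R s3
      have h1 := hps _ _ p1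
      refine .m3 n _ hn one (hcm.trans hc) (Or.inr (Or.inr (Or.inr (Or.inr (Or.inr ?_)))))
      rw [h1, hln, show ln (.nil △ (Tsq.sq (RH n Φ)).1) = _ from p2, s2]
      congr 1
      omega
  · -- case A
    obtain ⟨D1, Y1, hD1, s1, s2⟩ := S_A hn Φ h0
    have hg : gH n Φ = ln (RH n Φ) - 1 := by
      unfold gH
      rw [if_pos (show 1 ≤ Φ (-1) from h0), d2]
      omega
    obtain ⟨b1, b2, b3⟩ := B_A hn Φ h0
    have hBn : (Tsq.sq (RH n Φ)).2 ≠ .nil := by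
      intro h
      rw [h] at b2
      have : ln (.nil : BinaryTree Unit) = 0 := rfl
      omega
    cases hx with
    | r1 =>
      have hc := x1 (Or.inl rfl)
      obtain ⟨p1, p2, _, _⟩ := ps_R d3
      have h1 := hps _ _ p1
      refine .m3 n _ hn one (hcm.trans hc) (Or.inr (Or.inr (Or.inl ?_)))
      rw [h1, p2, hg, d2]
      congr 1
      · omega
      · congr 1
        omega
    | r2 =>
      have hc := x1 (Or.inr rfl)
      obtain ⟨_, _, p1, p2⟩ := ps_R d3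
      have h1 := hps _ _ p1
      refine .m3 n _ hn one (hcm.trans hc) (Or.inr (Or.inr (Or.inr (Or.inl ?_))))
      rw [h1, hln, p2, hg, d2]
      congr 1
      omega
    | r3 =>
      exfalso
      have hc := x3 rfl
      have h1 := hll (by rw [hc]; exact cnt2 one)
      rw [rd_node hRn] at h1
      exact rd_ne hRpos (Ll_app (P := .nil) h1)
    | s1 =>
      have hc := x5 rfl
      refine .m2 n _ hn one (hcm.trans hc) ?_
      obtain ⟨t, ht⟩ : ∃ t, Φ (-1) = t + 1 := ⟨Φ (-1) - 1, by omega⟩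
      have hB := (caseA hn Φ h0).2
      have a2 := (Wd.inf (lv t .nil)).app Wd.three
      rw [app_lv, ← ht] at a2
      have e := hB.det (a2.cast rfl (by
        rw [zero_add, Multiset.map_singleton, lv_num', ht]
        congr 1
        omega) rfl)
      have e1 : X = Tsq.mir ((Tsq.sq (RH n Φ)).1 △ (Tsq.sq (RH n Φ)).2) := by
        rw [← hXm, Tsq.mir_mir]
      rw [e1, e, mir_node, Tsq.mir_app]
      exact ⟨_, rfl⟩
    | s2 =>
      exfalso
      obtain ⟨c1, c2⟩ := cnt_s2 hn Φ h0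
      have h1 := hll (by omega)
      rw [rd_app, rd_node hBn] at h1
      exact rd_ne (by omega) (Ll_app h1)
    | s3 h => exact absurd h hBn

/-- the three forms under the mirror -/
theorem mir3 {X w : BinaryTree Unit} (h : Tsq.mir w = X △ .nil ∨ Tsq.mir w = app X lf0 ∨ Tsq.mir w = .nil △ X) :
    w = Tsq.mir X △ .nil ∨ w = app (Tsq.mir X) lf0 ∨ w = .nil △ Tsq.mir X := by
  rcases h with e | e | e
  · left
    rw [← Tsq.mir_mir w, e]
    rfl
  · right; right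
    rw [← Tsq.mir_mir w, e, Tsq.mir_app]
    rfl
  · right; left
    rw [← Tsq.mir_mir w, e]
    rfl

theorem tri3 {Z : BinaryTree Unit} {F : Set (Cyc k)} {g : DG k} (h : IsTri .nil Z .nil F g) {w : X k}
    (hw : w ∈ g.B) : w.1 = Z △ .nil ∨ w.1 = app Z lf0 ∨ w.1 = .nil △ Z := by
  rcases h.words w hw with h | ⟨_, h | h⟩
  · exact Or.inl h
  · exact Or.inr (Or.inl h)
  · exact Or.inr (Or.inr h)

theorem mem_gadJx {w : ℕ → X k} {x : X k} : x ∈ (gadJ w).B ↔ ∃ i < 20, i ≠ 5 ∧ w i = x := by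
  classical
  change x ∈ ((range 20).erase 5).image w ↔ _
  rw [Finset.mem_image]
  constructor
  · rintro ⟨i, hi, rfl⟩
    rw [Finset.mem_erase, Finset.mem_range] at hi
    exact ⟨i, hi.2, hi.1, rfl⟩
  · rintro ⟨i, hi, h5, rfl⟩; exact ⟨i, Finset.mem_erase.2 ⟨h5, Finset.mem_range.2 hi⟩, rfl⟩

end L1

open L1 J H1

/-- **W-E-L1**: over a low word, a hop triple meets a gadget of type L1 only if `BadE X` -/
theorem TyL1.badE {F F' : Set (Cyc k)} {g g' : DG k} (h10 : 10 ≤ k) (hL : TyL1 F g)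
    {Z r : BinaryTree Unit} {f : List ℕ} (hZ : Z = ins r f) (hf : f.length = 2 * r.numNodes + 1)
    (hl : Low r) (hE : IsTri .nil Z .nil F' g') {w : X k} (h1 : w ∈ g.B) (h2 : w ∈ g'.B) : BadE Z := by
  have h3 := tri3 hE h2
  rcases hL with ⟨n, Φ, w0, hb, hr, rfl, rfl⟩ | ⟨n, Φ, w0, hb, hr, rfl, rfl⟩
  · obtain ⟨i, hi, h5, rfl⟩ := mem_gadJx.1 h1
    rw [xw_val hb.hn hb.hk w0 hi] at h3
    have hr' : 1 ≤ Φ (-1) ∨ (Φ (-1) = 0 ∧ Φ 0 = 0) := hr.imp_right fun h => ⟨h.1, h.2.1⟩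
    refine E_right hb.hn hb.hk h10 hb.one hr' hZ hf hl ?_
    rcases hr' with h | ⟨h, _⟩
    · exact (EN_A hb.hn Φ h).E hi h5 h3
    · obtain ⟨e, hEN⟩ := EN_Z hb.hn Φ h
      rw [e] at h3 ⊢
      exact hEN.E hi h5 h3
  · obtain ⟨i, hi, h5, rfl⟩ := mem_gadJM.1 h1
    have h4 := mir3 (X := Z) (w := (xw n (rf Φ) w0 i).1) h3
    rw [xw_val hb.hn (by rw [rf_sum]; exact hb.hk) w0 hi] at h4
    obtain ⟨t2, _, _⟩ := hr
    refine E_mir hb.hn (by rw [rf_sum]; exact t2) hZ hf hl rfl ?_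
    rcases Nat.eq_zero_or_pos (rf Φ (-1)) with h | h
    · obtain ⟨e, hEN⟩ := EN_Z hb.hn (rf Φ) h
      rw [e] at h4 ⊢
      exact hEN.E hi h5 h4
    · exact (EN_A hb.hn (rf Φ) h).E hi h5 h4

end Pool.OddHC
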