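import Pool.Agent.Work.MP_8f87b2_h32.L1In

/-!
# MP_8f87b2_co: row I-L1-E

An inner word of a gadget of type L1 meets a triple of type E only as the host `(X)`. The pair is lower than the gadget, or it is a
late pair `LJ1`: content `(s, 2^b, 1^3)`, and for `s ≥ 4` the three beads of its T-cycles are not in five consecutive gaps of the ring.
The old words of the same height are in five consecutive gaps.
-/

set_option autoImplicit false

namespace Pool.OddHC

open Finset Equiv BinaryTree Pool.Agent.Work.MP_8f87b2_co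

variable {k : ℕ}

namespace L1

open H1 J Ft

/-! ### Five consecutive gaps -/

/-- all beads in five consecutive gaps of the ring -/
def W5T (w : BinaryTree Unit) : Prop := ∃ r : ℕ, ∀ z ∈ ps w, (z + r) % (ln w + 1) < 5

theorem W5T.step {x : X k} (hp : 0 < ln x.1) (h : W5T x.1) : W5T (TT x).1 := by
  obtain ⟨a, b, hF⟩ := FM_ex (rd_ne hp)
  obtain ⟨_, h2, _, h4⟩ := T_all x hF
  obtain ⟨r, hr⟩ := h
  refine ⟨a.length + 1 + r, ?_⟩
  intro z hz
  rw [h2]
  have h5 := hr _ ((h4 z).1 hz).2
  rw [Nat.mod_add_mod, add_assoc] at h5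
  exact h5

theorem W5T.same {x y : X k} (hs : (TT : Equiv.Perm (X k)).SameCycle x y) (hp : 0 < ln x.1) (h : W5T x.1) :
    W5T y.1 ∧ 0 < ln y.1 := by
  obtain ⟨i, hi⟩ := sameCycle_nat hs
  rw [← hi]
  clear hi hs
  induction i with
  | zero => exact ⟨h, hp⟩
  | succ i ih =>
    rw [pow_succ', Equiv.Perm.mul_apply]
    exact ⟨ih.1.step ih.2, by rw [ln_T _ ih.2]; exact ih.2⟩

theorem W5T.mir {w : BinaryTree Unit} (h : W5T w) : W5T (Tsq.mir w) := by
  obtain ⟨r, hr⟩ := h
  refine ⟨5 + ln w * r, ?_⟩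
  intro z hz
  rw [ps_mir, List.mem_map] at hz
  obtain ⟨p, hp, rfl⟩ := hz
  rw [List.mem_reverse] at hp
  have h1 := hr p hp
  have h2 := ps_le w p hp
  rw [ln_mir]
  obtain ⟨s, hs⟩ : ∃ s, s = (p + r) % (ln w + 1) := ⟨_, rfl⟩
  obtain ⟨t, ht⟩ : ∃ t, t = (p + r) / (ln w + 1) := ⟨_, rfl⟩
  have h3 := Nat.div_add_mod (p + r) (ln w + 1)
  rw [← hs, ← ht] at h3
  rw [← hs] at h1
  have h4 : t ≤ r + 1 := by
    by_contra h5
    push Not at h5
    have h6 : (ln w + 1) * (r + 2) ≤ (ln w + 1) * t := Nat.mul_le_mul_left _ h5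
    have h7 : (ln w + 1) * (r + 2) = ln w * r + r + 2 * ln w + 2 := by ring
    have h8 : 0 ≤ ln w * r := Nat.zero_le _
    omega
  obtain ⟨m, hm⟩ : ∃ m, r + 1 = t + m := ⟨r + 1 - t, by omega⟩
  obtain ⟨q, hq⟩ : ∃ q, q = ln w - p := ⟨_, rfl⟩
  have e : q + (5 + ln w * r) = (4 - s) + (ln w + 1) * m := by
    have e0 : q + p = ln w := by omega
    have e2 : ((4 - s : ℕ) : ℤ) = 4 - s := by omega
    zify at h3 hm e0 ⊢
    rw [e2]
    linear_combination e0 + h3 + (ln w + 1 : ℤ) * hm
  rw [← hq, e, Nat.add_mul_mod_self_left]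
  exact (Nat.mod_le _ _).trans_lt (by omega)

/-- all beads of the T-cycle in five consecutive gaps -/
def W5c (c : Cyc k) : Prop := ∃ x : X k, cyc x = c ∧ 0 < ln x.1 ∧ W5T x.1

theorem W5c_iff {x : X k} (hp : 0 < ln x.1) : W5c (cyc x) ↔ W5T x.1 := by
  constructor
  · rintro ⟨y, hy, hp', h⟩
    exact (W5T.same (cyc_eq.1 hy) hp' h).1
  · intro h
    exact ⟨x, rfl, hp, h⟩

theorem mod_two {L p r : ℕ} (hp : p < L) (hr : r < L) :
    ((p + r) % L = p + r ∧ p + r < L) ∨ ((p + r) % L + L = p + r) := by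
  rcases lt_or_ge (p + r) L with h | h
  · exact Or.inl ⟨Nat.mod_eq_of_lt h, h⟩
  · right
    rw [Nat.mod_eq_sub_mod h, Nat.mod_eq_of_lt (by omega)]
    omega

/-- three places of a ring -/
theorem no5 {x y z L : ℕ} (h1 : x < y) (h2 : y < z) (h3 : z < L) (g1 : y + 5 ≤ x + L) (g2 : z + 5 ≤ y + L)
    (g3 : x + 5 ≤ z) (r : ℕ) (a : (x + r) % L < 5) (b : (y + r) % L < 5) (c : (z + r) % L < 5) : False := by
  rw [← Nat.add_mod_mod] at a b c
  have hr := Nat.mod_lt r (by omega : L > 0)
  rcases mod_two (show x < L by omega) hr with ⟨a1, a2⟩ | a1 <;>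
    rcases mod_two (show y < L by omega) hr with ⟨b1, b2⟩ | b1 <;>
      rcases mod_two h3 hr with ⟨c1, c2⟩ | c1 <;> omega

/-! ### The first maximum of `rr n Φ` -/

variable {n : ℕ} {Φ : ZMod (2 * n + 1) → ℕ}

/-- the first maximum of `ins (ch n) e` -/
theorem FM_ch2 : ∀ (n : ℕ) (e : List ℕ), e.length = 2 * n + 1 →
    ∃ a b, H1.FM (ins (H1.ch n) (bump (H1.ch n) e)) a b ∧ b.length = 1 + n + 2 * (e.drop n).sum ∧
      a = (e.take n).flatMap (fun x => wd (lv x .nil) ++ [true]) ∧
      Tsq.ht (ins (H1.ch n) (bump (H1.ch n) e)) = n + 1 := by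
  intro n
  induction n with
  | zero =>
    intro e he
    obtain ⟨m, rfl⟩ : ∃ m, e = [m] := List.length_eq_one_iff.1 (by simpa using he)
    have e1 : ins (H1.ch 0) (bump (H1.ch 0) [m]) = .nil △ lv m .nil := rfl
    have e2 : Tsq.ht (.nil △ lv m .nil) = 1 := by
      have := ht_lvn m
      rw [Tsq.ht_node]
      change max (0 + 1) _ = 1
      omega
    rw [e1]
    refine ⟨[], false :: wd (lv m .nil), ⟨?_, ?_, ?_⟩, ?_, ?_, ?_⟩
    · rw [wd_node]
      rfl
    · intro q
      rw [e2]
      simp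
    · rw [e2]
      simp
    · rw [List.length_cons, Ft.wd_lv]
      simp
      omega
    · simp
    · exact e2
  | succ n ih =>
    intro e he
    obtain ⟨x, e', rfl⟩ : ∃ x e', e = x :: e' := by
      cases e with
      | nil => simp at he
      | cons x e' => exact ⟨x, e', rfl⟩
    rw [List.length_cons] at he
    obtain ⟨m, y, rfl⟩ : ∃ m y, e' = m ++ [y] := by
      refine ⟨e'.dropLast, e'.getLast (by rintro rfl; simp at he), ?_⟩
      rw [List.dropLast_append_getLast]
    rw [List.length_append, List.length_singleton] at he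
    have hm : m.length = 2 * (H1.ch n).numNodes + 1 := by
      rw [ch_num']
      omega
    have hm' : m.length = 2 * n + 1 := by omega
    obtain ⟨a, b, h1, h2, h4, h3⟩ := ih m hm'
    have e1 : ins (H1.ch (n + 1)) (bump (H1.ch (n + 1)) (x :: (m ++ [y]))) =
        app (lv x .nil) (ins (H1.ch n) (bump (H1.ch n) m) △ lv y .nil) := by
      change ins (H1.ch n △ .nil) (x :: (m ++ [y])) = _
      rw [ins_comp hm, Ft.lv_app']
      rfl
    have e2 := ht_lvn x
    have e3 := ht_lvn y
    have hN := h1.node (Z := lv y .nil) (by omega)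
    have hh : Tsq.ht (ins (H1.ch n) (bump (H1.ch n) m) △ lv y .nil) = n + 2 := by
      rw [Tsq.ht_node]
      omega
    have hL := hN.app_left (P := lv x .nil) (by omega)
    rw [e1]
    refine ⟨_, _, hL, ?_, ?_, ?_⟩
    · rw [List.length_append, List.length_cons, h2, Ft.wd_lv, List.drop_succ_cons,
        List.drop_append_of_le_length (by omega), List.sum_append, List.sum_singleton]
      ring
    · rw [List.take_succ_cons, List.take_append_of_le_length (by omega), List.flatMap_cons, ← h4]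
      simp
    · rw [Tsq.ht_app]
      omega

/-- the first maximum of `rr n Φ` -/
theorem FM_rr (hn : 1 ≤ n) {a b : List Bool} (h : H1.FM (rr n Φ) a b) :
    b.length = 1 + n + 2 * ((lf Φ).drop n).sum ∧
      a = ((lf Φ).take n).flatMap (fun x => wd (lv x .nil) ++ [true]) ∧ Tsq.ht (rr n Φ) = n + 1 ∧
      b.count true = ((lf Φ).drop n).sum ∧ b.length = n + 1 + 2 * b.count true ∧
      a.length + 1 + b.length = 2 * (n + 1 + ∑ x, Φ x) := by
  obtain ⟨a', b', f1, f2, f4, f3⟩ := FM_ch2 n (lf Φ) (by simp [lf])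
  have f1' : H1.FM (rr n Φ) a' b' ∧ Tsq.ht (rr n Φ) = n + 1 := by
    obtain ⟨p, rfl⟩ : ∃ p, n = p + 1 := ⟨n - 1, by omega⟩
    exact ⟨f1, f3⟩
  obtain ⟨rfl, rfl⟩ := h.uniq f1'.1
  have h5 := (FM.facts h).2.2
  rw [f1'.2] at h5
  have hc : b.count true + b.count false = b.length := by
    have := List.length_eq_countP_add_countP (l := b) (· == true)
    have e1 : b.count true = b.countP (· == true) := rfl
    have e2 : b.count false = b.countP (fun x => ¬ (x == true) = true) := by
      unfold List.count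
      apply List.countP_congr
      intro x _
      cases x <;> simp
    omega
  have hl := congrArg List.length h.eq
  rw [wd_length, rr_num hn, List.length_append, List.length_cons] at hl
  exact ⟨f2, f4, f1'.2, by omega, by omega, by omega⟩

/-- a component `()` at the end -/
theorem rr_endA (hn : 1 ≤ n) (h0 : 1 ≤ Φ (-1)) : ∃ M, wd (rr n Φ) = M ++ [true, false] := by
  obtain ⟨D0, hD0, hs⟩ := shape_rr hn Φ
  obtain ⟨t, ht⟩ : ∃ t, Φ (-1) = t + 1 := ⟨Φ (-1) - 1, by omega⟩
  have e : ∀ t : ℕ, wd (lv (t + 1) .nil) = wd (lv t .nil) ++ [true, false] := by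
    intro t
    induction t with
    | zero => rfl
    | succ t ih =>
      have e1 : ∀ t : ℕ, wd (lv (t + 1) .nil) = true :: false :: wd (lv t .nil) := fun t => rfl
      have e2 : true :: false :: (wd (lv t .nil) ++ [true, false]) = wd (lv (t + 1) .nil) ++ [true, false] := rfl
      rw [← e2, ← ih]
      rfl
  rw [hs, ht, Ft.lv_app', wd_app, wd_node, e]
  exact ⟨wd (lv (Φ 0) .nil) ++ (true :: (wd D0 ++ false :: wd (lv t .nil))), by simp⟩

/-! ### A host with a low phase: the second part of the first maximum is long -/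

theorem Fl.wd {t : BinaryTree Unit} (h : Fl t) : ∃ l, OddHC.wd t = true :: false :: l := by
  obtain ⟨Y, rfl⟩ := h
  exact ⟨OddHC.wd Y, rfl⟩

theorem Ll.wd {t : BinaryTree Unit} (h : Ll t) : ∃ l, OddHC.wd t = l ++ [true, false] := by
  obtain ⟨Y, rfl⟩ := h
  exact ⟨OddHC.wd Y, by rw [wd_app]; rfl⟩

theorem snoc2 {L M : List Bool} {x y : Bool} (hb : 2 ≤ L.length) {P : List Bool} (h : P ++ L = M ++ [x, y]) :
    ∃ L', L = L' ++ [x, y] := by
  obtain ⟨L1, L2, h1, h2⟩ : ∃ L1 L2, L = L1 ++ L2 ∧ L2.length = 2 :=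
    ⟨L.take (L.length - 2), L.drop (L.length - 2), (List.take_append_drop _ _).symm, by
      rw [List.length_drop]; omega⟩
  rw [h1, ← List.append_assoc] at h
  have h3 := (List.append_inj' h (by rw [h2]; rfl)).2
  exact ⟨L1, by rw [h1, h3]⟩

/-- the case `n = 2`, `Φ (-1) = 0` -/
theorem two_Z {Φ : ZMod (2 * 2 + 1) → ℕ} (hb : Ba k 2 Φ) (hk : 10 ≤ k) (h0 : Φ 0 = 0) (h4 : Φ (-1) = 0)
    (hm : 2 * ∑ z, Φ z ≤ mo Φ 0) : 2 ≤ ((lf Φ).drop 2).sum := by
  have e4 : (-1 : ZMod (2 * 2 + 1)) = 4 := rfl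
  rw [e4] at h4
  have hsum : ∀ f : ZMod (2 * 2 + 1) → ℕ, ∑ z, f z = f 0 + f 1 + f 2 + f 3 + f 4 := fun f =>
    Fin.sum_univ_five f
  have hs := hsum Φ
  have hmo : mo Φ 0 = 0 * Φ 0 + 1 * Φ 1 + 2 * Φ 2 + 3 * Φ 3 + 4 * Φ 4 := hsum _
  have hd : ((lf Φ).drop 2).sum = Φ 2 + Φ 3 + Φ 4 := by
    have e : lf Φ = [Φ 0, Φ 1, Φ 2, Φ 3, Φ 4] := rfl
    rw [e]
    simp
    omega
  have hkk := hb.hk
  rw [hs] at hm hkk
  rw [hmo] at hm
  rw [hd]
  by_contra h
  have h1 : Φ 1 = 1 ∧ Φ 2 = 0 ∧ Φ 3 = 1 := by omega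
  obtain ⟨h1, h2, h3⟩ := h1
  apply hb.ne
  refine ⟨3, ?_⟩
  have e : ∀ x : ZMod (2 * 2 + 1), adj Φ 0 x = adj Φ (-1) (x + 3) := by
    intro x
    have hx : x = 0 ∨ x = 1 ∨ x = 2 ∨ x = 3 ∨ x = 4 := by
      revert x
      decide
    rw [e4]
    unfold adj
    rcases hx with rfl | rfl | rfl | rfl | rfl
    · have a1 : (0 + 3 : ZMod (2 * 2 + 1)) = 3 := rfl
      rw [a1, if_pos rfl, if_neg (by decide), h0, h3]
    · have a1 : (1 + 3 : ZMod (2 * 2 + 1)) = 4 := rfl
      rw [a1, if_pos rfl, if_neg (by decide), h1, h4]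
    · have a1 : (2 + 3 : ZMod (2 * 2 + 1)) = 0 := rfl
      rw [a1, if_neg (by decide), if_neg (by decide), h2, h0]
    · have a1 : (3 + 3 : ZMod (2 * 2 + 1)) = 1 := rfl
      rw [a1, if_neg (by decide), if_neg (by decide), h3, h1]
    · have a1 : (4 + 3 : ZMod (2 * 2 + 1)) = 2 := rfl
      rw [a1, if_neg (by decide), if_neg (by decide), h4, h2]
  funext x
  exact e x

theorem RuR.mo (h : RuR n Φ) (h0 : Φ (-1) = 0) : Φ 0 = 0 ∧ n * ∑ z, Φ z ≤ mo Φ 0 := by
  rcases h with h | ⟨_, h3, h4⟩
  · omega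
  · refine ⟨h3, ?_⟩
    have h5 := Sq_diff Φ
    by_contra h6
    push Not at h6
    have h7 : (0 : ℤ) < n * ∑ z, (Φ z : ℤ) - L1.mo Φ 0 := by
      have := h6
      zify at this
      linarith
    have h8 : (0 : ℤ) < 2 * (2 * n + 1) * (n * ∑ z, (Φ z : ℤ) - L1.mo Φ 0) := by positivity
    omega

theorem RuM.mo (h : RuM n Φ) (h0 : Φ 0 = 0) : n * ∑ z, rf Φ z ≤ L1.mo (rf Φ) 0 := by
  rcases h.2.2.2 with h1 | ⟨_, h4⟩
  · omega
  · rw [rf_sum]
    have h5 := Sq_diff Φ
    have h6 := mo_rf Φ
    have h7 : (0 : ℤ) < n * ∑ z, (Φ z : ℤ) - L1.mo Φ 0 := by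
      by_contra h8
      push Not at h8
      have h9 : (2 * (2 * n + 1) * (n * ∑ z, (Φ z : ℤ) - L1.mo Φ 0) : ℤ) ≤ 0 :=
        mul_nonpos_of_nonneg_of_nonpos (by positivity) h8
      omega
    have h8 : L1.mo Φ 0 < n * ∑ z, Φ z := by
      zify
      linarith
    have h9 : 2 * n * ∑ z, Φ z = n * ∑ z, Φ z + n * ∑ z, Φ z := by ring
    omega

/-- `b` ends with `()` in the case A -/
theorem FM_endA (hn : 1 ≤ n) (h0 : 1 ≤ Φ (-1)) {a b : List Bool} (hF : H1.FM (rr n Φ) a b) :
    ∃ l, b = l ++ [true, false] := by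
  obtain ⟨M, hM⟩ := rr_endA hn h0
  have h1 := hF.eq
  rw [hM] at h1
  have e : a ++ true :: b = (a ++ [true]) ++ b := by simp
  rw [e] at h1
  have h2 := (FM_n hn hF).2
  exact snoc2 (by omega) h1.symm

/-- right: the second part has at least six letters -/
theorem right6 (hb : Ba k n Φ) (hr : RuR n Φ) (hk : 10 ≤ k) (h2 : 2 ≤ n) {a b : List Bool}
    (hF : H1.FM (rr n Φ) a b) (h3 : ∃ l, b = false :: false :: true :: l) : 6 ≤ b.length := by
  obtain ⟨f1, _, _, f4, f5, _⟩ := FM_rr hb.hn hF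
  obtain ⟨l, hl⟩ := h3
  have hc : b.count true = l.count true + 1 := by rw [hl]; simp
  rcases Nat.lt_or_ge n 3 with h | h
  · obtain rfl : n = 2 := by omega
    by_contra h6
    have h7 : b.count true = 1 := by omega
    rcases Nat.eq_zero_or_pos (Φ (-1)) with h0 | h0
    · obtain ⟨h8, h9⟩ := RuR.mo hr h0
      have := two_Z hb hk h8 h0 h9
      omega
    · obtain ⟨L, hL⟩ := FM_endA hb.hn h0 hF
      have h8 : l.length = 2 := by
        have := congrArg List.length hl
        simp only [List.length_cons] at this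
        omega
      obtain ⟨x, y, rfl⟩ := List.length_eq_two.1 h8
      have e : [false, false, true] ++ [x, y] = L ++ [true, false] := by
        rw [← hL, hl]; rfl
      have h9 := (List.append_inj' e rfl).2
      simp only [List.cons.injEq, and_true] at h9
      rw [h9.1] at hc
      simp at hc
      omega
  · omega

/-- mirrored -/
theorem mir6 (hb : Ba k n Φ) (hr : RuM n Φ) (h3 : 3 ≤ n) {a b : List Bool}
    (hF : H1.FM (rr n (rf Φ)) a b) : 6 ≤ b.length := by
  obtain ⟨f1, _, _, f4, f5, _⟩ := FM_rr hb.hn hF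
  have h1 : 1 ≤ b.count true := by
    rcases Nat.eq_zero_or_pos (Φ 0) with h0 | h0
    · rw [f4]
      exact cm_drop hb.hn (rf Φ) (by rw [rf_sum]; exact hb.one) (RuM.mo hr h0)
    · have h4 : 1 ≤ rf Φ (-1) := by rw [rf_m1]; exact h0
      obtain ⟨l, hl⟩ := FM_endA hb.hn h4 hF
      rw [hl, List.count_append]
      simp
  omega

/-- mirrored, `n = 2`: no hit -/
theorem mir_no2 {Φ : ZMod (2 * 2 + 1) → ℕ} (h0 : Φ 0 = 0) {a b : List Bool} (hF : H1.FM (rr 2 Φ) a b)
    (P M : List Bool) : P ++ true :: false :: false :: a.map not ≠ M ++ [true, false, false] := by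
  obtain ⟨_, f2, _⟩ := FM_rr (by norm_num) hF
  have e1 : (lf Φ).take 2 = [Φ 0, Φ 1] := rfl
  rw [e1, h0] at f2
  have e2 : a = true :: (OddHC.wd (lv (Φ 1) .nil) ++ [true]) := by
    rw [f2]
    simp [List.flatMap_cons]
    rfl
  intro h
  rw [e2] at h
  rcases e : Φ 1 with _ | m
  · rw [e] at h
    have e3 : (true :: (OddHC.wd (lv 0 .nil) ++ [true])).map not = [false, false] := rfl
    rw [e3] at h
    have e4 : P ++ true :: false :: false :: [false, false] = (P ++ [true, false]) ++ [false, false, false] := by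
      simp
    rw [e4] at h
    have := (List.append_inj' h rfl).2
    simp at this
  · rw [e] at h
    have e0 : ∀ t : ℕ, OddHC.wd (lv (t + 1) .nil) = OddHC.wd (lv t .nil) ++ [true, false] := by
      intro t
      induction t with
      | zero => rfl
      | succ t ih =>
        have e2 : true :: false :: (OddHC.wd (lv t .nil) ++ [true, false]) =
            OddHC.wd (lv (t + 1) .nil) ++ [true, false] := rfl
        rw [← e2, ← ih]
        rfl
    have e3 : (true :: (OddHC.wd (lv (m + 1) .nil) ++ [true])).map not =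
        (false :: (OddHC.wd (lv m .nil)).map not) ++ [false, true, false] := by
      rw [e0]
      simp
    rw [e3] at h
    have e4 : P ++ true :: false :: false :: ((false :: (OddHC.wd (lv m .nil)).map not) ++ [false, true, false]) =
        (P ++ true :: false :: false :: false :: (OddHC.wd (lv m .nil)).map not) ++ [false, true, false] := by
      simp
    rw [e4] at h
    have := (List.append_inj' h rfl).2
    simp at this

/-! ### The hit -/

/-- the content of the pair, if the inner word is the host -/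
theorem IW.hit (hn : 1 ≤ n) {w Z : BinaryTree Unit} (h : IW n Φ w) (hX : w = Z △ .nil) :
    OddHC.cont Z = {n + 1} + (Multiset.replicate (∑ x, Φ x) 2 + ({1} + {1} + {1})) ∨
    (OddHC.cont Z = {n + 2} + (Multiset.replicate (∑ x, Φ x) 2 + ({1} + {1})) ∧
      ∃ (a b : List Bool) (v q : ℕ), H1.FM (rr n Φ) a b ∧ v + (a.length + 1) = gH n Φ ∧
        (q + (a.length + 1) = 2 * (n + 1 + ∑ x, Φ x) ∨ q + a.length = 2 * (n + 1 + ∑ x, Φ x) ∨
          q + a.length = 2 * (n + 1 + ∑ x, Φ x) + 1) ∧
        ln Z = 2 * (n + 1 + ∑ x, Φ x) ∧ (∀ y ∈ ps Z, y + 1 = v ∨ y + 1 = q) ∧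
        (∀ y, (y + 1 = v ∨ y + 1 = q) → y ∈ ps Z) ∧
        OddHC.wd (rd (Z △ .nil)) = b.map not ++ true :: false :: false :: a.map not) := by
  have hlef : ∀ (M : Multiset ℕ) (m : ℕ), (∀ x ∈ M, x ≤ 2) → 2 ≤ m → ∀ x ∈ M, x ≤ m := by
    intro M m h1 h2 x hx
    exact (h1 x hx).trans h2
  obtain ⟨a, b, v, q, hF, hv, hg, h | h⟩ := h.ex
  · left
    have hc := h.1
    rw [hX, cont_node, cont_nil, add_zero] at hc
    refine raise_inv2 (by omega) (hlef _ _ ?_ (by omega)) hc
    intro x hx
    simp only [Multiset.mem_add, Multiset.mem_singleton] at hx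
    rcases hx with h | ((h | h) | h)
    · rw [Multiset.eq_of_mem_replicate h]
    · omega
    · omega
    · omega
  · right
    obtain ⟨hc, hw, hl, hp, hq⟩ := h
    rw [hX] at hc hw hl hp
    have hl' := hl
    have hZ : Z ≠ .nil := by
      rintro rfl
      change 0 = _ at hl
      omega
    have e0 : ln (.nil : BinaryTree Unit) = 0 := rfl
    have h1 := ln_node hZ .nil
    have hZp : 0 < ln Z := by omega
    have h2 := ps_node hZp .nil
    rw [ps_nil, List.map_nil, List.append_nil] at h2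
    rw [hp] at h2
    refine ⟨?_, a, b, v, q, hF, hv, hq, by omega, ?_, ?_, hw⟩
    · rw [cont_node, cont_nil, add_zero] at hc
      refine raise_inv2 (by omega) (hlef _ _ ?_ (by omega)) hc
      intro x hx
      simp only [Multiset.mem_add, Multiset.mem_singleton] at hx
      rcases hx with h | (h | h)
      · rw [Multiset.eq_of_mem_replicate h]
      · omega
      · omega
    · intro y hy
      have h3 : y + 1 ∈ [v, q] := by
        rw [h2]
        exact List.mem_map.2 ⟨y, hy, rfl⟩
      simpa using h3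
    · intro y hy
      have h3 : y + 1 ∈ (ps Z).map (· + 1) := by
        rw [← h2]
        simpa using hy
      obtain ⟨y', h4, h5⟩ := List.mem_map.1 h3
      have : y' = y := by omega
      rwa [this] at h4

/-- not in five consecutive gaps -/
theorem not5 (hn : 2 ≤ n) {a b : List Bool} (hF : H1.FM (rr n Φ) a b) (h6 : 6 ≤ b.length) {v q : ℕ}
    (hv : v + (a.length + 1) = gH n Φ)
    (hq : q + (a.length + 1) = 2 * (n + 1 + ∑ x, Φ x) ∨ q + a.length = 2 * (n + 1 + ∑ x, Φ x) ∨
      q + a.length = 2 * (n + 1 + ∑ x, Φ x) + 1) {t : BinaryTree Unit} (hl : ln t = 2 * (n + 1 + ∑ x, Φ x))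
    (hvt : ∀ y, (y + 1 = v ∨ y + 1 = q) → y ∈ ps t) (h0 : ln t ∈ ps t ∨ 0 ∈ ps t ∧ True) : ¬ W5T t := by
  obtain ⟨_, _, _, _, _, f6⟩ := FM_rr (by omega) hF
  have hn' := FM_n (by omega) hF
  have hg : gH n Φ = 2 * (n + 1 + ∑ x, Φ x) - 1 ∨ gH n Φ = 2 * (n + 1 + ∑ x, Φ x) - 3 := by
    unfold gH
    split_ifs
    · left; omega
    · right; omega
  obtain ⟨N, hN⟩ : ∃ N, N = 2 * (n + 1 + ∑ x, Φ x) := ⟨_, rfl⟩
  rw [← hN] at f6 hg hq hl
  obtain ⟨v', rfl⟩ : ∃ v', v = v' + 1 := ⟨v - 1, by omega⟩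
  obtain ⟨q', rfl⟩ : ∃ q', q = q' + 1 := ⟨q - 1, by omega⟩
  have hv1 := hvt v' (Or.inl rfl)
  have hq1 := hvt q' (Or.inr rfl)
  rintro ⟨r, hr⟩
  have r1 := hr _ hv1
  have r2 := hr _ hq1
  rcases h0 with h0 | ⟨h0, _⟩
  · have r3 := hr _ h0
    rw [hl] at r1 r2 r3
    exact no5 (x := v') (y := q') (z := N) (L := N + 1) (by omega) (by omega) (by omega) (by omega) (by omega)
      (by omega) r r1 r2 r3
  · have r3 := hr _ h0
    rw [hl] at r1 r2 r3
    exact no5 (x := 0) (y := v') (z := q') (L := N + 1) (by omega) (by omega) (by omega) (by omega) (by omega)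
      (by omega) r r3 r1 r2

/-- **the late pairs**: content `(s, 2^b, 1^3)`, `4 ≤ s`, the three beads are not in five consecutive gaps -/
def LJ1 (F : Set (Cyc k)) : Prop :=
  ∀ c ∈ F, (∃ s b : ℕ, 4 ≤ s ∧ 1 ≤ b ∧ OddHC.contc c = {s} + (Multiset.replicate b 2 + ({1} + {1} + {1}))) ∧
    ¬ W5c c

/-- two words of a pair -/
theorem pair_LJ {F' : Set (Cyc k)} {g' : DG k} {Z : BinaryTree Unit} (hT : IsTri .nil Z .nil F' g')
    {P : BinaryTree Unit → Prop} (h1 : P (app Z lf0)) (h2 : P (.nil △ Z)) :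
    ∀ c ∈ F', ∃ x : X k, cyc x = c ∧ P x.1 := by
  obtain ⟨a, b, c, ha, hb, hc, _, _, _, rfl, _⟩ := hT
  rintro d (rfl | rfl)
  · exact ⟨b, rfl, by rw [hb]; exact h1⟩
  · exact ⟨c, rfl, by rw [hc]; exact h2⟩

end L1

open L1 J H1 Ft

variable {F F' : Set (Cyc k)} {g g' : DG k}

/-- **I-L1-E**: an inner word of L1 in a triple of type E: the pair is one lower, or late, or both have height 3 -/
theorem TyL1.inner_E_hit (hk : 10 ≤ k) (hL : TyL1 F g) (hE : TyE F' g') {p : X k × X k} (hp : p ∈ g.arcs)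
    {w : X k} (hw : w ∈ innA p) (h2 : w ∈ g'.B) :
    (∀ c ∈ F, ∀ d ∈ F', htc d + 1 = htc c) ∨
    ((∀ c ∈ F, ∀ d ∈ F', htc d = htc c) ∧ (LJ1 F' ∨ ∀ d ∈ F', ∃ b : ℕ, 1 ≤ b ∧ b + b + 6 = k ∧
      OddHC.contc d = {3} + (Multiset.replicate b 2 + ({1} + {1} + {1})))) := by
  obtain ⟨hI, hC⟩ := hL.ic (by omega) hp hw
  obtain ⟨j, r, f, hj, hlow, hT⟩ := hE
  obtain ⟨Z, hZ⟩ : ∃ Z, Z = ins r.1 (lf f) := ⟨_, rfl⟩
  rw [← hZ] at hT
  have hX : w.1 = Z △ .nil := by
    rcases hT.words w h2 with h | ⟨_, h | h⟩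
    · exact h
    · exact absurd (h : w.1 = app Z lf0) hI.not_last
    · exact absurd (h : w.1 = .nil △ Z) hI.not_first
  have hlen : (lf f).length = 2 * r.1.numNodes + 1 := by rw [lf_length, X_num]
  have hcm : OddHC.cont (app Z lf0) = OddHC.cont Z + {1} := by rw [cont_app, c_lf0]
  have hcb : OddHC.cont (.nil △ Z) = {1} + OddHC.cont Z := cont_bead Z
  -- contents of the members
  have hm : ∀ d ∈ F', OddHC.contc d = OddHC.cont Z + {1} := by
    intro d hd
    obtain ⟨x, rfl, hx⟩ := pair_LJ hT (P := fun t => OddHC.cont t = OddHC.cont Z + {1}) hcm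
      (by rw [hcb, add_comm]) d hd
    exact hx
  have hsup : ∀ (n b : ℕ) (M : Multiset ℕ), 1 ≤ n → (∀ x ∈ M, x ≤ 2) → ({n + 1} + M : Multiset ℕ).sup = n + 1 := by
    intro n b M hn hM
    rw [Multiset.sup_add, Multiset.sup_singleton]
    exact sup_eq_left.2 (Multiset.sup_le.2 fun x hx => (hM x hx).trans (by omega))
  have hle3 : ∀ b : ℕ, ∀ x ∈ (Multiset.replicate b 2 + ({1} + {1} + {1}) : Multiset ℕ), x ≤ 2 := by
    intro b x hx
    simp only [Multiset.mem_add, Multiset.mem_singleton] at hx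
    rcases hx with h | ((h | h) | h)
    · rw [Multiset.eq_of_mem_replicate h]
    · omega
    · omega
    · omega
  have hadd1 : ∀ (m b : ℕ), OddHC.cont Z = {m} + (Multiset.replicate b 2 + ({1} + {1})) →
      ∀ d ∈ F', OddHC.contc d = {m} + (Multiset.replicate b 2 + ({1} + {1} + {1})) := by
    intro m b h d hd
    rw [hm d hd, h]
    simp only [add_assoc]
  have hF : ∀ (n b : ℕ), 1 ≤ n → (∀ c ∈ F, OddHC.contc c = {n + 2} + Multiset.replicate b 2 + {1}) →
      ∀ c ∈ F, htc c = n + 2 := by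
    intro n b hn h c hc
    have := hsup (n + 1) 0 (Multiset.replicate b 2 + {1}) (by omega) (fun x hx => le_M hx)
    unfold htc
    rw [h c hc, add_assoc]
    exact this
  obtain ⟨n, Φ, hb, hcF, hcase⟩ := hL.iw (by omega) hp hw
  have hn := hb.hn
  have hk' := hb.hk
  have hFh := hF n _ hn hcF
  have hhit : OddHC.cont Z = {n + 1} + (Multiset.replicate (∑ x, Φ x) 2 + ({1} + {1} + {1})) ∨
      (OddHC.cont Z = {n + 2} + (Multiset.replicate (∑ x, Φ x) 2 + ({1} + {1})) ∧
        (2 ≤ n → ¬ W5T (app Z lf0) ∧ ¬ W5T (.nil △ Z) ∧ 0 < ln Z)) := by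
    have hl0 : ln lf0 = 0 := rfl
    have hp0 : ps lf0 = [0] := rfl
    rcases hcase with ⟨hr, h1⟩ | ⟨hr, h1⟩
    · rcases h1.hit hn hX with h | ⟨hc, a, b, v, q, hFM, hv, hq, hlZ, _, hps, hwd⟩
      · exact Or.inl h
      · right
        refine ⟨hc, fun h2n => ?_⟩
        -- the low phase
        have hfl : Fl (rd Z) := Low.fl hZ hlen hlow (by
          rw [hc, Multiset.count_add, Multiset.count_add, Multiset.count_replicate_self]
          have := hb.one
          omega)
        obtain ⟨l, hl⟩ := hfl.wd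
        have hb3 : ∃ l, b = false :: false :: true :: l := by
          have hZn : Z ≠ .nil := by
            rintro rfl
            change 0 = _ at hlZ
            omega
          rw [rd_node hZn, wd_node, hl] at hwd
          have hbl := (FM_n hn hFM).2
          rcases b with _ | ⟨x, _ | ⟨y, _ | ⟨z, b⟩⟩⟩
          · simp at hbl
          · simp at hbl; omega
          · simp at hbl; omega
          · simp only [List.map_cons, List.cons_append, List.cons.injEq] at hwd
            obtain ⟨e1, e2, e3, _⟩ := hwd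
            have hx : x = false := by
              cases x
              · rfl
              · exact absurd e1 (by decide)
            have hy : y = false := by
              cases y
              · rfl
              · exact absurd e2 (by decide)
            have hz : z = true := by
              cases z
              · exact absurd e3 (by decide)
              · rfl
            exact ⟨b, by rw [hx, hy, hz]⟩
        have h6 := right6 hb hr hk h2n hFM hb3
        refine ⟨not5 h2n hFM h6 hv hq (t := app Z lf0) ?_ ?_ ?_, not5 h2n hFM h6 hv hq (t := .nil △ Z) ?_ ?_ ?_, by omega⟩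
        · rw [ln_app, hl0]; exact hlZ
        · intro y hy
          rw [ps_app, List.mem_append]
          exact Or.inl (hps y hy)
        · left
          rw [ln_app, hl0, ps_app, List.mem_append, hp0]
          right
          simp
        · rw [ln_leaf]; exact hlZ
        · intro y hy
          rw [ps_leaf]
          exact List.mem_cons_of_mem _ (hps y hy)
        · right
          rw [ps_leaf]
          simp
    · have hX' : Tsq.mir w.1 = Tsq.mir Z △ .nil := by
        rw [hX, mir_node]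
        rfl
      have hs : ∑ x, rf Φ x = ∑ x, Φ x := rf_sum Φ
      rcases h1.hit hn hX' with h | ⟨hc, a, b, v, q, hFM, hv, hq, hlZ, _, hps, hwd⟩
      · left
        rwa [HM.cont_mir, hs] at h
      · right
        rw [HM.cont_mir, hs] at hc
        refine ⟨hc, fun h2n => ?_⟩
        have hfl : Fl (rd Z) := Low.fl hZ hlen hlow (by
          rw [hc, Multiset.count_add, Multiset.count_add, Multiset.count_replicate_self]
          have := hb.one
          omega)
        have hll : Ll (rd (Tsq.mir Z)) := by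
          rw [rd_mir]
          exact hfl.mir
        obtain ⟨l, hl⟩ := hll.wd
        have hZn : Tsq.mir Z ≠ .nil := by
          intro h
          rw [h] at hlZ
          change 0 = _ at hlZ
          omega
        rw [rd_node hZn, wd_node, hl] at hwd
        have h3 : 3 ≤ n := by
          by_contra h3
          obtain rfl : n = 2 := by omega
          have h0 : rf Φ 0 = 0 := by
            rw [(rf_zero Φ).1]
            exact hr.2.1
          refine mir_no2 h0 hFM (b.map not) (true :: l) ?_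
          rw [← hwd]
          change _ = true :: (l ++ [true, false, false])
          simp
          rfl
        have h6 := mir6 hb hr h3 hFM
        have k1 : ¬ W5T (app (Tsq.mir Z) lf0) := by
          refine not5 h2n hFM h6 hv hq ?_ ?_ ?_
          · rw [ln_app, hl0]; exact hlZ
          · intro y hy
            rw [ps_app, List.mem_append]
            exact Or.inl (hps y hy)
          · left
            rw [ln_app, hl0, ps_app, List.mem_append, hp0]
            right
            simp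
        have k2 : ¬ W5T (.nil △ Tsq.mir Z) := by
          refine not5 h2n hFM h6 hv hq ?_ ?_ ?_
          · rw [ln_leaf]; exact hlZ
          · intro y hy
            rw [ps_leaf]
            exact List.mem_cons_of_mem _ (hps y hy)
          · right
            rw [ps_leaf]
            simp
        rw [ln_mir] at hlZ
        refine ⟨fun h => k2 ?_, fun h => k1 ?_, by omega⟩
        · have := h.mir
          rwa [Tsq.mir_app] at this
        · have := h.mir
          rwa [mir_node] at this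
  rcases hhit with h | ⟨h, h5⟩
  · left
    intro c hc d hd
    rw [hFh c hc]
    have h1 : OddHC.contc d = {n + 1} + (Multiset.replicate (∑ x, Φ x) 2 + ({1} + {1} + {1}) + {1}) := by
      rw [hm d hd, h]
      simp only [add_assoc]
    have h2 := hsup n 0 (Multiset.replicate (∑ x, Φ x) 2 + ({1} + {1} + {1}) + {1}) hn (by
      intro x hx
      rcases Multiset.mem_add.1 hx with hx | hx
      · exact hle3 _ x hx
      · rw [Multiset.mem_singleton] at hx; omega)
    unfold htc
    rw [h1, h2]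
  · right
    have h1 := hadd1 _ _ h
    refine ⟨?_, ?_⟩
    · intro c hc d hd
      rw [hFh c hc]
      unfold htc
      rw [h1 d hd]
      exact hsup (n + 1) 0 _ (by omega) (hle3 _)
    · rcases Nat.lt_or_ge n 2 with h2n | h2n
      · right
        obtain rfl : n = 1 := by omega
        intro d hd
        exact ⟨_, hb.one, by omega, h1 d hd⟩
      · left
        obtain ⟨h6, h7, h8⟩ := h5 h2n
        have h9 := pair_LJ hT (P := fun t => ¬ W5T t ∧ 0 < ln t) ⟨h6, by
          rw [ln_app]; exact Nat.add_pos_left h8 _⟩ ⟨h7, by rw [ln_leaf]; exact h8⟩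
        intro d hd
        refine ⟨⟨n + 2, _, by omega, hb.one, h1 d hd⟩, ?_⟩
        obtain ⟨x, rfl, hx1, hx2⟩ := h9 d hd
        rw [W5c_iff hx2]
        exact hx1

end Pool.OddHC
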