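import Pool.Agent.Work.MP_8f87b2_h32.L1E2

/-!
# MP_8f87b2_co: the old words of L1 are in no late pair
-/

set_option autoImplicit false

namespace Pool.OddHC

open Finset Equiv BinaryTree Pool.Agent.Work.MP_8f87b2_co

variable {k : ℕ}

namespace L1

open H1 J Ft

variable {n : ℕ} {Φ : ZMod (2 * n + 1) → ℕ}

theorem m5 {x L : ℕ} (hL : 5 ≤ L) (h : x < 5 ∨ (L ≤ x ∧ x < L + 5)) : x % L < 5 := by
  rcases h with h | ⟨h1, h2⟩
  · exact (Nat.mod_le _ _).trans_lt h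
  · rw [Nat.mod_eq_sub_mod h1]
    exact (Nat.mod_le _ _).trans_lt (by omega)

/-- the words with three beads are in five consecutive gaps -/
theorem old5 (hn : 1 ≤ n) (Φ : ZMod (2 * n + 1) → ℕ) {i : ℕ} (hi : i < 20) (h5 : i ≠ 5)
    (h3 : (ps (H1.W (RH n Φ) .nil (Tsq.sq (RH n Φ)).2 (Tsq.sq (RH n Φ)).1 i)).length = 3) :
    W5T (H1.W (RH n Φ) .nil (Tsq.sq (RH n Φ)).2 (Tsq.sq (RH n Φ)).1 i) ∧
      0 < ln (H1.W (RH n Φ) .nil (Tsq.sq (RH n Φ)).2 (Tsq.sq (RH n Φ)).1 i) := by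
  obtain ⟨d1, d2, d3⟩ := RH_dat hn Φ
  have hg : gH n Φ = 2 * (n + 1 + ∑ x, Φ x) - 1 ∨ gH n Φ = 2 * (n + 1 + ∑ x, Φ x) - 3 := by
    unfold gH
    split_ifs
    · left; omega
    · right; omega
  obtain ⟨N, hN⟩ : ∃ N, N = 2 * (n + 1 + ∑ x, Φ x) := ⟨_, rfl⟩
  have hN4 : 4 ≤ N := by omega
  have hle : Φ (-1) ≤ ∑ x, Φ x := Finset.single_le_sum (fun x _ => Nat.zero_le (Φ x)) (Finset.mem_univ (-1))
  have hRp : 0 < ln (RH n Φ) := by omega
  rcases Nat.eq_zero_or_pos (Φ (-1)) with h0 | h0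
  · obtain ⟨s1, s2, s3⟩ := S_Z hn Φ h0
    have hB := caseB2 hn Φ h0
    obtain ⟨l, p⟩ := LN_PP (R := RH n Φ) (B := (Tsq.sq (RH n Φ)).2) (S := (Tsq.sq (RH n Φ)).1) hRp
      (by omega) (Or.inl hB) hi
    rw [d3, hB, s3, d2, s2, ps_nil, ← hN] at p
    have l0 : ln (.nil : BinaryTree Unit) = 0 := rfl
    rw [hB, d2, s2, l0, ← hN] at l
    rw [← hN] at hg
    rw [l0] at p
    rw [hB] at h3 ⊢
    rw [p] at h3
    unfold W5T
    rw [l, p]
    have key : ∀ r : ℕ, ∀ x y z L : ℕ, L = N → (x + r < 5 ∨ (N + 1 ≤ x + r ∧ x + r < N + 1 + 5)) →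
        (y + r < 5 ∨ (N + 1 ≤ y + r ∧ y + r < N + 1 + 5)) → (z + r < 5 ∨ (N + 1 ≤ z + r ∧ z + r < N + 1 + 5)) →
        (∃ r : ℕ, ∀ t ∈ [x, y, z], (t + r) % (L + 1) < 5) ∧ 0 < L := by
      intro r x y z L hL a b c
      rw [hL]
      refine ⟨⟨r, ?_⟩, by omega⟩
      intro t ht
      simp only [List.mem_cons, List.not_mem_nil, or_false] at ht
      rcases ht with rfl | rfl | rfl
      · exact m5 (by omega) a
      · exact m5 (by omega) b
      · exact m5 (by omega) c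
    interval_cases i <;> first
      | exact absurd rfl h5
      | (exfalso; simp [PP] at h3; done)
      | skip
    · exact key 4 (gH n Φ) N N N rfl (by omega) (by omega) (by omega)
    · exact key 4 0 (gH n Φ) N N rfl (by omega) (by omega) (by omega)
    · exact key 3 0 0 (N - 2 + 0) _ (by change 0 + N = N; omega) (by omega) (by omega) (by omega)
    · exact key 3 (N - 2) N N N rfl (by omega) (by omega) (by omega)
    · exact key 3 0 (N - 2) N N rfl (by omega) (by omega) (by omega)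
  · obtain ⟨D1, Y, _, e1, e2⟩ := S_A hn Φ h0
    obtain ⟨_, b2, b3⟩ := B_A hn Φ h0
    have pS : ps (Tsq.sq (RH n Φ)).1 = [] := by rw [e2, ps_inf]
    have hs := ln_sq hRp
    have hSp : 0 < ln (Tsq.sq (RH n Φ)).1 := by
      rw [ln_eq, e1]
      change 0 < 2 * (D1.numNodes + Y.numNodes + 1)
      omega
    obtain ⟨l, p⟩ := LN_PP (R := RH n Φ) (B := (Tsq.sq (RH n Φ)).2) (S := (Tsq.sq (RH n Φ)).1) hRp hSp (Or.inr (show 0 < ln (Tsq.sq (RH n Φ)).2 by omega)) hi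
    rw [d3, b3, pS, d2, b2, ← hN] at p
    rw [d2, b2, ← hN] at l
    rw [← hN] at hg
    rw [p] at h3
    unfold W5T
    rw [l, p]
    obtain ⟨s, hs'⟩ : ∃ s, s = ln (Tsq.sq (RH n Φ)).1 := ⟨_, rfl⟩
    rw [b2, d2, ← hN, ← hs'] at hs
    rw [← hs'] at h3 ⊢
    have hb0 : ¬ (2 * Φ (-1) = 0) := by omega
    have key : ∀ r : ℕ, ∀ x y z L : ℕ, L = N → (x + r < 5 ∨ (N + 1 ≤ x + r ∧ x + r < N + 1 + 5)) →
        (y + r < 5 ∨ (N + 1 ≤ y + r ∧ y + r < N + 1 + 5)) → (z + r < 5 ∨ (N + 1 ≤ z + r ∧ z + r < N + 1 + 5)) →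
        (∃ r : ℕ, ∀ t ∈ [x, y, z], (t + r) % (L + 1) < 5) ∧ 0 < L := by
      intro r x y z L hL a b c
      rw [hL]
      refine ⟨⟨r, ?_⟩, by omega⟩
      intro t ht
      simp only [List.mem_cons, List.not_mem_nil, or_false] at ht
      rcases ht with rfl | rfl | rfl
      · exact m5 (by omega) a
      · exact m5 (by omega) b
      · exact m5 (by omega) c
    interval_cases i <;> first
      | exact absurd rfl h5
      | (exfalso; simp [PP, hb0] at h3; done)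
      | skip
    · exact key 4 (gH n Φ) N N N rfl (by omega) (by omega) (by omega)
    · exact key 4 0 (gH n Φ) N N rfl (by omega) (by omega) (by omega)
    · exact key (N + 1 - (2 * Φ (-1) - 1)) (2 * Φ (-1) - 1) (2 * Φ (-1)) (2 * Φ (-1)) _
        (by change 2 * Φ (-1) + s = N; omega) (by omega) (by omega) (by omega)

end L1

open L1 J H1 Ft

variable {F F' : Set (Cyc k)} {g g' : DG k}

/-- **the words of L1 are in no late pair** -/
theorem TyL1.old_not_LJ (hL : TyL1 F g) {w : X k} (h1 : w ∈ g.B) (h2 : cyc w ∈ F') (h3 : LJ1 F') : False := by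
  obtain ⟨⟨s, b, h4, _, h5⟩, h6⟩ := h3 _ h2
  have h7 : (ps w.1).length = 3 := by
    rw [ps_length]
    have e : OddHC.cont w.1 = {s} + (Multiset.replicate b 2 + ({1} + {1} + {1})) := h5
    rw [e]
    simp only [Multiset.count_add, Multiset.count_replicate, Multiset.count_singleton]
    rw [if_neg (by omega), if_neg (by norm_num)]
    norm_num
  rcases hL with ⟨n, Φ, w0, hb, hr, rfl, rfl⟩ | ⟨n, Φ, w0, hb, hr, rfl, rfl⟩
  · obtain ⟨i, hi, hi5, rfl⟩ := mem_gadJx.1 h1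
    have hv := xw_val hb.hn hb.hk w0 hi
    have h8 : (ps (H1.W (RH n Φ) .nil (Tsq.sq (RH n Φ)).2 (Tsq.sq (RH n Φ)).1 i)).length = 3 := by
      rw [← hv]; exact h7
    obtain ⟨h9, h10⟩ := old5 hb.hn Φ hi hi5 h8
    rw [← hv] at h9 h10
    exact h6 ((W5c_iff h10).2 h9)
  · obtain ⟨i, hi, hi5, rfl⟩ := mem_gadJM.1 h1
    have e : Tsq.mir (xm n Φ w0 i).1 = (xw n (rf Φ) w0 i).1 := Tsq.mir_mir _
    have hv := xw_val (k := k) hb.hn (Φ := rf Φ) (by rw [rf_sum]; exact hb.hk) w0 hi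
    rw [← e] at hv
    have h8 : (ps (H1.W (RH n (rf Φ)) .nil (Tsq.sq (RH n (rf Φ))).2 (Tsq.sq (RH n (rf Φ))).1 i)).length = 3 := by
      rw [← hv, ps_mir, List.length_map, List.length_reverse]
      exact h7
    obtain ⟨h9, h10⟩ := old5 hb.hn (rf Φ) hi hi5 h8
    rw [← hv] at h9 h10
    have h11 := h9.mir
    rw [Tsq.mir_mir] at h11
    rw [ln_mir] at h10
    exact h6 ((W5c_iff h10).2 h11)

end Pool.OddHC
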