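import Pool.Agent.Work.MP_8f87b2_h11.T2

/-!
# The words of a gadget with a hidden bead against plain triples over one word

`EN`: no bead at the ends of `R`, `S`, `B`. `EN.E`: a word `W R nil B S i` of the form `(X)`, `X()`, `()X` determines `X`.
-/

set_option autoImplicit false

namespace Pool.OddHC

open BinaryTree Pool.Agent.Work.MP_8f87b2_co

namespace L1

/-- the component `()` -/
abbrev lf0 : BinaryTree Unit := .nil △ .nil

/-- no component `()` at the ends -/
structure Nb (t : BinaryTree Unit) : Prop where
  ne : t ≠ .nil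
  f : ∀ Y, t ≠ .nil △ Y
  l : ∀ Y, t ≠ app Y lf0

theorem Nb.of_ps {t : BinaryTree Unit} (h0 : 0 < Ft.ln t) (h1 : 0 ∉ Ft.ps t) (h2 : Ft.ln t ∉ Ft.ps t) :
    Nb t := by
  refine ⟨?_, ?_, ?_⟩
  · rintro rfl
    exact absurd h0 (by simp [Ft.ln_nil])
  · rintro Y rfl
    apply h1
    rw [Ft.ps_leaf]
    simp
  · rintro Y rfl
    apply h2
    rw [Ft.ps_app, Ft.ln_app]
    have e1 : Ft.ps lf0 = [0] := rfl
    have e2 : Ft.ln lf0 = 0 := rfl
    rw [e1, e2]
    simp

theorem Nb.mir {t : BinaryTree Unit} (h : Nb t) : Nb (Tsq.mir t) := by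
  refine ⟨Ft.mir_ne h.ne, ?_, ?_⟩
  · intro Y e
    apply h.l (Tsq.mir Y)
    rw [← Tsq.mir_mir t, e]
    rfl
  · intro Y e
    apply h.f (Tsq.mir Y)
    rw [← Tsq.mir_mir t, e, Tsq.mir_app]
    rfl

/-- the components of `t` -/
theorem Nb.comps {t : BinaryTree Unit} (h : Nb t) : (∃ A L, comps t = A :: L ∧ A ≠ .nil) ∧
    ∃ A L, comps t = L ++ [A] ∧ A ≠ .nil := by
  obtain ⟨h1, h2, h3⟩ := h
  have hc : OddHC.comps t ≠ [] := comps_ne h1
  constructor
  · cases t with
    | nil => exact absurd rfl h1
    | node _ A B =>
      refine ⟨A, OddHC.comps B, rfl, ?_⟩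
      rintro rfl
      exact h2 B rfl
  · refine ⟨(OddHC.comps t).getLast hc, (OddHC.comps t).dropLast, (List.dropLast_append_getLast hc).symm, ?_⟩
    intro e
    have e1 := List.dropLast_append_getLast hc
    rw [e] at e1
    have key : ∀ L : List (BinaryTree Unit), ∃ Y, OddHC.comps Y = L := by
      intro L
      induction L with
      | nil => exact ⟨.nil, rfl⟩
      | cons A L ih =>
        obtain ⟨Y, hY⟩ := ih
        exact ⟨A △ Y, by rw [comps_node, hY]⟩
    obtain ⟨Y, hY⟩ := key (OddHC.comps t).dropLast
    apply h3 Y
    apply comps_inj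
    rw [comps_app, hY]
    exact e1.symm

/-- no bead at the ends -/
structure EN (R B S : BinaryTree Unit) : Prop where
  R : Nb R
  S : Nb S
  B : B = .nil ∨ Nb B

/-- the candidates for `X` -/
inductive Xc (R B S : BinaryTree Unit) : BinaryTree Unit → Prop
  | r1 : Xc R B S (app R lf0)
  | r2 : Xc R B S (.nil △ R)
  | r3 : Xc R B S (R △ .nil)
  | s1 : Xc R B S (S △ B)
  | s2 : Xc R B S (app S (B △ .nil))
  | s3 : B = .nil → Xc R B S (.nil △ S)

theorem app_ne_r {P A Q : BinaryTree Unit} : app P (A △ Q) ≠ .nil := by
  cases P with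
  | nil => simp [app]
  | node _ _ _ => simp [app]

/-- three forms, in components -/
theorem forms {X : BinaryTree Unit} {L : List (BinaryTree Unit)}
    (hw : L = comps (X △ .nil) ∨ L = comps (app X lf0) ∨ L = comps (.nil △ X)) :
    L = [X] ∨ L = comps X ++ [.nil] ∨ L = .nil :: comps X := by
  rcases hw with e | e | e
  · left; rw [e]; rfl
  · right; left; rw [e, comps_app]; rfl
  · right; right; rw [e]; rfl

theorem lst {L L' : List (BinaryTree Unit)} {a b : BinaryTree Unit} (e : L ++ [a] = L' ++ [b]) :
    L = L' ∧ a = b := by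
  have := List.append_inj' e rfl
  exact ⟨this.1, by simpa using this.2⟩

theorem EN.E {R B S X : BinaryTree Unit} (h : EN R B S) {i : ℕ} (hi : i < 20) (h5 : i ≠ 5)
    (hw : H1.W R .nil B S i = X △ .nil ∨ H1.W R .nil B S i = app X lf0 ∨
      H1.W R .nil B S i = .nil △ X) : Xc R B S X := by
  obtain ⟨hR, hS, hB⟩ := h
  obtain ⟨⟨Rf, Rt, eRf, nRf⟩, ⟨Rl, Ri, eRl, nRl⟩⟩ := hR.comps
  obtain ⟨⟨Sf, St, eSf, nSf⟩, ⟨Sl, Si, eSl, nSl⟩⟩ := hS.comps
  have hRn := hR.ne
  have hSn := hS.ne
  have lR := List.length_pos_iff.2 (comps_ne hRn)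
  have lS := List.length_pos_iff.2 (comps_ne hSn)
  have cn : comps (BinaryTree.nil : BinaryTree Unit) = [] := rfl
  have r1 : comps X = comps R ++ [.nil] → Xc R B S X := by
    intro e
    have : X = app R lf0 := comps_inj (by rw [e, comps_app]; rfl)
    rw [this]
    exact .r1
  have r2 : comps X = .nil :: comps R → Xc R B S X := by
    intro e
    have : X = .nil △ R := comps_inj (by rw [e]; rfl)
    rw [this]
    exact .r2
  have r3 : comps X = [R] → Xc R B S X := by
    intro e
    have : X = R △ .nil := comps_inj (by rw [e]; rfl)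
    rw [this]
    exact .r3
  have s1 : comps X = S :: comps B → Xc R B S X := by
    intro e
    have : X = S △ B := comps_inj (by rw [e]; rfl)
    rw [this]
    exact .s1
  have s2 : comps X = comps S ++ [B] → Xc R B S X := by
    intro e
    have : X = app S (B △ .nil) := comps_inj (by rw [e, comps_app]; rfl)
    rw [this]
    exact .s2
  have s3 : B = .nil → comps X = .nil :: comps S → Xc R B S X := by
    intro h0 e
    have : X = .nil △ S := comps_inj (by rw [e]; rfl)
    rw [this]
    exact .s3 h0
  have hw' : comps (H1.W R .nil B S i) = [X] ∨ comps (H1.W R .nil B S i) = comps X ++ [.nil] ∨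
      comps (H1.W R .nil B S i) = .nil :: comps X := by
    apply forms
    rcases hw with e | e | e
    · exact Or.inl (congrArg comps e)
    · exact Or.inr (Or.inl (congrArg comps e))
    · exact Or.inr (Or.inr (congrArg comps e))
  clear hw
  have hBB : (B = .nil) ∨ (∃ Bf Bt Bl Bi, comps B = Bf :: Bt ∧ Bf ≠ .nil ∧ comps B = Bi ++ [Bl] ∧ Bl ≠ .nil) := by
    rcases hB with h | h
    · exact Or.inl h
    · obtain ⟨⟨Bf, Bt, eBf, nBf⟩, ⟨Bl, Bi, eBl, nBl⟩⟩ := h.comps
      exact Or.inr ⟨Bf, Bt, Bl, Bi, eBf, nBf, eBl, nBl⟩
  -- the head of a list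
  have hd : ∀ {a b : BinaryTree Unit} {L L' : List (BinaryTree Unit)}, a :: L = b :: L' → a = b ∧ L = L' := by
    intro a b L L' e
    exact ⟨(List.cons.inj e).1, (List.cons.inj e).2⟩
  have one : ∀ {a : BinaryTree Unit}, a ≠ .nil → ([a] = [X] ∨ [a] = comps X ++ [.nil] ∨ [a] = .nil :: comps X) →
      X = a := by
    intro a ha h
    rcases h with e | e | e
    · simpa using e.symm
    · exact absurd (lst (L := []) e).2 ha
    · exact absurd (hd e).1 ha
  interval_cases i
  · -- 0
    exfalso
    change comps (app R (lf0 △ .nil)) = _ ∨ comps (app R (lf0 △ .nil)) = _ ∨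
      comps (app R (lf0 △ .nil)) = _ at hw'
    rw [comps_app, comps_node, cn] at hw'
    rcases hw' with e | e | e
    · have := congrArg List.length e
      simp only [List.length_append, List.length_singleton] at this
      omega
    · exact absurd (lst e).2 (by simp)
    · rw [eRf] at e
      exact nRf (hd e).1
  · -- 1
    change comps (app R (.nil △ lf0)) = _ ∨ comps (app R (.nil △ lf0)) = _ ∨
      comps (app R (.nil △ lf0)) = _ at hw'
    rw [comps_app, comps_node] at hw'
    change comps R ++ [.nil, .nil] = _ ∨ comps R ++ [.nil, .nil] = _ ∨ comps R ++ [.nil, .nil] = _ at hw'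
    rcases hw' with e | e | e
    · have := congrArg List.length e
      simp at this
    · have e1 : comps R ++ [.nil, .nil] = (comps R ++ [.nil]) ++ [.nil] := by simp
      rw [e1] at e
      exact r1 (lst e).1.symm
    · rw [eRf] at e
      exact absurd (hd e).1 nRf
  · -- 2
    change comps (.nil △ app R lf0) = _ ∨ comps (.nil △ app R lf0) = _ ∨
      comps (.nil △ app R lf0) = _ at hw'
    rw [comps_node, comps_app] at hw'
    rcases hw' with e | e | e
    · have := congrArg List.length e
      simp only [List.length_cons, List.length_append, List.length_nil] at this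
      omega
    · have e1 : BinaryTree.nil :: (comps R ++ comps lf0) = (.nil :: comps R) ++ [.nil] := rfl
      rw [e1] at e
      exact r2 (lst e).1.symm
    · exact r1 (hd e).2.symm
  · -- 3
    have := one (a := app R lf0) app_ne_r hw'
    rw [this]
    exact .r1
  · -- 4
    exfalso
    change comps (lf0 △ R) = _ ∨ comps (lf0 △ R) = _ ∨ comps (lf0 △ R) = _ at hw'
    rw [comps_node] at hw'
    rcases hw' with e | e | e
    · have := congrArg List.length e
      simp only [List.length_cons, List.length_nil] at this
      omega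
    · rw [eRl] at e
      rw [← List.cons_append] at e
      exact nRl (lst e).2
    · exact absurd (hd e).1 (by simp)
  · exact absurd rfl h5
  · -- 6
    change [R, .nil] = _ ∨ [R, .nil] = _ ∨ [R, .nil] = _ at hw'
    rcases hw' with e | e | e
    · simp at e
    · have e1 : [R, BinaryTree.nil] = [R] ++ [.nil] := rfl
      rw [e1] at e
      exact r3 (lst e).1.symm
    · exact absurd (hd e).1 hRn
  · -- 7
    have := one (a := .nil △ R) (by simp) hw'
    rw [this]
    exact .r2
  · -- 8
    change [.nil, R] = _ ∨ [.nil, R] = _ ∨ [.nil, R] = _ at hw'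
    rcases hw' with e | e | e
    · simp at e
    · have e1 : [BinaryTree.nil, R] = [.nil] ++ [R] := rfl
      rw [e1] at e
      exact absurd (lst e).2 hRn
    · exact r3 (hd e).2.symm
  · -- 9
    have := one (a := R △ .nil) (by simp) hw'
    rw [this]
    exact .r3
  · -- 10
    exfalso
    change comps (app B (lf0 △ S)) = _ ∨ comps (app B (lf0 △ S)) = _ ∨ comps (app B (lf0 △ S)) = _ at hw'
    rw [comps_app, comps_node] at hw'
    rcases hw' with e | e | e
    · have := congrArg List.length e
      simp only [List.length_cons, List.length_append, List.length_nil] at this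
      omega
    · rw [eSl, ← List.cons_append, ← List.append_assoc] at e
      exact nSl (lst e).2
    · rcases hBB with rfl | ⟨Bf, Bt, Bl, Bi, b1, b2, b3, b4⟩
      · exact absurd (hd e).1 (by simp)
      · rw [b1] at e
        exact b2 (hd e).1
  · -- 11
    change comps (app B (.nil △ (.nil △ S))) = _ ∨ comps (app B (.nil △ (.nil △ S))) = _ ∨
      comps (app B (.nil △ (.nil △ S))) = _ at hw'
    rw [comps_app, comps_node, comps_node] at hw'
    rcases hw' with e | e | e
    · exfalso
      have := congrArg List.length e
      simp only [List.length_cons, List.length_append, List.length_nil] at this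
      omega
    · exfalso
      rw [eSl, ← List.cons_append, ← List.cons_append, ← List.append_assoc] at e
      exact nSl (lst e).2
    · rcases hBB with rfl | ⟨Bf, Bt, Bl, Bi, b1, b2, b3, b4⟩
      · exact s3 rfl (hd e).2.symm
      · rw [b1] at e
        exact absurd (hd e).1 b2
  · -- 12
    change comps (S △ app B lf0) = _ ∨ comps (S △ app B lf0) = _ ∨ comps (S △ app B lf0) = _ at hw'
    rw [comps_node, comps_app] at hw'
    rcases hw' with e | e | e
    · exfalso
      have := congrArg List.length e
      simp only [List.length_cons, List.length_append, List.length_nil, comps_node] at this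
      omega
    · have e1 : S :: (comps B ++ comps lf0) = (S :: comps B) ++ [.nil] := rfl
      rw [e1] at e
      exact s1 (lst e).1.symm
    · exact absurd (hd e).1 hSn
  · -- 13
    exfalso
    change comps (app S (app B lf0 △ .nil)) = _ ∨ comps (app S (app B lf0 △ .nil)) = _ ∨
      comps (app S (app B lf0 △ .nil)) = _ at hw'
    rw [comps_app, comps_node, cn] at hw'
    rcases hw' with e | e | e
    · have := congrArg List.length e
      simp only [List.length_append, List.length_singleton] at this
      omega
    · exact absurd (lst e).2 app_ne_r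
    · rw [eSf] at e
      exact nSf (hd e).1
  · -- 14
    change comps ((.nil △ S) △ B) = _ ∨ comps ((.nil △ S) △ B) = _ ∨ comps ((.nil △ S) △ B) = _ at hw'
    rw [comps_node] at hw'
    rcases hBB with rfl | ⟨Bf, Bt, Bl, Bi, b1, b2, b3, b4⟩
    · have := one (a := .nil △ S) (by simp) hw'
      rw [this]
      exact .s3 rfl
    · exfalso
      rcases hw' with e | e | e
      · rw [b1] at e
        simp at e
      · rw [b3, ← List.cons_append] at e
        exact b4 (lst e).2
      · exact absurd (hd e).1 (by simp)
  · -- 15
    change comps (.nil △ (S △ B)) = _ ∨ comps (.nil △ (S △ B)) = _ ∨ comps (.nil △ (S △ B)) = _ at hw'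
    rw [comps_node, comps_node] at hw'
    rcases hw' with e | e | e
    · simp at e
    · exfalso
      rcases hBB with rfl | ⟨Bf, Bt, Bl, Bi, b1, b2, b3, b4⟩
      · have e1 : BinaryTree.nil :: S :: comps .nil = [.nil] ++ [S] := rfl
        rw [e1] at e
        exact hSn (lst e).2
      · rw [b3, ← List.cons_append, ← List.cons_append] at e
        exact b4 (lst e).2
    · exact s1 (hd e).2.symm
  · -- 16
    change comps (app S (B △ lf0)) = _ ∨ comps (app S (B △ lf0)) = _ ∨ comps (app S (B △ lf0)) = _ at hw'
    rw [comps_app, comps_node] at hw'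
    rcases hw' with e | e | e
    · exfalso
      have := congrArg List.length e
      simp only [List.length_cons, List.length_append, List.length_nil, comps_node] at this
      omega
    · have e1 : comps S ++ B :: comps lf0 = (comps S ++ [B]) ++ [.nil] := by
        rw [List.append_assoc]; rfl
      rw [e1] at e
      exact s2 (lst e).1.symm
    · rw [eSf] at e
      exact absurd (hd e).1 nSf
  · -- 17
    have := one (a := S △ B) (by simp) hw'
    rw [this]
    exact .s1
  · -- 18
    change comps (.nil △ app S (B △ .nil)) = _ ∨ comps (.nil △ app S (B △ .nil)) = _ ∨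
      comps (.nil △ app S (B △ .nil)) = _ at hw'
    rw [comps_node, comps_app, comps_node, cn] at hw'
    rcases hw' with e | e | e
    · exfalso
      have := congrArg List.length e
      simp only [List.length_cons, List.length_append, List.length_nil] at this
      omega
    · rw [← List.cons_append] at e
      exact s3 (lst e).2 (lst e).1.symm
    · exact s2 (hd e).2.symm
  · -- 19
    have := one (a := app S (B △ .nil)) app_ne_r hw'
    rw [this]
    exact .s2

end L1

end Pool.OddHC
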