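import Pool.Agent.Work.MP_8f87b2_h32.L1L

/-!
# MP_8f87b2_co: row W-K-L1 (`K`: host `(X)()`, new `X(())`, `()()X`; `K'`: host `()(X)`, new `X()()`, `(())X`)
-/

set_option autoImplicit false

namespace Pool.OddHC

open Finset Equiv BinaryTree Pool.Agent.Work.MP_8f87b2_co

variable {k : ℕ}

namespace L1

open H1 J Ft

variable {n : ℕ} {Φ : ZMod (2 * n + 1) → ℕ}

/-- with the last component of `R` -/
structure EK (R B S : BinaryTree Unit) : Prop where
  en : EN R B S
  b : ∀ L, comps B ≠ L ++ [lf0]
  s : ∀ L, comps S ≠ lf0 :: L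
  r : ∀ L, comps R ≠ L ++ [lf0]

/-- the hits of the forms `(X)()`, `X(())`, `()()X` -/
inductive K1 (R B S : BinaryTree Unit) : BinaryTree Unit → Prop
  | r : K1 R B S R
  | s : B = .nil → K1 R B S S
  | a (S' : BinaryTree Unit) : comps S = comps S' ++ [lf0] → K1 R B S (app B (lf0 △ S'))
  | b (S' : BinaryTree Unit) : comps S = comps S' ++ [lf0] → K1 R B S (app B (.nil △ (.nil △ S')))

/-- the hits of the forms `()(X)`, `X()()`, `(())X` -/
inductive K2 (R B S : BinaryTree Unit) : BinaryTree Unit → Prop
  | r : K2 R B S R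
  | s : B = .nil → K2 R B S S
  | a (R' : BinaryTree Unit) : comps R = lf0 :: comps R' → K2 R B S (app R' (lf0 △ .nil))
  | b (R' : BinaryTree Unit) : comps R = lf0 :: comps R' → K2 R B S (app R' (.nil △ (.nil △ .nil)))
  | c (B' : BinaryTree Unit) : comps B = lf0 :: comps B' → K2 R B S (app B' (lf0 △ S))
  | d (B' : BinaryTree Unit) : comps B = lf0 :: comps B' → K2 R B S (app B' (.nil △ (.nil △ S)))

theorem comps_surj (L : List (BinaryTree Unit)) : ∃ Y, comps Y = L := by
  induction L with
  | nil => exact ⟨.nil, rfl⟩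
  | cons A L ih =>
    obtain ⟨Y, hY⟩ := ih
    exact ⟨A △ Y, by rw [comps_node, hY]⟩

theorem EK.k1 {R B S X : BinaryTree Unit} (h : EK R B S) (hX : X ≠ .nil) {i : ℕ} (hi : i < 20) (h5 : i ≠ 5)
    (hw : comps (H1.W R .nil B S i) = [X, .nil] ∨ comps (H1.W R .nil B S i) = comps X ++ [lf0] ∨
      comps (H1.W R .nil B S i) = [.nil, .nil] ++ comps X) : K1 R B S X := by
  obtain ⟨⟨hR, hS, hB⟩, hB2, hS2, hR2⟩ := h
  obtain ⟨⟨Rf, Rt, eRf, nRf⟩, ⟨Rl, Ri, eRl, nRl⟩⟩ := hR.comps
  obtain ⟨⟨Sf, St, eSf, nSf⟩, ⟨Sl, Si, eSl, nSl⟩⟩ := hS.comps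
  have hRn := hR.ne
  have hSn := hS.ne
  have lR := List.length_pos_iff.2 (comps_ne hRn)
  have lS := List.length_pos_iff.2 (comps_ne hSn)
  have lX := List.length_pos_iff.2 (comps_ne hX)
  have cn : comps (BinaryTree.nil : BinaryTree Unit) = [] := rfl
  have hBB : (B = .nil) ∨ (∃ Bf Bt Bl Bi, comps B = Bf :: Bt ∧ Bf ≠ .nil ∧ comps B = Bi ++ [Bl] ∧ Bl ≠ .nil) := by
    rcases hB with h | h
    · exact Or.inl h
    · obtain ⟨⟨Bf, Bt, eBf, nBf⟩, ⟨Bl, Bi, eBl, nBl⟩⟩ := h.comps
      exact Or.inr ⟨Bf, Bt, Bl, Bi, eBf, nBf, eBl, nBl⟩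
  have hd : ∀ {a b : BinaryTree Unit} {L L' : List (BinaryTree Unit)}, a :: L = b :: L' → a = b ∧ L = L' := by
    intro a b L L' e
    exact ⟨(List.cons.inj e).1, (List.cons.inj e).2⟩
  have nlf : lf0 ≠ .nil := by simp
  have hSl : S ≠ lf0 := fun e => hS.f .nil e
  have hRl : R ≠ lf0 := fun e => hR.f .nil e
  have hBl : B ≠ lf0 := fun e => by
    rcases hB with h | h
    · rw [e] at h; exact nlf h
    · exact h.f .nil e
  -- one component
  have short : ∀ {L : List (BinaryTree Unit)}, L.length ≤ 1 →
      (L = [X, .nil] ∨ L = comps X ++ [lf0] ∨ L = [.nil, .nil] ++ comps X) → False := by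
    intro L hL h
    rcases h with e | e | e <;>
    · have := congrArg List.length e
      simp only [List.length_append, List.length_cons, List.length_nil] at this
      omega
  -- the first component is not `()`, the last one is `a`, not `()`: second form
  have fl : ∀ {L L' : List (BinaryTree Unit)} {a b : BinaryTree Unit}, a ≠ .nil → b ≠ .nil →
      a :: L' = L ++ [b] →
      (L ++ [b] = [X, .nil] ∨ L ++ [b] = comps X ++ [lf0] ∨ L ++ [b] = [.nil, .nil] ++ comps X) →
      L = comps X ∧ b = lf0 := by
    intro L L' a b ha hb e h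
    rcases h with h | h | h
    · exact absurd (lst (L' := [X]) (h.trans rfl)).2 hb
    · exact lst h
    · rw [← e] at h
      exact absurd (hd h).1 ha
  interval_cases i
  · -- 0
    change comps (app R (lf0 △ .nil)) = _ ∨ comps (app R (lf0 △ .nil)) = _ ∨
      comps (app R (lf0 △ .nil)) = _ at hw
    rw [comps_app, comps_node, cn] at hw
    have h1 := fl (a := Rf) (L' := Rt ++ [lf0]) nRf nlf (by rw [eRf]; rfl) hw
    rw [← comps_inj h1.1]
    exact .r
  · -- 1
    exfalso
    change comps (app R (.nil △ lf0)) = _ ∨ comps (app R (.nil △ lf0)) = _ ∨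
      comps (app R (.nil △ lf0)) = _ at hw
    rw [comps_app, comps_node] at hw
    change comps R ++ [.nil, .nil] = _ ∨ comps R ++ [.nil, .nil] = _ ∨ comps R ++ [.nil, .nil] = _ at hw
    rcases hw with e | e | e
    · have := congrArg List.length e
      simp only [List.length_append, List.length_cons, List.length_nil] at this
      omega
    · have e1 : comps R ++ [.nil, .nil] = (comps R ++ [.nil]) ++ [.nil] := by simp
      rw [e1] at e
      exact nlf (lst e).2.symm
    · rw [eRf] at e
      exact nRf (hd e).1
  · -- 2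
    exfalso
    change comps (.nil △ app R lf0) = _ ∨ comps (.nil △ app R lf0) = _ ∨
      comps (.nil △ app R lf0) = _ at hw
    rw [comps_node, comps_app] at hw
    rcases hw with e | e | e
    · exact hX (hd e).1.symm
    · have e1 : BinaryTree.nil :: (comps R ++ comps lf0) = (.nil :: comps R) ++ [.nil] := rfl
      rw [e1] at e
      exact nlf (lst e).2.symm
    · rw [eRf] at e
      exact nRf (hd (hd e).2).1
  · -- 3
    exact (short (L := [app R lf0]) (by simp) hw).elim
  · -- 4
    exfalso
    change comps (lf0 △ R) = _ ∨ comps (lf0 △ R) = _ ∨ comps (lf0 △ R) = _ at hw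
    rw [comps_node, eRl, ← List.cons_append] at hw
    have h1 := fl (a := lf0) (L' := Ri ++ [Rl]) nlf nRl rfl hw
    rw [h1.2] at eRl
    exact hR2 _ eRl
  · exact absurd rfl h5
  · -- 6
    change [R, .nil] = _ ∨ [R, .nil] = _ ∨ [R, .nil] = _ at hw
    rcases hw with e | e | e
    · rw [← (hd e).1]; exact .r
    · have e1 : [R, BinaryTree.nil] = [R] ++ [.nil] := rfl
      rw [e1] at e
      exact absurd (lst e).2.symm nlf
    · exact absurd (hd e).1 hRn
  · exact (short (L := [.nil △ R]) (by simp) hw).elim
  · -- 8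
    exfalso
    change [.nil, R] = _ ∨ [.nil, R] = _ ∨ [.nil, R] = _ at hw
    rcases hw with e | e | e
    · exact hX (hd e).1.symm
    · have e1 : [BinaryTree.nil, R] = [.nil] ++ [R] := rfl
      rw [e1] at e
      exact hRl (lst e).2
    · exact hRn (hd (hd e).2).1
  · exact (short (L := [R △ .nil]) (by simp) hw).elim
  · -- 10
    change comps (app B (lf0 △ S)) = _ ∨ comps (app B (lf0 △ S)) = _ ∨ comps (app B (lf0 △ S)) = _ at hw
    rw [comps_app, comps_node, eSl, ← List.cons_append, ← List.append_assoc] at hw
    have h1 : comps B ++ lf0 :: Si = comps X ∧ Sl = lf0 := by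
      rcases hBB with rfl | ⟨Bf, Bt, Bl, Bi, b1, b2, b3, b4⟩
      · exact fl (a := lf0) (L' := Si ++ [Sl]) nlf nSl rfl hw
      · refine fl (a := Bf) (L' := Bt ++ lf0 :: Si ++ [Sl]) b2 nSl ?_ hw
        rw [b1]; simp
    obtain ⟨S', hS'⟩ := comps_surj Si
    have hX' : X = app B (lf0 △ S') := comps_inj (by rw [← h1.1, comps_app, comps_node, hS'])
    rw [hX']
    exact .a S' (by rw [eSl, h1.2, hS'])
  · -- 11
    change comps (app B (.nil △ (.nil △ S))) = _ ∨ comps (app B (.nil △ (.nil △ S))) = _ ∨
      comps (app B (.nil △ (.nil △ S))) = _ at hw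
    rw [comps_app, comps_node, comps_node] at hw
    rcases hw with e | e | e
    · exfalso
      have := congrArg List.length e
      simp only [List.length_cons, List.length_append, List.length_nil] at this
      omega
    · rw [eSl, ← List.cons_append, ← List.cons_append, ← List.append_assoc] at e
      obtain ⟨h1, h2⟩ := lst e
      obtain ⟨S', hS'⟩ := comps_surj Si
      have hX' : X = app B (.nil △ (.nil △ S')) :=
        comps_inj (by rw [← h1, comps_app, comps_node, comps_node, hS'])
      rw [hX']
      exact .b S' (by rw [eSl, h2, hS'])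
    · rcases hBB with rfl | ⟨Bf, Bt, Bl, Bi, b1, b2, b3, b4⟩
      · have h1 := comps_inj (hd (hd e).2).2
        rw [← h1]
        exact .s rfl
      · rw [b1] at e
        exact absurd (hd e).1 b2
  · -- 12
    change comps (S △ app B lf0) = _ ∨ comps (S △ app B lf0) = _ ∨ comps (S △ app B lf0) = _ at hw
    rw [comps_node, comps_app] at hw
    rcases hw with e | e | e
    · rcases hBB with rfl | ⟨Bf, Bt, Bl, Bi, b1, b2, b3, b4⟩
      · rw [← (hd e).1]
        exact .s rfl
      · exfalso
        have := congrArg List.length e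
        rw [b1] at this
        simp only [List.length_cons, List.length_append, List.length_nil] at this
        have e0 : (comps lf0).length = 1 := rfl
        omega
    · exfalso
      have e1 : S :: (comps B ++ comps lf0) = (S :: comps B) ++ [.nil] := rfl
      rw [e1] at e
      exact nlf (lst e).2.symm
    · exact absurd (hd e).1 hSn
  · -- 13
    change comps (app S (app B lf0 △ .nil)) = _ ∨ comps (app S (app B lf0 △ .nil)) = _ ∨
      comps (app S (app B lf0 △ .nil)) = _ at hw
    rw [comps_app, comps_node, cn] at hw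
    have h1 := fl (a := Sf) (L' := St ++ [app B lf0]) nSf app_ne_r (by rw [eSf]; rfl) hw
    rcases hBB with rfl | ⟨Bf, Bt, Bl, Bi, b1, b2, b3, b4⟩
    · rw [← comps_inj h1.1]
      exact .s rfl
    · exfalso
      have h2 := congrArg comps h1.2
      rw [comps_app, b1] at h2
      exact b2 (hd h2).1
  · -- 14
    exfalso
    change comps ((.nil △ S) △ B) = _ ∨ comps ((.nil △ S) △ B) = _ ∨ comps ((.nil △ S) △ B) = _ at hw
    rw [comps_node] at hw
    rcases hBB with rfl | ⟨Bf, Bt, Bl, Bi, b1, b2, b3, b4⟩
    · exact short (by simp [cn]) hw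
    · rw [b3, ← List.cons_append] at hw
      have h1 := fl (a := .nil △ S) (L' := Bi ++ [Bl]) (by simp) b4 rfl hw
      rw [h1.2] at b3
      exact hB2 _ b3
  · -- 15
    exfalso
    change comps (.nil △ (S △ B)) = _ ∨ comps (.nil △ (S △ B)) = _ ∨ comps (.nil △ (S △ B)) = _ at hw
    rw [comps_node, comps_node] at hw
    rcases hw with e | e | e
    · exact hX (hd e).1.symm
    · rcases hBB with rfl | ⟨Bf, Bt, Bl, Bi, b1, b2, b3, b4⟩
      · have e1 : BinaryTree.nil :: S :: comps .nil = [.nil] ++ [S] := rfl
        rw [e1] at e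
        exact hSl (lst e).2
      · rw [b3, ← List.cons_append, ← List.cons_append] at e
        rw [(lst e).2] at b3
        exact hB2 _ b3
    · exact hSn (hd (hd e).2).1
  · -- 16
    exfalso
    change comps (app S (B △ lf0)) = _ ∨ comps (app S (B △ lf0)) = _ ∨ comps (app S (B △ lf0)) = _ at hw
    rw [comps_app, comps_node] at hw
    rcases hw with e | e | e
    · have := congrArg List.length e
      simp only [List.length_cons, List.length_append, List.length_nil] at this
      have e0 : (comps lf0).length = 1 := rfl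
      omega
    · have e1 : comps S ++ B :: comps lf0 = (comps S ++ [B]) ++ [.nil] := by
        rw [List.append_assoc]; rfl
      rw [e1] at e
      exact nlf (lst e).2.symm
    · rw [eSf] at e
      exact nSf (hd e).1
  · exact (short (L := [S △ B]) (by simp) hw).elim
  · -- 18
    exfalso
    change comps (.nil △ app S (B △ .nil)) = _ ∨ comps (.nil △ app S (B △ .nil)) = _ ∨
      comps (.nil △ app S (B △ .nil)) = _ at hw
    rw [comps_node, comps_app, comps_node, cn] at hw
    rcases hw with e | e | e
    · exact hX (hd e).1.symm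
    · rw [← List.cons_append] at e
      exact hBl (lst e).2
    · rw [eSf] at e
      exact nSf (hd (hd e).2).1
  · exact (short (L := [app S (B △ .nil)]) (by simp) hw).elim

theorem EK.k2 {R B S X : BinaryTree Unit} (h : EK R B S) (hX : X ≠ .nil) {i : ℕ} (hi : i < 20) (h5 : i ≠ 5)
    (hw : comps (H1.W R .nil B S i) = [.nil, X] ∨ comps (H1.W R .nil B S i) = comps X ++ [.nil, .nil] ∨
      comps (H1.W R .nil B S i) = lf0 :: comps X) : K2 R B S X := by
  obtain ⟨⟨hR, hS, hB⟩, hB2, hS2, hR2⟩ := h
  obtain ⟨⟨Rf, Rt, eRf, nRf⟩, ⟨Rl, Ri, eRl, nRl⟩⟩ := hR.comps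
  obtain ⟨⟨Sf, St, eSf, nSf⟩, ⟨Sl, Si, eSl, nSl⟩⟩ := hS.comps
  have hRn := hR.ne
  have hSn := hS.ne
  have lR := List.length_pos_iff.2 (comps_ne hRn)
  have lS := List.length_pos_iff.2 (comps_ne hSn)
  have lX := List.length_pos_iff.2 (comps_ne hX)
  have cn : comps (BinaryTree.nil : BinaryTree Unit) = [] := rfl
  have hBB : (B = .nil) ∨ (∃ Bf Bt Bl Bi, comps B = Bf :: Bt ∧ Bf ≠ .nil ∧ comps B = Bi ++ [Bl] ∧ Bl ≠ .nil) := by
    rcases hB with h | h
    · exact Or.inl h
    · obtain ⟨⟨Bf, Bt, eBf, nBf⟩, ⟨Bl, Bi, eBl, nBl⟩⟩ := h.comps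
      exact Or.inr ⟨Bf, Bt, Bl, Bi, eBf, nBf, eBl, nBl⟩
  have hd : ∀ {a b : BinaryTree Unit} {L L' : List (BinaryTree Unit)}, a :: L = b :: L' → a = b ∧ L = L' := by
    intro a b L L' e
    exact ⟨(List.cons.inj e).1, (List.cons.inj e).2⟩
  have nlf : lf0 ≠ .nil := by simp
  have hSl : S ≠ lf0 := fun e => hS.f .nil e
  have hRl : R ≠ lf0 := fun e => hR.f .nil e
  -- the last two components
  have two : ∀ {L L' : List (BinaryTree Unit)} {a : BinaryTree Unit}, L ++ [a] = L' ++ [.nil, .nil] →
      a = .nil ∧ L = L' ++ [.nil] := by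
    intro L L' a e
    have e1 : L' ++ [BinaryTree.nil, .nil] = (L' ++ [.nil]) ++ [.nil] := by simp
    rw [e1] at e
    exact ⟨(lst e).2, (lst e).1⟩
  -- one component
  have short : ∀ {L : List (BinaryTree Unit)}, L.length ≤ 1 →
      (L = [.nil, X] ∨ L = comps X ++ [.nil, .nil] ∨ L = lf0 :: comps X) → False := by
    intro L hL h
    rcases h with e | e | e <;>
    · have := congrArg List.length e
      simp only [List.length_append, List.length_cons, List.length_nil] at this
      omega
  interval_cases i
  · -- 0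
    change comps (app R (lf0 △ .nil)) = _ ∨ comps (app R (lf0 △ .nil)) = _ ∨
      comps (app R (lf0 △ .nil)) = _ at hw
    rw [comps_app, comps_node, cn] at hw
    rcases hw with e | e | e
    · rw [eRf] at e
      exact absurd (hd e).1 nRf
    · exact absurd (two e).1 nlf
    · rw [eRf] at e
      obtain ⟨R', hR'⟩ := comps_surj Rt
      have h1 := hd e
      have hX' : X = app R' (lf0 △ .nil) := comps_inj (by
        rw [← h1.2, comps_app, hR']; rfl)
      rw [hX']
      exact .a R' (by rw [eRf, h1.1, hR'])
  · -- 1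
    change comps (app R (.nil △ lf0)) = _ ∨ comps (app R (.nil △ lf0)) = _ ∨
      comps (app R (.nil △ lf0)) = _ at hw
    rw [comps_app, comps_node] at hw
    change comps R ++ [.nil, .nil] = _ ∨ comps R ++ [.nil, .nil] = _ ∨ comps R ++ [.nil, .nil] = _ at hw
    rcases hw with e | e | e
    · rw [eRf] at e
      exact absurd (hd e).1 nRf
    · have h1 := comps_inj (List.append_cancel_right e)
      rw [← h1]
      exact .r
    · rw [eRf] at e
      obtain ⟨R', hR'⟩ := comps_surj Rt
      have h1 := hd e
      have hX' : X = app R' (.nil △ (.nil △ .nil)) := comps_inj (by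
        rw [← h1.2, comps_app, hR']; rfl)
      rw [hX']
      exact .b R' (by rw [eRf, h1.1, hR'])
  · -- 2
    exfalso
    change comps (.nil △ app R lf0) = _ ∨ comps (.nil △ app R lf0) = _ ∨
      comps (.nil △ app R lf0) = _ at hw
    rw [comps_node, comps_app] at hw
    have e1 : BinaryTree.nil :: (comps R ++ comps lf0) = (.nil :: comps R) ++ [.nil] := rfl
    rcases hw with e | e | e
    · have := congrArg List.length e
      simp only [List.length_cons, List.length_append, List.length_nil] at this
      have e0 : (comps lf0).length = 1 := rfl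
      omega
    · rw [e1] at e
      have h1 := (two e).2
      rw [eRl, ← List.cons_append] at h1
      exact nRl (lst h1).2
    · exact nlf (hd e).1.symm
  · -- 3
    exact (short (L := [app R lf0]) (by simp) hw).elim
  · -- 4
    change comps (lf0 △ R) = _ ∨ comps (lf0 △ R) = _ ∨ comps (lf0 △ R) = _ at hw
    rw [comps_node] at hw
    rcases hw with e | e | e
    · exact absurd (hd e).1 nlf
    · rw [eRl, ← List.cons_append] at e
      exact absurd (two e).1 nRl
    · rw [← comps_inj (hd e).2]
      exact .r
  · exact absurd rfl h5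
  · -- 6
    exfalso
    change [R, .nil] = _ ∨ [R, .nil] = _ ∨ [R, .nil] = _ at hw
    rcases hw with e | e | e
    · exact hRn (hd e).1
    · have := congrArg List.length e
      simp only [List.length_cons, List.length_append, List.length_nil] at this
      omega
    · exact hRl (hd e).1
  · exact (short (L := [.nil △ R]) (by simp) hw).elim
  · -- 8
    change [.nil, R] = _ ∨ [.nil, R] = _ ∨ [.nil, R] = _ at hw
    rcases hw with e | e | e
    · rw [← (hd (hd e).2).1]
      exact .r
    · have e1 : [BinaryTree.nil, R] = [.nil] ++ [R] := rfl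
      rw [e1] at e
      exact absurd (two e).1 hRn
    · exact absurd (hd e).1.symm nlf
  · exact (short (L := [R △ .nil]) (by simp) hw).elim
  · -- 10
    change comps (app B (lf0 △ S)) = _ ∨ comps (app B (lf0 △ S)) = _ ∨ comps (app B (lf0 △ S)) = _ at hw
    rw [comps_app, comps_node] at hw
    rcases hw with e | e | e
    · exfalso
      rcases hBB with rfl | ⟨Bf, Bt, Bl, Bi, b1, b2, b3, b4⟩
      · exact nlf (hd e).1
      · rw [b1] at e
        exact b2 (hd e).1
    · rw [eSl, ← List.cons_append, ← List.append_assoc] at e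
      exact absurd (two e).1 nSl
    · rcases hBB with rfl | ⟨Bf, Bt, Bl, Bi, b1, b2, b3, b4⟩
      · rw [← comps_inj (hd e).2]
        exact .s rfl
      · rw [b1] at e
        have h1 := hd e
        obtain ⟨B', hB'⟩ := comps_surj Bt
        have hX' : X = app B' (lf0 △ S) := comps_inj (by
          rw [← h1.2, comps_app, hB', comps_node]; rfl)
        rw [hX']
        exact .c B' (by rw [b1, h1.1, hB'])
  · -- 11
    change comps (app B (.nil △ (.nil △ S))) = _ ∨ comps (app B (.nil △ (.nil △ S))) = _ ∨
      comps (app B (.nil △ (.nil △ S))) = _ at hw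
    rw [comps_app, comps_node, comps_node] at hw
    rcases hw with e | e | e
    · exfalso
      have := congrArg List.length e
      simp only [List.length_cons, List.length_append, List.length_nil] at this
      omega
    · rw [eSl, ← List.cons_append, ← List.cons_append, ← List.append_assoc] at e
      exact absurd (two e).1 nSl
    · rcases hBB with rfl | ⟨Bf, Bt, Bl, Bi, b1, b2, b3, b4⟩
      · exact absurd (hd e).1.symm nlf
      · rw [b1] at e
        have h1 := hd e
        obtain ⟨B', hB'⟩ := comps_surj Bt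
        have hX' : X = app B' (.nil △ (.nil △ S)) := comps_inj (by
          rw [← h1.2, comps_app, hB', comps_node, comps_node]; rfl)
        rw [hX']
        exact .d B' (by rw [b1, h1.1, hB'])
  · -- 12
    exfalso
    change comps (S △ app B lf0) = _ ∨ comps (S △ app B lf0) = _ ∨ comps (S △ app B lf0) = _ at hw
    rw [comps_node, comps_app] at hw
    rcases hw with e | e | e
    · exact hSn (hd e).1
    · have e1 : S :: (comps B ++ comps lf0) = (S :: comps B) ++ [.nil] := rfl
      rw [e1] at e
      have h1 := (two e).2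
      rcases hBB with rfl | ⟨Bf, Bt, Bl, Bi, b1, b2, b3, b4⟩
      · exact hSn (lst (L := []) h1).2
      · rw [b3, ← List.cons_append] at h1
        exact b4 (lst h1).2
    · exact hSl (hd e).1
  · -- 13
    exfalso
    change comps (app S (app B lf0 △ .nil)) = _ ∨ comps (app S (app B lf0 △ .nil)) = _ ∨
      comps (app S (app B lf0 △ .nil)) = _ at hw
    rw [comps_app, comps_node, cn] at hw
    rcases hw with e | e | e
    · rw [eSf] at e
      exact nSf (hd e).1
    · exact app_ne_r (two e).1
    · rw [eSf] at e
      rw [(hd e).1] at eSf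
      exact hS2 _ eSf
  · -- 14
    exfalso
    change comps ((.nil △ S) △ B) = _ ∨ comps ((.nil △ S) △ B) = _ ∨ comps ((.nil △ S) △ B) = _ at hw
    rw [comps_node] at hw
    rcases hBB with rfl | ⟨Bf, Bt, Bl, Bi, b1, b2, b3, b4⟩
    · exact short (by simp [cn]) hw
    · rcases hw with e | e | e
      · exact absurd (hd e).1 (by simp)
      · rw [b3, ← List.cons_append] at e
        exact b4 (two e).1
      · have h1 : S = .nil := by
          have := (hd e).1
          injection this
        exact hSn h1
  · -- 15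
    change comps (.nil △ (S △ B)) = _ ∨ comps (.nil △ (S △ B)) = _ ∨ comps (.nil △ (S △ B)) = _ at hw
    rw [comps_node, comps_node] at hw
    rcases hw with e | e | e
    · have h1 := hd (hd e).2
      have h2 : B = .nil := comps_inj (by rw [h1.2]; rfl)
      rw [← h1.1]
      exact .s h2
    · exfalso
      rcases hBB with rfl | ⟨Bf, Bt, Bl, Bi, b1, b2, b3, b4⟩
      · have e1 : BinaryTree.nil :: S :: comps .nil = [.nil] ++ [S] := rfl
        rw [e1] at e
        exact hSn (two e).1
      · rw [b3, ← List.cons_append, ← List.cons_append] at e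
        exact b4 (two e).1
    · exact absurd (hd e).1.symm nlf
  · -- 16
    change comps (app S (B △ lf0)) = _ ∨ comps (app S (B △ lf0)) = _ ∨ comps (app S (B △ lf0)) = _ at hw
    rw [comps_app, comps_node] at hw
    have e1 : comps S ++ B :: comps lf0 = (comps S ++ [B]) ++ [.nil] := by
      rw [List.append_assoc]; rfl
    rcases hw with e | e | e
    · rw [eSf] at e
      exact absurd (hd e).1 nSf
    · rw [e1] at e
      have h1 := lst (two e).2
      rw [← comps_inj h1.1]
      exact .s h1.2
    · rw [eSf] at e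
      rw [(hd e).1] at eSf
      exact absurd eSf (hS2 _)
  · exact (short (L := [S △ B]) (by simp) hw).elim
  · -- 18
    exfalso
    change comps (.nil △ app S (B △ .nil)) = _ ∨ comps (.nil △ app S (B △ .nil)) = _ ∨
      comps (.nil △ app S (B △ .nil)) = _ at hw
    rw [comps_node, comps_app, comps_node, cn] at hw
    rcases hw with e | e | e
    · have := congrArg List.length e
      simp only [List.length_cons, List.length_append, List.length_nil] at this
      omega
    · rw [← List.cons_append] at e
      have h1 := (two e).2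
      rw [eSl, ← List.cons_append] at h1
      exact nSl (lst h1).2
    · exact nlf (hd e).1.symm
  · exact (short (L := [app S (B △ .nil)]) (by simp) hw).elim

end L1

end Pool.OddHC
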